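import Pool.Agent.N483.KM.StmV

/-!
# Poincaré inequality in bounded dimension, in isotropic position: statements
-/

set_option autoImplicit false

namespace Pool.Agent.N483.KM

open MeasureTheory Set Filter Topology
open scoped ENNReal InnerProductSpace
open Pool.Agent.R754.KG (E)
open Pool.Agent.Y506.PV (LCn)
open Pool.Agent.Y506.RG (EW VW Adm)

/-- positive continuous log-concave weights -/
structure PW {k : ℕ} (w : E k → ℝ) : Prop where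
  adm : Adm w
  lc : LCn w
  cont : Continuous w
  pos : ∀ x, 0 < w x

/-- bounded `C¹` functions with bounded gradient -/
structure BF {k : ℕ} (f : E k → ℝ) : Prop where
  diff : ContDiff ℝ 1 f
  bdd : ∃ B : ℝ, ∀ x, |f x| ≤ B
  grad : ∃ B : ℝ, ∀ x, ‖fderiv ℝ f x‖ ≤ B

/-- Y1: balls -/
def S_PBA : Prop := ∀ (k : ℕ) (w f : E k → ℝ) (x0 : E k) (R : ℝ), 0 < R → PW w → BF f →
  ∃ c : ℝ, ∫ x in Metric.closedBall x0 R, (f x - c) ^ 2 * w x ≤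
    2 * R ^ 2 * ∫ x in Metric.closedBall x0 R, ‖fderiv ℝ f x‖ ^ 2 * w x

/-- Y2: far from the mode -/
def S_PFR : Prop := ∀ k : ℕ, 1 ≤ k → ∃ C : ℝ, 0 < C ∧ ∀ (w f : E k → ℝ) (x0 : E k) (R : ℝ), 0 < R →
  PW w → BF f → (∀ x, R ≤ ‖x - x0‖ → w x ≤ Real.exp (-2 * k) * w x0) →
  ∫ x in (Metric.closedBall x0 (2 * R))ᶜ, f x ^ 2 * w x ≤
    C * (∫ x in Metric.closedBall x0 (2 * R), f x ^ 2 * w x) +
    C * R ^ 2 * ∫ x, ‖fderiv ℝ f x‖ ^ 2 * w x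

/-- Y3: isotropic weights decay -/
def S_PIS : Prop := ∀ k : ℕ, ∃ R : ℝ, 0 < R ∧ ∀ w : E k → ℝ, PW w →
  (∀ θ : E k, VW w (fun x => ⟪x, θ⟫_ℝ) = ‖θ‖ ^ 2) →
  ∃ x0 : E k, ∀ x, R ≤ ‖x - x0‖ → w x ≤ Real.exp (-2 * k) * w x0

/-- Y4: the Poincaré inequality in bounded dimension -/
def S_GDD : Prop := ∀ b : ℕ, ∃ A : ℝ, 0 < A ∧ ∀ k : ℕ, k ≤ b →
  ∀ G : Set (E k ≃ₗᵢ[ℝ] E k), Gd A G

end Pool.Agent.N483.KM
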