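import Pool.Agent.R755.KF.Defs2

/-!
# Sections of maximal volume: statements

Everything is stated as a `Prop` (`S_...`).
-/

set_option autoImplicit false

namespace Pool.Agent.N483.KM

open MeasureTheory Set Filter Topology
open scoped ENNReal InnerProductSpace
open Pool.Agent.H888R2.KT (gs gc)
open Pool.Agent.R754.KG (E un sl Rv)
open Pool.Agent.R755.KF (BL PB PW zn ey e2 om sd aff PLH PL3 CB lw)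

/-! ### measures -/

/-- images of the uniform measures of convex bodies under affine maps -/
def LCI {k : ℕ} (ν : Measure (E k)) : Prop :=
  ∃ (n : ℕ) (C : Set (E n)) (T : E n →ₗ[ℝ] E k) (b : E k), Convex ℝ C ∧ IsCompact C ∧
    0 < volume C ∧ ν = Measure.map (fun x => b + T x) (un C)

/-- Prékopa–Leindler inequality for one measure -/
def PLS {k : ℕ} (ν : Measure (E k)) : Prop := ∀ s : ℝ, 0 < s → s < 1 →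
  ∀ f g h : E k → ℝ≥0∞, Measurable f → Measurable g → Measurable h →
  (∀ x y, f x ^ (1 - s) * g y ^ s ≤ h ((1 - s) • x + s • y)) →
  (∫⁻ x, f x ∂ν) ^ (1 - s) * (∫⁻ x, g x ∂ν) ^ s ≤ ∫⁻ x, h x ∂ν

/-- KM1 -/
def S_LCI : Prop := ∀ (k : ℕ) (ν : Measure (E k)), LCI ν →
  PLS ν ∧ PL3 ν ν ν 1 ∧ ∃ B : ℝ, 0 ≤ B ∧ PB B ν

/-- `(2 π h)^{k/2}` times the density of `X + √h Z` on the event `X ∈ B` -/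
noncomputable def nz {k : ℕ} (h : ℝ) (ν : Measure (E k)) (B : Set (E k)) (y : E k) : ℝ :=
  ∫ x in B, Real.exp (-(‖x - y‖ ^ 2 / (2 * h))) ∂ν

/-! ### tails -/

/-- KM2: the Prékopa–Leindler inequality in the Gaussian channel -/
def S_CPL : Prop := ∀ (k : ℕ) (h s B0 : ℝ) (ν : Measure (E k)) (B : Set (E k)), 0 < h → 0 < s →
  s < 1 → PB B0 ν → PLS ν → MeasurableSet B →
  Integrable (fun y => (nz h ν B y / zn h ν y) ^ (1 - s) * zn h ν y) ∧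
  ∫ y, (nz h ν B y / zn h ν y) ^ (1 - s) * zn h ν y ≤
    gc (Fin k) h * ∫ z, Real.exp (-((1 - s) / (2 * h * s) * Metric.infDist z B ^ 2)) ∂ν

/-- KM3: Gaussian measures of a set, centred at two points -/
def S_SHF : Prop := ∀ (k : ℕ) (h : ℝ) (U : Set (E k)) (x x' : E k), 0 < h → MeasurableSet U →
  gs h (U.indicator fun _ => (1 : ℝ)) x ^ 2 * Real.exp (-(‖x - x'‖ ^ 2 / h)) ≤
    gs h (U.indicator fun _ => (1 : ℝ)) x'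

/-- sets of measure at least `p` have `r`-neighbourhoods of measure at least `q` -/
def EN {k : ℕ} (ν : Measure (E k)) (p r q : ℝ) : Prop := ∀ B : Set (E k), MeasurableSet B →
  p ≤ ν.real B → q ≤ ν.real (Metric.thickening r B)

/-- sets of measure at least `p` have `r`-neighbourhoods of measure more than one half -/
def CR {k : ℕ} (ν : Measure (E k)) (p r : ℝ) : Prop := ∀ B : Set (E k), MeasurableSet B →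
  p ≤ ν.real B → 1 / 2 < ν.real (Metric.thickening r B)

/-- KM4: one step -/
def S_STEP : Prop := ∃ j0 : ℕ, 1 ≤ j0 ∧ ∀ (k : ℕ) (ν : Measure (E k)) (B0 R : ℝ) (j : ℕ),
  PB B0 ν → PLS ν → j0 ≤ j → 0 < R → EN ν ((1 / 4) ^ (j + 1)) (21 / 10 * R) (1 / 2) →
  EN ν ((1 / 4) ^ j) (R / 10) (4 * (1 / 4) ^ j)

/-- KM5: all levels -/
def S_ALL : Prop := ∃ j0 : ℕ, 1 ≤ j0 ∧ ∀ (k : ℕ) (ν : Measure (E k)) (B0 r : ℝ),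
  PB B0 ν → PLS ν → 0 < r → CR ν ((1 / 4) ^ j0) r →
  ∀ i : ℕ, CR ν ((1 / 4) ^ (j0 + i)) ((9 / 8) ^ i * r)

/-- KM6: fourth moments of Lipschitz functions -/
def S_M4L : Prop := ∃ p0 C : ℝ, 0 < p0 ∧ p0 ≤ 1 / 4 ∧ 0 < C ∧ ∀ (k : ℕ) (ν : Measure (E k))
  (B0 r : ℝ), PB B0 ν → PLS ν → 0 < r → CR ν p0 r →
  ∀ f : E k → ℝ, ContDiff ℝ 1 f → (∀ y, ‖fderiv ℝ f y‖ ≤ 1) →
  ∃ m : ℝ, ∫ x, (f x - m) ^ 4 ∂ν ≤ C * r ^ 4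

/-! ### weak Poincaré inequalities -/

/-- KM7: Brascamp–Lieb inequality for linear images -/
def S_BLI : Prop := ∀ (n k : ℕ) (C : Set (E n)) (T : E n →ₗ[ℝ] E k) (y : E k) (h : ℝ)
  (φ : E k → ℝ), Convex ℝ C → IsCompact C → 0 < h → ContDiff ℝ 1 φ →
  ∃ c : ℝ, ∫ x in C, (φ (T x) - c) ^ 2 * Real.exp (-(‖T x - y‖ ^ 2 / (2 * h))) ≤
    h * ∫ x in C, ‖fderiv ℝ φ (T x)‖ ^ 2 * Real.exp (-(‖T x - y‖ ^ 2 / (2 * h)))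

/-- KM8: smoothing -/
def S_STR : Prop := ∀ (k : ℕ) (ν : Measure (E k)) (h a C0 : ℝ) (f : E k → ℝ), LCI ν → 0 < h →
  0 < a → BL C0 f → (∀ y, |f y| ≤ a) →
  ∃ g : E k → ℝ, ContDiff ℝ 1 g ∧ (∀ y, |g y| ≤ a) ∧ (∀ y, ‖fderiv ℝ g y‖ ≤ a / Real.sqrt h) ∧
  (∫ x, ‖fderiv ℝ g x‖ ^ 2 ∂ν) ≤ ∫ x, ‖fderiv ℝ f x‖ ^ 2 ∂ν ∧
  (∫ x, f x ^ 2 ∂ν) - (∫ x, f x ∂ν) ^ 2 ≤
    2 * h * (∫ x, ‖fderiv ℝ f x‖ ^ 2 ∂ν) + ((∫ x, g x ^ 2 ∂ν) - (∫ x, g x ∂ν) ^ 2)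

/-- KM9: weak Poincaré inequality on a large scale -/
def S_WPM : Prop := ∃ p0 C : ℝ, 0 < p0 ∧ p0 ≤ 1 / 4 ∧ 0 < C ∧ ∀ (k : ℕ) (ν : Measure (E k))
  (r M C0 : ℝ) (f : E k → ℝ), LCI ν → 0 < r → CR ν p0 r → 1 ≤ M → BL C0 f → (∀ y, |f y| ≤ 1) →
  (∫ x, f x ^ 2 ∂ν) - (∫ x, f x ∂ν) ^ 2 ≤
    C / (M * Real.sqrt M) + M * r ^ 2 / 64 * ∫ x, ‖fderiv ℝ f x‖ ^ 2 ∂ν

/-! ### two measures -/

/-- KM10: variances of functions of `X + √h Z`, the error is linear in `δ` -/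
def S_VARL : Prop := ∃ c : ℝ, 0 < c ∧ ∀ (k : ℕ) (h A δ s B C K : ℝ) (ν : Measure (E k))
  (f : E k → ℝ), 0 < A → 0 ≤ δ → 64 * A ≤ h → PW A δ s B ν → BL C f → (∀ y, |f y| ≤ 2) → 0 ≤ K →
  (∀ v : E k, |ey h ν fun y => fderiv ℝ f y v| ≤ K * ‖v‖) →
  ey h ν (fun y => f y ^ 2) - ey h ν f ^ 2 ≤
    19 / 25 * h * ey h ν (fun y => ‖fderiv ℝ f y‖ ^ 2) + 3 / 10 * h * K ^ 2 + c * δ

/-- KM11: the main estimate for small angles, the error is linear in `δ` -/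
def S_CLL : Prop := ∃ c : ℝ, 0 < c ∧ ∀ (k : ℕ) (h A δ s B D η : ℝ) (νa νb : Measure (E k)),
  0 < A → 0 ≤ δ → 0 ≤ s → 64 * A ≤ h → 64 * s ≤ h → 0 ≤ D → 0 ≤ B → 0 ≤ η → PW A δ s B νa →
  PW A δ s B νb →
  (∀ v : E k, |(∫ x, ⟪x, v⟫_ℝ ∂νb) - ∫ x, ⟪x, v⟫_ℝ ∂νa| ≤ D * ‖v‖) → PLH h η νa νb →
  e2 h νa νb (fun y => om h νa νb y ^ 2) ≤ 1 / 100 →
  e2 h νa νb (fun y => om h νa νb y ^ 2) ≤ 10 * η + 5 * D ^ 2 / h + c * δ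

/-- KM12: the affinity on large scales -/
def S_LRG : Prop := ∃ c : ℝ, 0 < c ∧ ∀ (k : ℕ) (h1 A δ s B D η : ℝ) (νa νb : Measure (E k)),
  0 < A → 0 ≤ δ → 0 ≤ s → 64 * A ≤ h1 → 64 * s ≤ h1 → 0 ≤ D → 0 ≤ B → 0 ≤ η → PW A δ s B νa →
  PW A δ s B νb →
  (∀ v : E k, |(∫ x, ⟪x, v⟫_ℝ ∂νb) - ∫ x, ⟪x, v⟫_ℝ ∂νa| ≤ D * ‖v‖) →
  (∀ h, h1 ≤ h → PLH h η νa νb) → c * (η + D ^ 2 / h1 + δ) ≤ 1 / 1000 →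
  1 - aff h1 νa νb ≤ c * (η + D ^ 2 / h1 + δ)

/-- KM13: the derivative of the affinity -/
def S_DAF : Prop := ∀ (k : ℕ) (B h : ℝ) (νa νb : Measure (E k)), 0 < h → 0 ≤ B → PB B νa →
  PB B νb → Integrable (fun y => Real.sqrt (zn h νa y * zn h νb y) * ‖sd h νa νb y‖ ^ 2) ∧
  HasDerivAt (fun h => aff h νa νb)
    (1 / 2 * ((gc (Fin k) h)⁻¹ * ∫ y, Real.sqrt (zn h νa y * zn h νb y) * ‖sd h νa νb y‖ ^ 2)) h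

/-- KM14: from large to small scales -/
def S_DWN : Prop := ∀ (k : ℕ) (B η h h1 : ℝ) (νa νb : Measure (E k)), 0 < h → h ≤ h1 → 0 ≤ B →
  0 ≤ η → PB B νa → PB B νb → (∀ h', h ≤ h' → h' ≤ h1 → PLH h' η νa νb) →
  h * (η + (1 - aff h νa νb)) ≤ h1 * (η + (1 - aff h1 νa νb))

/-- KM15: the affinity on a small scale -/
def S_NEAR : Prop := ∃ p0 : ℝ, 0 < p0 ∧ p0 ≤ 1 / 4 ∧ ∀ θ ε : ℝ, 0 < θ → 0 < ε →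
  ∃ η ε1 : ℝ, 0 < η ∧ 0 < ε1 ∧ ∀ (k : ℕ) (r : ℝ) (νa νb : Measure (E k)), LCI νa → LCI νb →
  0 < r → CR νa p0 r → CR νb p0 r →
  (∀ v : E k, (∫ x, ⟪x, v⟫_ℝ ^ 2 ∂νa) - (∫ x, ⟪x, v⟫_ℝ ∂νa) ^ 2 ≤ ε1 * r ^ 2 * ‖v‖ ^ 2) →
  (∀ v : E k, (∫ x, ⟪x, v⟫_ℝ ^ 2 ∂νb) - (∫ x, ⟪x, v⟫_ℝ ∂νb) ^ 2 ≤ ε1 * r ^ 2 * ‖v‖ ^ 2) →
  (∀ v : E k, |(∫ x, ⟪x, v⟫_ℝ ∂νb) - ∫ x, ⟪x, v⟫_ℝ ∂νa| ≤ ε1 * r * ‖v‖) →
  (∀ h, 0 < h → PLH h η νa νb) → 1 - aff (ε * r ^ 2) νa νb ≤ θ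

/-- KM16: a test function which separates two sets for all measures near to `ν` -/
def S_TRF : Prop := ∀ p : ℝ, 0 < p → ∃ ε θ c : ℝ, 0 < ε ∧ 0 < θ ∧ 0 < c ∧
  ∀ (k : ℕ) (r : ℝ) (ν : Measure (E k)) (B : Set (E k)), LCI ν → 0 < r → MeasurableSet B →
  p ≤ ν.real B → ν.real (Metric.thickening r B) ≤ 1 / 2 →
  ∃ F : E k → ℝ, ContDiff ℝ 1 F ∧ (∀ y, |F y| ≤ 1) ∧ (∀ y, ‖fderiv ℝ F y‖ ≤ 4 / r) ∧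
  ∀ (B2 : ℝ) (ν2 : Measure (E k)), PB B2 ν2 → 1 - aff (ε * r ^ 2) ν ν2 ≤ θ →
  c ≤ (∫ x, F x ^ 2 ∂ν2) - (∫ x, F x ∂ν2) ^ 2

/-! ### geometry -/

/-- KM17: the window -/
def S_WIN : Prop := ∀ d : ℕ, ∃ c : ℝ, 0 < c ∧ ∀ δ : ℝ, 0 < δ → δ ≤ 1 → ∀ (N : ℕ)
  (K : Set (E N × E d)) (ts : E d), CB K → (∀ t, Rv K t ≤ Rv K ts) →
  ∃ J : Set (E d), MeasurableSet J ∧ ts ∈ J ∧ (∀ t ∈ J, Real.exp (-δ) * Rv K ts ≤ Rv K t) ∧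
  ENNReal.ofReal (c * δ ^ d) * volume K ≤ ∫⁻ t in J, volume (sl K t)

/-- KM18: densities of a linear functional on the fibres -/
def S_FDN : Prop := ∀ (N d : ℕ) (K : Set (E N × E d)) (θ : E N), CB K → ‖θ‖ = 1 →
  ∃ g : E d → ℝ → ℝ≥0∞, Measurable (fun z : E d × ℝ => g z.1 z.2) ∧
  (∀ t t' v v' s, 0 < s → s < 1 → g t v ^ (1 - s) * g t' v' ^ s ≤
    g ((1 - s) • t + s • t') ((1 - s) * v + s * v')) ∧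
  (∃ B : ℝ, ∀ t v, B < ‖t‖ ∨ B < |v| → g t v = 0) ∧
  ∀ (t : E d) (F : ℝ → ℝ≥0∞), Measurable F → ∫⁻ x in sl K t, F ⟪θ, x⟫_ℝ = ∫⁻ v, F v * g t v

/-- KM19: comparison of a variance in the maximal fibre with the residual variance -/
def S_RES : Prop := ∀ d : ℕ, ∃ C : ℝ, 0 < C ∧ ∀ (g : E d → ℝ → ℝ≥0∞) (ts : E d),
  Measurable (fun z : E d × ℝ => g z.1 z.2) →
  (∀ t t' v v' s, 0 < s → s < 1 → g t v ^ (1 - s) * g t' v' ^ s ≤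
    g ((1 - s) • t + s • t') ((1 - s) * v + s * v')) →
  (∃ B : ℝ, ∀ t v, B < ‖t‖ ∨ B < |v| → g t v = 0) →
  ∫⁻ t, ∫⁻ v, g t v ≠ 0 → ∫⁻ t, ∫⁻ v, g t v ≠ ⊤ → ∫⁻ v, g ts v ≠ ⊤ →
  (∀ t, ∫⁻ v, g t v ≤ ∫⁻ v, g ts v) →
  ∀ a : ℝ, ∃ (b : E d) (c : ℝ),
  (∫⁻ t, ∫⁻ v, ENNReal.ofReal ((v - ⟪b, t⟫_ℝ - c) ^ 2) * g t v) * ∫⁻ v, g ts v ≤
    ENNReal.ofReal C * (∫⁻ v, ENNReal.ofReal ((v - a) ^ 2) * g ts v) * ∫⁻ t, ∫⁻ v, g t v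

/-- KM20: the regression -/
def S_REG : Prop := ∀ d : ℕ, ∃ C : ℝ, 0 < C ∧ ∀ (N k : ℕ) (K : Set (E N × E d)) (ts : E d), CB K →
  (∀ t, Rv K t ≤ Rv K ts) → ∀ (P : E N →ₗ[ℝ] E k) (s : ℝ), 0 ≤ s → (∀ θ : E k, ‖θ‖ = 1 →
    (∫ x, ⟪P x, θ⟫_ℝ ^ 2 ∂(un (sl K ts))) - (∫ x, ⟪P x, θ⟫_ℝ ∂(un (sl K ts))) ^ 2 ≤ s) →
  ∃ B : E d →ₗ[ℝ] E k, ∀ θ : E k, ‖θ‖ = 1 →
    (∫ z, ⟪P z.1 - B z.2, θ⟫_ℝ ^ 2 ∂(un K)) - (∫ z, ⟪P z.1 - B z.2, θ⟫_ℝ ∂(un K)) ^ 2 ≤ C * s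

end Pool.Agent.N483.KM
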