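import Pool.Agent.N483.KM.Stm3
import Pool.Agent.R751.MB.Stm

/-!
# Conic programs with few equations: statements
-/

set_option autoImplicit false

namespace Pool.Agent.N483.KM

open MeasureTheory Set Filter Topology
open scoped ENNReal InnerProductSpace ComplexOrder
open Pool.Agent.R754.KG (E un sl Rv)
open Pool.Agent.R755.KF (CB)
open Pool.Agent.R751.MB (Eu EW VW Adm LCn AP Frame)

/-- the weight `exp (-f)` on a cone -/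
noncomputable def wc {κ : Type} (C : Set (Eu κ)) (f : Eu κ →ₗ[ℝ] ℝ) : Eu κ → ℝ :=
  C.indicator fun x => Real.exp (-f x)

/-- closed convex pointed cones with nonempty interior -/
structure PC {κ : Type} [Fintype κ] (C : Set (Eu κ)) : Prop where
  closed : IsClosed C
  conv : Convex ℝ C
  cone : ∀ r : ℝ, 0 ≤ r → ∀ x ∈ C, r • x ∈ C
  int : (interior C).Nonempty
  pt : ∀ x ∈ C, -x ∈ C → x = 0

/-- functionals which are positive on `C` without the origin -/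
def Pf {κ : Type} (C : Set (Eu κ)) (f : Eu κ →ₗ[ℝ] ℝ) : Prop := ∀ x ∈ C, x ≠ 0 → 0 < f x

/-- cones all of whose weights `exp (-f)` satisfy the Poincaré inequality with constant `A` in
isotropic position -/
structure GC (A : ℝ) {κ : Type} [Fintype κ] (C : Set (Eu κ)) : Prop where
  pc : PC C
  ap : ∀ f : Eu κ →ₗ[ℝ] ℝ, Pf C f → AP A (wc C f)

/-- the Poincaré inequality with constant `P` for bounded `C¹` functions with bounded derivatives -/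
structure PS {κ : Type} [Fintype κ] (P : ℝ) (w : Eu κ → ℝ) : Prop where
  adm : Adm w
  poi : ∀ f : Eu κ → ℝ, ContDiff ℝ 1 f → (∃ B : ℝ, ∀ x, |f x| ≤ B) →
      (∃ L : ℝ, ∀ x, ‖fderiv ℝ f x‖ ≤ L) → VW w f ≤ P * EW w fun x => ‖fderiv ℝ f x‖ ^ 2

/-- C0a: from isotropic position to the standard position -/
def S_CPS : Prop := ∀ (κ : Type) [Fintype κ] (A σ : ℝ) (w : Eu κ → ℝ), 0 ≤ A → 0 < σ → AP A w →
  (∀ θ : Eu κ, VW w (fun x => ⟪x, θ⟫_ℝ) ≤ σ * ‖θ‖ ^ 2) → PS (A * σ) w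

/-- C0b: from the standard position to isotropic position -/
def S_CAP : Prop := ∀ (κ : Type) [Fintype κ] (P c A : ℝ) (w : Eu κ → ℝ), 0 ≤ P → 0 < c →
  P ≤ A * c → PS P w → (∀ θ : Eu κ, c * ‖θ‖ ^ 2 ≤ VW w (fun x => ⟪x, θ⟫_ℝ)) → AP A w

/-- C1: the exponential distribution -/
def S_RAY : Prop := ∃ A : ℝ, 0 < A ∧
  AP A (fun x : Eu (Fin 1) => if 0 ≤ x 0 then Real.exp (-x 0) else 0)

/-- C2a: moments of `exp (-‖x‖)` -/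
def S_GMO : Prop := ∀ k : ℕ, 1 ≤ k → Adm (fun x : Eu (Fin k) => Real.exp (-‖x‖)) ∧
  (∀ θ : Eu (Fin k), EW (fun x : Eu (Fin k) => Real.exp (-‖x‖)) (fun x => ⟪x, θ⟫_ℝ) = 0 ∧
    EW (fun x : Eu (Fin k) => Real.exp (-‖x‖)) (fun x => ⟪x, θ⟫_ℝ ^ 2) = (k + 1) * ‖θ‖ ^ 2) ∧
  EW (fun x : Eu (Fin k) => Real.exp (-‖x‖)) (fun x => ‖x‖) = k ∧
  EW (fun x : Eu (Fin k) => Real.exp (-‖x‖)) (fun x => ‖x‖ ^ 2) = k * (k + 1)

/-- the weight `exp (-t)` on the Lorentz cone `‖x‖ ≤ t` -/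
noncomputable def wl {k : ℕ} {κ : Type} (e : (Eu (Fin k) × Eu (Fin 1)) ≃ₗ[ℝ] Eu κ) (z : Eu κ) : ℝ :=
  if ‖(e.symm z).1‖ ≤ (e.symm z).2 0 then Real.exp (-(e.symm z).2 0) else 0

/-- C2: the weight `exp (-t)` on the Lorentz cones -/
def S_LORB : Prop := ∃ A : ℝ, 0 < A ∧ ∀ (k : ℕ) (κ : Type) [Fintype κ]
  (e : (Eu (Fin k) × Eu (Fin 1)) ≃ₗ[ℝ] Eu κ), AP A (wl e)

/-- C3: the Lorentz cones -/
def S_LORG : Prop := ∃ A : ℝ, 0 < A ∧ ∀ (k : ℕ) (κ : Type) [Fintype κ]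
  (e : (Eu (Fin k) × Eu (Fin 1)) ≃ₗ[ℝ] Eu κ), GC A {z : Eu κ | ‖(e.symm z).1‖ ≤ (e.symm z).2 0}

/-- C4: the weight `exp (-tr X)` on the cones of positive semidefinite matrices -/
def S_PSDB : Prop := ∃ A : ℝ, 0 < A ∧ ∀ (𝕜 : Type) [RCLike 𝕜] (D : ℕ), 3 ≤ D → ∀ (ι : Type)
  [Fintype ι] (Φ : Eu ι →ₗ[ℝ] Matrix (Fin D) (Fin D) 𝕜), Frame Φ →
  AP A ({x : Eu ι | (Φ x).PosSemidef}.indicator fun x => Real.exp (-RCLike.re (Φ x).trace))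

/-- C5: the cones of positive semidefinite matrices -/
def S_PSDG : Prop := ∃ A : ℝ, 0 < A ∧ ∀ (𝕜 : Type) [RCLike 𝕜] (D : ℕ), 3 ≤ D → ∀ (ι : Type)
  [Fintype ι] (Φ : Eu ι →ₗ[ℝ] Matrix (Fin D) (Fin D) 𝕜), Frame Φ →
  GC A {x : Eu ι | (Φ x).PosSemidef}

/-- C6: products -/
def S_GPRD : Prop := ∀ (κ₁ κ₂ κ₃ : Type) [Fintype κ₁] [Fintype κ₂] [Fintype κ₃] (A : ℝ)
  (e : (Eu κ₁ × Eu κ₂) ≃ₗ[ℝ] Eu κ₃) (C : Set (Eu κ₁)) (C' : Set (Eu κ₂)), 0 ≤ A → GC A C →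
  GC A C' → GC A (e '' (C ×ˢ C'))

/-- C7: linear changes of variables -/
def S_GLIN : Prop := ∀ (κ₁ κ₂ : Type) [Fintype κ₁] [Fintype κ₂] (A : ℝ) (e : Eu κ₁ ≃ₗ[ℝ] Eu κ₂)
  (C : Set (Eu κ₁)), GC A C → GC A (e '' C)

/-- C8: the bodies `{x ∈ C | f x ≤ F}` -/
def S_GRAD : Prop := ∀ A δ : ℝ, 0 < A → 0 < δ → ∃ κ : ℝ, 0 < κ ∧ ∀ (n : ℕ) (C : Set (E n))
  (f : E n →ₗ[ℝ] ℝ) (F : ℝ), 1 ≤ n → GC A C → Pf C f → 0 < F →
  IsCompact {x | x ∈ C ∧ f x ≤ F} ∧ Convex ℝ {x | x ∈ C ∧ f x ≤ F} ∧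
  (interior {x | x ∈ C ∧ f x ≤ F}).Nonempty ∧
  Pool.Agent.Y506.PV.CcW κ δ (Pool.Agent.Y506.PV.ind {x | x ∈ C ∧ f x ≤ F})

/-- C9: the supporting functional -/
def S_GSUP : Prop := ∀ (n q N : ℕ) (e : (E n × E q) ≃ₗ[ℝ] E N) (C : Set (E N)) (b0 : E q), 1 ≤ n →
  PC C → Bornology.IsBounded {x : E n | e (x, b0) ∈ C} → (∃ x : E n, e (x, b0) ∈ interior C) →
  ∃ (f : E N →ₗ[ℝ] ℝ) (F : ℝ), Pf C f ∧ 0 < F ∧ (∀ x : E n, e (x, b0) ∈ C → f (e (x, b0)) ≤ F) ∧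
  ∀ b : E q, volume {x : E n | e (x, b) ∈ C ∧ f (e (x, b)) ≤ F} ≤
    2 * volume {x : E n | e (x, b0) ∈ C}

/-- C10: concentration for conic programs with few equations -/
def S_GCON : Prop := ∀ (A δ : ℝ) (q : ℕ), 0 < A → 0 < δ → ∃ κ : ℝ, 0 < κ ∧ ∀ (n N : ℕ)
  (C : Set (E N)) (L : E n →ₗ[ℝ] E N) (w : E N), 1 ≤ n → N ≤ n + q → GC A C →
  Bornology.IsBounded {x : E n | w + L x ∈ C} → (interior {x : E n | w + L x ∈ C}).Nonempty →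
  IsCompact {x : E n | w + L x ∈ C} ∧ Convex ℝ {x : E n | w + L x ∈ C} ∧
  Pool.Agent.Y506.PV.CcW κ δ (Pool.Agent.Y506.PV.ind {x : E n | w + L x ∈ C})

end Pool.Agent.N483.KM
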