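import Pool.Agent.N483.KM.Stm

/-!
# Sections of maximal volume: more statements
-/

set_option autoImplicit false

namespace Pool.Agent.N483.KM

open MeasureTheory Set Filter Topology
open scoped ENNReal InnerProductSpace
open Pool.Agent.H888R2.KT (gs gc)
open Pool.Agent.R754.KG (E un sl Rv)
open Pool.Agent.R755.KF (BL PB PW zn ey e2 om sd aff PLH PL3 CB lw)

/-- posterior mean of `u(X)`, given `X + √h Z = y` -/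
noncomputable def po {k : ℕ} (h : ℝ) (ν : Measure (E k)) (u : E k → ℝ) (y : E k) : ℝ :=
  (∫ x, u x * Real.exp (-(‖x - y‖ ^ 2 / (2 * h))) ∂ν) / zn h ν y

/-- KM8a: posterior means -/
def S_PST : Prop := ∀ (k : ℕ) (ν : Measure (E k)) (h a C0 : ℝ) (f : E k → ℝ), LCI ν → 0 < h →
  0 < a → BL C0 f → (∀ y, |f y| ≤ a) →
  ContDiff ℝ 1 (po h ν f) ∧ (∀ y, |po h ν f y| ≤ a) ∧
  (∀ y, h * ‖fderiv ℝ (po h ν f) y‖ ^ 2 ≤ po h ν (fun x => f x ^ 2) y - po h ν f y ^ 2) ∧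
  (∀ y, po h ν (fun x => f x ^ 2) y - po h ν f y ^ 2 ≤
    h * po h ν (fun x => ‖fderiv ℝ f x‖ ^ 2) y) ∧
  ∀ u : E k → ℝ, Continuous u → (∃ C, ∀ x, |u x| ≤ C) →
    Continuous (po h ν u) ∧ ey h ν (po h ν u) = ∫ x, u x ∂ν

/-- KM16a: expectations and the affinity -/
def S_AFB : Prop := ∀ (k : ℕ) (h Ba Bb : ℝ) (νa νb : Measure (E k)) (φ : E k → ℝ), 0 < h →
  PB Ba νa → PB Bb νb → Continuous φ → (∀ y, |φ y| ≤ 1) →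
  0 ≤ 1 - aff h νa νb ∧ |ey h νa φ - ey h νb φ| ≤ 3 * Real.sqrt (1 - aff h νa νb)

/-- the Laplacian of `zn h ν` -/
noncomputable def lz {k : ℕ} (h : ℝ) (ν : Measure (E k)) (y : E k) : ℝ :=
  ∫ x, (‖x - y‖ ^ 2 / h ^ 2 - k / h) * Real.exp (-(‖x - y‖ ^ 2 / (2 * h))) ∂ν

/-- KM13a: the derivative of the affinity, with Laplacians -/
def S_DA1 : Prop := ∀ (k : ℕ) (B h : ℝ) (νa νb : Measure (E k)), 0 < h → 0 ≤ B → PB B νa →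
  PB B νb → HasDerivAt (fun h => aff h νa νb)
    (1 / 4 * ((gc (Fin k) h)⁻¹ * ∫ y, Real.sqrt (zn h νa y * zn h νb y) *
      (lz h νa y / zn h νa y + lz h νb y / zn h νb y))) h

/-- KM13b: integration by parts -/
def S_DA2 : Prop := ∀ (k : ℕ) (B h : ℝ) (νa νb : Measure (E k)), 0 < h → 0 ≤ B → PB B νa →
  PB B νb → Integrable (fun y => Real.sqrt (zn h νa y * zn h νb y) * ‖sd h νa νb y‖ ^ 2) ∧
  ∫ y, Real.sqrt (zn h νa y * zn h νb y) * (lz h νa y / zn h νa y + lz h νb y / zn h νb y) =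
    2 * ∫ y, Real.sqrt (zn h νa y * zn h νb y) * ‖sd h νa νb y‖ ^ 2

/-! ### geometry: more general fibres -/

/-- the volume of the fibres grows at most exponentially, with rate `c`, from `ts` towards the
points with a large fibre; for fibres of maximal volume this is true with `c = 0` -/
def Cen {N d : ℕ} (c : ℝ) (K : Set (E N × E d)) (ts : E d) : Prop :=
  ∀ t : E d, Rv K ts ≤ Real.exp 1 * Rv K t → ∀ x : ℝ, 0 ≤ x → x ≤ 1 →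
    Rv K (ts + x • (t - ts)) ≤ Real.exp (c * x) * Rv K ts

/-- KM17: the window -/
def S_WINC : Prop := ∀ (d : ℕ) (c : ℝ), 0 ≤ c → ∃ c1 : ℝ, 0 < c1 ∧ ∀ δ : ℝ, 0 < δ → δ ≤ 1 →
  ∀ (N : ℕ) (K : Set (E N × E d)) (ts : E d), CB K → 0 < Rv K ts → Cen c K ts →
  ∃ J : Set (E d), MeasurableSet J ∧ Convex ℝ J ∧ ts ∈ J ∧
  (∀ t ∈ J, Real.exp (-δ) * Rv K ts ≤ Rv K t ∧ Rv K t ≤ Real.exp (c * δ) * Rv K ts) ∧
  ENNReal.ofReal (c1 * δ ^ d) * volume K ≤ ∫⁻ t in J, volume (sl K t)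

/-- KM19: comparison of a variance in one fibre with the residual variance -/
def S_RESC : Prop := ∀ (d : ℕ) (Cu : ℝ), 1 ≤ Cu → ∃ C : ℝ, 0 < C ∧
  ∀ (g : E d → ℝ → ℝ≥0∞) (ts : E d),
  Measurable (fun z : E d × ℝ => g z.1 z.2) →
  (∀ t t' v v' s, 0 < s → s < 1 → g t v ^ (1 - s) * g t' v' ^ s ≤
    g ((1 - s) • t + s • t') ((1 - s) * v + s * v')) →
  (∃ B : ℝ, ∀ t v, B < ‖t‖ ∨ B < |v| → g t v = 0) →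
  ∫⁻ t, ∫⁻ v, g t v ≠ 0 → ∫⁻ t, ∫⁻ v, g t v ≠ ⊤ → ∫⁻ v, g ts v ≠ ⊤ →
  (∀ t, ∫⁻ v, g t v ≤ ENNReal.ofReal Cu * ∫⁻ v, g ts v) →
  ∀ a : ℝ, ∃ (b : E d) (c : ℝ),
  (∫⁻ t, ∫⁻ v, ENNReal.ofReal ((v - ⟪b, t⟫_ℝ - c) ^ 2) * g t v) * ∫⁻ v, g ts v ≤
    ENNReal.ofReal C * (∫⁻ v, ENNReal.ofReal ((v - a) ^ 2) * g ts v) * ∫⁻ t, ∫⁻ v, g t v

/-- KM20: the regression -/
def S_REGC : Prop := ∀ (d : ℕ) (Cu : ℝ), 1 ≤ Cu → ∃ C : ℝ, 0 < C ∧ ∀ (N k : ℕ)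
  (K : Set (E N × E d)) (ts : E d), CB K → 0 < Rv K ts → (∀ t, Rv K t ≤ Cu * Rv K ts) →
  ∀ (P : E N →ₗ[ℝ] E k) (s : ℝ), 0 ≤ s → (∀ θ : E k, ‖θ‖ = 1 →
    (∫ x, ⟪P x, θ⟫_ℝ ^ 2 ∂(un (sl K ts))) - (∫ x, ⟪P x, θ⟫_ℝ ∂(un (sl K ts))) ^ 2 ≤ s) →
  ∃ B : E d →ₗ[ℝ] E k, ∀ θ : E k, ‖θ‖ = 1 →
    (∫ z, ⟪P z.1 - B z.2, θ⟫_ℝ ^ 2 ∂(un K)) - (∫ z, ⟪P z.1 - B z.2, θ⟫_ℝ ∂(un K)) ^ 2 ≤ C * s

/-- KM21: fibres over the barycentre -/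
def S_BAR : Prop := ∀ d : ℕ, ∃ c : ℝ, 0 ≤ c ∧ ∀ (N : ℕ) (K : Set (E N × E d)) (ts : E d), CB K →
  (∀ θ : E d, ∫ z, ⟪z.2, θ⟫_ℝ ∂(un K) = ⟪ts, θ⟫_ℝ) → 0 < Rv K ts ∧ Cen c K ts

end Pool.Agent.N483.KM
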