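import Pool.Agent.N483.KM.Stm2
import Pool.Agent.N483.KM.SecA
import Pool.Agent.R755.KF.All

/-!
# Sections: concentration of the fibre
-/

set_option autoImplicit false

namespace Pool.Agent.N483.KM

open MeasureTheory Set Filter Topology
open scoped ENNReal InnerProductSpace
open Pool.Agent.H888R2.KT (gs gc)
open Pool.Agent.R754.KG (E un sl Rv un_prob un_lint un_int)
open Pool.Agent.R755.KF (BL PB PW zn ey e2 om sd aff PLH PL3 CB lw)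
open Pool.Agent.R755.KF.Maux
open Pool.Agent.Y506.PV (CcW ind)
open Pool.Agent.Y506.RG (EW VW)

variable {N d k : ℕ} {K : Set (E N × E d)}

/-! ### the concentration radius -/

theorem cr_mono {ν : Measure (E k)} [IsProbabilityMeasure ν] {p p' r r' : ℝ} (hp : p ≤ p')
    (hr : r ≤ r') (h : CR ν p r) : CR ν p' r' := fun B hB hpB =>
  (h B hB (hp.trans hpB)).trans_le
    (measureReal_mono (Metric.thickening_mono hr B) (measure_ne_top _ _))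

theorem cr_big {ν : Measure (E k)} {B0 p : ℝ} (h : PB B0 ν) (hp : 0 < p) :
    CR ν p (2 * B0 + 1) := by
  intro B hB hpB
  have hpr := h.prob
  have hB1 : 0 < ν B := by
    rw [pos_iff_ne_zero]
    intro h0
    rw [measureReal_def, h0] at hpB
    simp only [ENNReal.toReal_zero] at hpB
    linarith
  have h1 : ∃ x ∈ B, ‖x‖ ≤ B0 := by
    by_contra hne
    push Not at hne
    have : ν B = 0 := by
      refine measure_mono_null (t := {x | ¬ ‖x‖ ≤ B0}) (fun x hx => ?_) h.bdd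
      simpa using hne x hx
    exact hB1.ne' this
  obtain ⟨x0, hx0, hn0⟩ := h1
  have h2 : ν (Metric.thickening (2 * B0 + 1) B) = 1 := by
    refine (mem_ae_iff_prob_eq_one Metric.isOpen_thickening.measurableSet).1 ?_
    filter_upwards [h.bdd] with x hx
    refine Metric.mem_thickening_iff.2 ⟨x0, hx0, ?_⟩
    rw [dist_eq_norm]
    calc ‖x - x0‖ ≤ ‖x‖ + ‖x0‖ := norm_sub_le _ _
      _ ≤ B0 + B0 := add_le_add hx hn0
      _ < 2 * B0 + 1 := by linarith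
  rw [measureReal_def, h2]
  norm_num

theorem cen_up {c : ℝ} {ts : E d} (hc : 0 ≤ c) (hpos : 0 < Rv K ts) (h : Cen c K ts) (t : E d) :
    Rv K t ≤ Real.exp c * Rv K ts := by
  by_cases h1 : Rv K ts ≤ Real.exp 1 * Rv K t
  · have h2 := h t h1 1 zero_le_one le_rfl
    simpa using h2
  · push Not at h1
    have h0 : 0 ≤ Rv K t := ENNReal.toReal_nonneg
    have h2 : Rv K t ≤ Real.exp 1 * Rv K t := le_mul_of_one_le_left h0 (Real.one_le_exp zero_le_one)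
    have h3 : Rv K ts ≤ Real.exp c * Rv K ts := le_mul_of_one_le_left hpos.le (Real.one_le_exp hc)
    linarith

/-! ### from the concentration radius to variances -/

theorem var_of_m4 {ν : Measure (E k)} {B0 ρ C4 L : ℝ} (hν : PB B0 ν) (hL : 0 < L) (hC4 : 0 < C4)
    (hρ : 0 < ρ)
    (h : ∀ f : E k → ℝ, ContDiff ℝ 1 f → (∀ y, ‖fderiv ℝ f y‖ ≤ 1) →
      ∃ m : ℝ, ∫ x, (f x - m) ^ 4 ∂ν ≤ C4 * ρ ^ 4)
    {v : E k → ℝ} (hv : ContDiff ℝ 1 v) (hv1 : ∀ y, |v y| ≤ 1) (hvL : ∀ y, ‖fderiv ℝ v y‖ ≤ L) :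
    (∫ x, v x ^ 2 ∂ν) - (∫ x, v x ∂ν) ^ 2 ≤ Real.sqrt C4 * (L ^ 2 * ρ ^ 2) := by
  have hpr := hν.prob
  have hvc : Continuous v := hv.continuous
  have bint : ∀ {f : E k → ℝ} (_ : Continuous f) (C : ℝ) (_ : ∀ x, |f x| ≤ C), Integrable f ν := by
    intro f hf C hC
    exact Integrable.of_bound hf.aestronglyMeasurable C (Eventually.of_forall hC)
  have hf : ContDiff ℝ 1 fun y => L⁻¹ * v y := contDiff_const.mul hv
  obtain ⟨m, hm⟩ := h (fun y => L⁻¹ * v y) hf fun y => by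
    have e1 : fderiv ℝ (fun y => L⁻¹ * v y) y = L⁻¹ • fderiv ℝ v y :=
      fderiv_const_mul (hv.differentiable one_ne_zero y) _
    rw [e1, norm_smul, norm_inv, Real.norm_of_nonneg hL.le, inv_mul_le_iff₀ hL, mul_one]
    exact hvL y
  obtain ⟨a, ha⟩ : ∃ a, a = L * m := ⟨_, rfl⟩
  have e2 : ∀ x, (v x - a) ^ 4 = L ^ 4 * (L⁻¹ * v x - m) ^ 4 := fun x => by
    rw [ha]
    field_simp
  have h4 : ∫ x, (v x - a) ^ 4 ∂ν ≤ C4 * (L ^ 2 * ρ ^ 2) ^ 2 := by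
    simp only [e2, integral_const_mul]
    calc L ^ 4 * ∫ x, (L⁻¹ * v x - m) ^ 4 ∂ν ≤ L ^ 4 * (C4 * ρ ^ 4) :=
          mul_le_mul_of_nonneg_left hm (by positivity)
      _ = C4 * (L ^ 2 * ρ ^ 2) ^ 2 := by ring
  have hb : ∀ x, |v x - a| ≤ 1 + |a| := fun x => (abs_sub _ _).trans (by linarith [hv1 x])
  have i1 : Integrable v ν := bint hvc 1 hv1
  have i2 : Integrable (fun x => v x ^ 2) ν := bint (hvc.pow 2) 1 fun x => by
    rw [abs_pow]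
    exact pow_le_one₀ (abs_nonneg _) (hv1 x)
  have i3 : Integrable (fun x => (v x - a) ^ 2) ν :=
    bint ((hvc.sub continuous_const).pow 2) ((1 + |a|) ^ 2) fun x => by
      rw [abs_pow]
      exact pow_le_pow_left₀ (abs_nonneg _) (hb x) 2
  have i4 : Integrable (fun x => ((v x - a) ^ 2) ^ 2) ν :=
    bint (((hvc.sub continuous_const).pow 2).pow 2) (((1 + |a|) ^ 2) ^ 2) fun x => by
      rw [abs_pow, abs_pow]
      exact pow_le_pow_left₀ (by positivity) (pow_le_pow_left₀ (abs_nonneg _) (hb x) 2) 2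
  have e3 := var_le_mom i1 i2 a
  have e4 := var_le_mom i3 i4 (∫ x, (v x - a) ^ 2 ∂ν)
  have h5 : 0 ≤ ∫ x, ((v x - a) ^ 2 - ∫ x, (v x - a) ^ 2 ∂ν) ^ 2 ∂ν :=
    integral_nonneg fun x => sq_nonneg _
  have h6 : (∫ x, (v x - a) ^ 2 ∂ν) ^ 2 ≤ C4 * (L ^ 2 * ρ ^ 2) ^ 2 := by
    have e5 : ∫ x, ((v x - a) ^ 2) ^ 2 ∂ν = ∫ x, (v x - a) ^ 4 ∂ν := by
      congr 1
      funext x
      ring
    rw [e5] at e4
    simp only [sub_self] at e4
    linarith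
  have h7 : ∫ x, (v x - a) ^ 2 ∂ν ≤ Real.sqrt C4 * (L ^ 2 * ρ ^ 2) := by
    have h8 : 0 ≤ Real.sqrt C4 * (L ^ 2 * ρ ^ 2) := by positivity
    refine abs_le_of_sq_le_sq' ?_ h8 |>.2
    rw [mul_pow, Real.sq_sqrt hC4.le]
    exact h6
  have h9 := sq_nonneg ((∫ x, v x ∂ν) - a)
  linarith

/-! ### the concentration property of the body, on the body -/

theorem cc_body {n : ℕ} (e : (E N × E d) ≃ₗ[ℝ] E n) (h : CB K) {κ δ : ℝ}
    (hcc : CcW κ δ (ind (e '' K))) (hk : k ≤ N) (T : E N × E d →ₗ[ℝ] E k) {s : ℝ} (hs : 0 < s)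
    (hvar : ∀ θ : E k, ‖θ‖ = 1 →
      (∫ z, ⟪T z, θ⟫_ℝ ^ 2 ∂(un K)) - (∫ z, ⟪T z, θ⟫_ℝ ∂(un K)) ^ 2 ≤ s)
    {v : E k → ℝ} (hv : ContDiff ℝ 1 v) (hv1 : ∀ y, |v y| ≤ 1)
    (hvL : ∀ y, ‖fderiv ℝ v y‖ ≤ κ / Real.sqrt s) :
    (∫ z, v (T z) ^ 2 ∂(un K)) - (∫ z, v (T z) ∂(un K)) ^ 2 ≤ δ := by
  have hn : k ≤ n := by
    have h1 := e.finrank_eq
    rw [Module.finrank_prod, finrank_euclideanSpace_fin, finrank_euclideanSpace_fin,
      finrank_euclideanSpace_fin] at h1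
    omega
  have hec : Continuous e := e.toLinearMap.continuous_of_finiteDimensional
  have hme : MeasurableSet (e '' K) := (h.comp.image hec).measurableSet
  have h1 := hcc k hn (T ∘ₗ e.symm.toLinearMap) s hs (fun θ hθ => by
    rw [Pool.Agent.R754.KG.VW_ind hme,
      Pool.Agent.R754.KG.un_img e h.pos.ne' (kfin h) fun x =>
        ⟪(T ∘ₗ e.symm.toLinearMap) x, θ⟫_ℝ ^ 2,
      Pool.Agent.R754.KG.un_img e h.pos.ne' (kfin h) fun x =>
        ⟪(T ∘ₗ e.symm.toLinearMap) x, θ⟫_ℝ]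
    simpa using hvar θ hθ) v hv hv1 hvL
  rw [Pool.Agent.R754.KG.VW_ind hme,
    Pool.Agent.R754.KG.un_img e h.pos.ne' (kfin h) fun x => v ((T ∘ₗ e.symm.toLinearMap) x) ^ 2,
    Pool.Agent.R754.KG.un_img e h.pos.ne' (kfin h) fun x =>
      v ((T ∘ₗ e.symm.toLinearMap) x)] at h1
  simpa using h1

/-! ### the concentration radius of the fibre -/

theorem core (hW : S_WINC) (hR : S_REGC) (hN : S_NEAR) (hT : S_TRF) {pM : ℝ} (hpM : 0 < pM)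
    (d : ℕ) {c : ℝ} (hc : 0 ≤ c) : ∃ δ' : ℝ, 0 < δ' ∧ ∀ κ' : ℝ, 0 < κ' → ∃ Cb : ℝ, 0 < Cb ∧
    ∀ (N n : ℕ) (e : (E N × E d) ≃ₗ[ℝ] E n) (K : Set (E N × E d)) (ts : E d), CB K →
    0 < Rv K ts → Cen c K ts → CcW κ' δ' (ind (e '' K)) →
    ∀ (k : ℕ), k ≤ N → ∀ (P : E N →ₗ[ℝ] E k) (s : ℝ), 0 < s → (∀ θ : E k, ‖θ‖ = 1 →
      (∫ x, ⟪P x, θ⟫_ℝ ^ 2 ∂(un (sl K ts))) - (∫ x, ⟪P x, θ⟫_ℝ ∂(un (sl K ts))) ^ 2 ≤ s) →
    ∃ B : E d →ₗ[ℝ] E k, CR (lw K (P ∘ₗ LinearMap.fst ℝ (E N) (E d) -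
      B ∘ₗ LinearMap.snd ℝ (E N) (E d)) ts) pM (2 * Real.sqrt (Cb * s)) := by
  obtain ⟨pN, hpN, -, HN⟩ := hN
  obtain ⟨p, hp⟩ : ∃ p : ℝ, p = min pN pM := ⟨_, rfl⟩
  have hp0 : 0 < p := by rw [hp]; exact lt_min hpN hpM
  have hpN' : p ≤ pN := by rw [hp]; exact min_le_left _ _
  have hpM' : p ≤ pM := by rw [hp]; exact min_le_right _ _
  obtain ⟨ε, θ0, cT, hε, hθ0, hcT, HT⟩ := hT p hp0
  obtain ⟨η, ε1, hη, hε1, HN1⟩ := HN θ0 (9 / 25 * ε) hθ0 (by positivity)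
  obtain ⟨c1, hc1, HW⟩ := hW d c hc
  -- the window
  obtain ⟨δw, hδw⟩ : ∃ δw : ℝ, δw = min 1 (Real.log (1 + η) / (c + 1)) := ⟨_, rfl⟩
  have hlog : 0 < Real.log (1 + η) := Real.log_pos (by linarith)
  have hδw0 : 0 < δw := by rw [hδw]; exact lt_min one_pos (by positivity)
  have hδw1 : δw ≤ 1 := by rw [hδw]; exact min_le_left _ _
  have hδw2 : (c + 1) * δw ≤ Real.log (1 + η) := by
    have : δw ≤ Real.log (1 + η) / (c + 1) := by rw [hδw]; exact min_le_right _ _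
    rw [le_div_iff₀ (by linarith)] at this
    linarith
  obtain ⟨m, hm⟩ : ∃ m : ℝ, m = c1 * δw ^ d := ⟨_, rfl⟩
  have hm0 : 0 < m := by rw [hm]; positivity
  obtain ⟨Creg, hCreg, HR⟩ := hR d (Real.exp c) (Real.one_le_exp hc)
  obtain ⟨M, hM⟩ : ∃ M : ℝ, M = 36 * 4 ^ d / Real.exp (-1 - c) := ⟨_, rfl⟩
  have hM0 : 0 < M := by rw [hM]; positivity
  refine ⟨m * cT / 2, by positivity, fun κ' hκ' => ?_⟩
  obtain ⟨Cb, hCb⟩ : ∃ Cb : ℝ, Cb = M * Creg / ε1 + 4 * M * Creg / ε1 ^ 2 +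
    29 * Creg / κ' ^ 2 := ⟨_, rfl⟩
  have q1 : 0 < M * Creg / ε1 := by positivity
  have q2 : 0 < 4 * M * Creg / ε1 ^ 2 := by positivity
  have q3 : 0 < 29 * Creg / κ' ^ 2 := by positivity
  have hCb0 : 0 < Cb := by rw [hCb]; positivity
  have hCb1 : M * Creg / ε1 ≤ Cb := by rw [hCb]; linarith
  have hCb2 : 4 * M * Creg / ε1 ^ 2 ≤ Cb := by rw [hCb]; linarith
  have hCb3 : 29 * Creg / κ' ^ 2 ≤ Cb := by rw [hCb]; linarith
  refine ⟨Cb, hCb0, fun N n e K ts hK hpos hcen hcc k hk P s hs hvar => ?_⟩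
  obtain ⟨J, hJm, hJc, htsJ, hJr, hJv⟩ := HW δw hδw0 hδw1 N K ts hK hpos hcen
  have hup := cen_up hc hpos hcen
  obtain ⟨B, hB⟩ := HR N k K ts hK hpos hup P s hs.le hvar
  refine ⟨B, ?_⟩
  obtain ⟨T, hTd⟩ : ∃ T : E N × E d →ₗ[ℝ] E k, T = P ∘ₗ LinearMap.fst ℝ (E N) (E d) -
      B ∘ₗ LinearMap.snd ℝ (E N) (E d) := ⟨_, rfl⟩
  rw [← hTd]
  have hTz : ∀ z, T z = P z.1 - B z.2 := fun z => by rw [hTd]; simp
  obtain ⟨s1, hs1⟩ : ∃ s1 : ℝ, s1 = Creg * s := ⟨_, rfl⟩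
  have hs10 : 0 < s1 := by rw [hs1]; positivity
  have hTvar : ∀ θ : E k, ‖θ‖ = 1 →
      (∫ z, ⟪T z, θ⟫_ℝ ^ 2 ∂(un K)) - (∫ z, ⟪T z, θ⟫_ℝ ∂(un K)) ^ 2 ≤ s1 := by
    intro θ hθ
    simp only [hTz]
    rw [hs1]
    exact hB θ hθ
  -- positivity of the fibres in the window
  have hJp : ∀ t ∈ J, 0 < Rv K t := fun t ht =>
    lt_of_lt_of_le (mul_pos (Real.exp_pos _) hpos) (hJr t ht).1
  have hS : 0 < Real.exp c * Rv K ts := mul_pos (Real.exp_pos _) hpos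
  have hfib : ∀ t ∈ J, ∀ v : E k,
      (∫ y, ⟪y, v⟫_ℝ ^ 2 ∂(lw K T t)) - (∫ y, ⟪y, v⟫_ℝ ∂(lw K T t)) ^ 2 ≤ M * s1 * ‖v‖ ^ 2 ∧
      ((∫ y, ⟪y, v⟫_ℝ ∂(lw K T t)) - ∫ z, ⟪T z, v⟫_ℝ ∂(un K)) ^ 2 ≤ M * s1 * ‖v‖ ^ 2 := by
    intro t ht v
    rw [hM]
    refine fib_mom Pool.Agent.R755.KF.mom hK T hs10.le hS (Real.exp_pos _) hup hTvar ?_ v
    refine le_trans ?_ (hJr t ht).1
    rw [← mul_assoc, ← Real.exp_add]
    refine mul_le_mul_of_nonneg_right (Real.exp_le_exp.2 ?_) hpos.le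
    linarith
  obtain ⟨B0, hB00, hB0⟩ := pb_lw hK T
  have hPLH : ∀ a ∈ J, ∀ b ∈ J, ∀ h : ℝ, 0 < h → PLH h η (lw K T a) (lw K T b) := by
    intro a ha b hb h hh
    refine plh_lw Pool.Agent.R755.KF.fib
      (Pool.Agent.R755.KF.plh Pool.Agent.R755.KF.zn_ok) hK T hpos (Real.exp_pos (-δw))
      (w := Real.exp (c * δw)) hη.le ?_ hJc hJr ha hb hh
    have e1 : Real.exp (c * δw) = Real.exp ((c + 1) * δw) * Real.exp (-δw) := by
      rw [← Real.exp_add]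
      congr 1
      ring
    rw [e1]
    refine mul_le_mul_of_nonneg_right ?_ (Real.exp_pos _).le
    calc Real.exp ((c + 1) * δw) ≤ Real.exp (Real.log (1 + η)) := Real.exp_le_exp.2 hδw2
      _ = 1 + η := Real.exp_log (by linarith)
  have hJprob : ∀ t ∈ J, IsProbabilityMeasure (lw K T t) := fun t ht => lw_prob hK T (hJp t ht)
  -- the concentration radius of the window
  obtain ⟨Q, hQ⟩ : ∃ Q : Set ℝ, Q = {ρ : ℝ | 0 < ρ ∧ ∀ t ∈ J, CR (lw K T t) p ρ} := ⟨_, rfl⟩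
  have hQne : Q.Nonempty := by
    refine ⟨2 * B0 + 1, ?_⟩
    rw [hQ]
    exact ⟨by linarith, fun t ht => cr_big (hB0 t (hJp t ht)) hp0⟩
  have hQb : BddBelow Q := ⟨0, fun ρ hρ => by rw [hQ] at hρ; exact hρ.1.le⟩
  obtain ⟨R, hRd⟩ : ∃ R : ℝ, R = sInf Q := ⟨_, rfl⟩
  have hR0 : 0 ≤ R := by
    rw [hRd]
    exact le_csInf hQne fun ρ hρ => by rw [hQ] at hρ; exact hρ.1.le
  have hgood : ∀ ρ, R < ρ → ∀ t ∈ J, CR (lw K T t) p ρ := by
    intro ρ hρ t ht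
    rw [hRd] at hρ
    obtain ⟨ρ', hρ', hlt⟩ := exists_lt_of_csInf_lt hQne hρ
    rw [hQ] at hρ'
    have := hJprob t ht
    exact cr_mono le_rfl hlt.le (hρ'.2 t ht)
  have hbad : ∀ ρ, 0 < ρ → ρ < R → ∃ t ∈ J, ¬ CR (lw K T t) p ρ := by
    intro ρ hρ hρR
    by_contra hne
    push Not at hne
    have : ρ ∈ Q := by rw [hQ]; exact ⟨hρ, hne⟩
    have h2 := csInf_le hQb this
    rw [← hRd] at h2
    linarith
  have hmain : R ^ 2 ≤ Cb * s := by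
    by_contra hlt
    push Not at hlt
    have hRp : 0 < R := by
      rcases hR0.lt_or_eq with h | h
      · exact h
      · rw [← h] at hlt
        have : 0 < Cb * s := by positivity
        simp at hlt
        linarith
    obtain ⟨r, hr⟩ : ∃ r : ℝ, r = 5 / 4 * R := ⟨_, rfl⟩
    obtain ⟨r1, hr1⟩ : ∃ r1 : ℝ, r1 = 3 / 4 * R := ⟨_, rfl⟩
    have hr0 : 0 < r := by rw [hr]; positivity
    have hr10 : 0 < r1 := by rw [hr1]; positivity
    have hrg := hgood r (by rw [hr]; linarith)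
    obtain ⟨t1, ht1, hb1⟩ := hbad r1 hr10 (by rw [hr1]; linarith)
    unfold CR at hb1
    push Not at hb1
    obtain ⟨Bd, hBdm, hBdp, hBd2⟩ := hb1
    obtain ⟨F, hF, hF1, hFL, hF2⟩ := HT k r1 (lw K T t1) Bd (lci_lw hK T (hJp t1 ht1)) hr10 hBdm
      hBdp hBd2
    have hr2 : Cb * s < r ^ 2 := by
      rw [hr]
      nlinarith
    have hsA : M * s1 ≤ ε1 * r ^ 2 := by
      have h1 : M * Creg ≤ Cb * ε1 := by rwa [div_le_iff₀ hε1] at hCb1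
      calc M * s1 = M * Creg * s := by rw [hs1]; ring
        _ ≤ Cb * ε1 * s := mul_le_mul_of_nonneg_right h1 hs.le
        _ = ε1 * (Cb * s) := by ring
        _ ≤ ε1 * r ^ 2 := mul_le_mul_of_nonneg_left hr2.le hε1.le
    have hsB : 4 * (M * s1) ≤ (ε1 * r) ^ 2 := by
      have h1 : 4 * M * Creg ≤ Cb * ε1 ^ 2 := by rwa [div_le_iff₀ (by positivity)] at hCb2
      calc 4 * (M * s1) = 4 * M * Creg * s := by rw [hs1]; ring
        _ ≤ Cb * ε1 ^ 2 * s := mul_le_mul_of_nonneg_right h1 hs.le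
        _ = ε1 ^ 2 * (Cb * s) := by ring
        _ ≤ ε1 ^ 2 * r ^ 2 := mul_le_mul_of_nonneg_left hr2.le (by positivity)
        _ = (ε1 * r) ^ 2 := by ring
    have haff : ∀ t ∈ J, 1 - aff (ε * r1 ^ 2) (lw K T t1) (lw K T t) ≤ θ0 := by
      intro t ht
      have h1 := HN1 k r (lw K T t1) (lw K T t) (lci_lw hK T (hJp t1 ht1)) (lci_lw hK T (hJp t ht))
        hr0 (by
          have := hJprob t1 ht1
          exact cr_mono hpN' le_rfl (hrg t1 ht1)) (by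
          have := hJprob t ht
          exact cr_mono hpN' le_rfl (hrg t ht))
        (fun v => (hfib t1 ht1 v).1.trans (mul_le_mul_of_nonneg_right hsA (sq_nonneg _)))
        (fun v => (hfib t ht v).1.trans (mul_le_mul_of_nonneg_right hsA (sq_nonneg _)))
        (fun v => by
          have h1 := (hfib t1 ht1 v).2
          have h2 := (hfib t ht v).2
          obtain ⟨a, ha⟩ : ∃ a, a = ∫ y, ⟪y, v⟫_ℝ ∂(lw K T t1) := ⟨_, rfl⟩
          obtain ⟨b, hb⟩ : ∃ b, b = ∫ y, ⟪y, v⟫_ℝ ∂(lw K T t) := ⟨_, rfl⟩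
          obtain ⟨x, hx⟩ : ∃ x, x = ∫ z, ⟪T z, v⟫_ℝ ∂(un K) := ⟨_, rfl⟩
          rw [← ha, ← hx] at h1
          rw [← hb, ← hx] at h2
          rw [← ha, ← hb]
          refine abs_le_of_sq_le_sq ?_ (by positivity)
          calc (b - a) ^ 2 ≤ 2 * (a - x) ^ 2 + 2 * (b - x) ^ 2 := by
                nlinarith [sq_nonneg ((a - x) + (b - x))]
            _ ≤ 4 * (M * s1) * ‖v‖ ^ 2 := by linarith
            _ ≤ (ε1 * r) ^ 2 * ‖v‖ ^ 2 := mul_le_mul_of_nonneg_right hsB (sq_nonneg _)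
            _ = (ε1 * r * ‖v‖) ^ 2 := by ring)
        (fun h hh => hPLH t1 ht1 t ht h hh)
      have e1 : ε * r1 ^ 2 = 9 / 25 * ε * r ^ 2 := by rw [hr1, hr]; ring
      rw [e1]
      exact h1
    have hlow := body_low hK T hF.continuous hJm hm0.le (c := cT) (by rw [hm]; exact hJv) hJp
      fun t ht => hF2 B0 (lw K T t) (hB0 t (hJp t ht)) (haff t ht)
    have hup2 := cc_body e hK hcc hk T hs10 hTvar hF hF1 fun y => (hFL y).trans (by
      rw [div_le_div_iff₀ hr10 (Real.sqrt_pos.2 hs10)]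
      refine abs_le_of_sq_le_sq' ?_ (by positivity) |>.2
      rw [mul_pow, Real.sq_sqrt hs10.le, mul_pow]
      have h1 : 29 * Creg ≤ Cb * κ' ^ 2 := by rwa [div_le_iff₀ (by positivity)] at hCb3
      calc (4 : ℝ) ^ 2 * s1 ≤ 9 / 16 * (29 * Creg * s) := by
            rw [hs1]
            nlinarith [mul_pos hCreg hs]
        _ ≤ 9 / 16 * (Cb * κ' ^ 2 * s) :=
            mul_le_mul_of_nonneg_left (mul_le_mul_of_nonneg_right h1 hs.le) (by norm_num)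
        _ = κ' ^ 2 * (9 / 16 * (Cb * s)) := by ring
        _ ≤ κ' ^ 2 * (9 / 16 * R ^ 2) := by
            refine mul_le_mul_of_nonneg_left ?_ (by positivity)
            linarith
        _ = κ' ^ 2 * r1 ^ 2 := by rw [hr1]; ring)
    have : 0 < m * cT := by positivity
    linarith
  have hfin : R < 2 * Real.sqrt (Cb * s) := by
    have h1 : 0 < Cb * s := by positivity
    have h2 : R ≤ Real.sqrt (Cb * s) := Real.le_sqrt_of_sq_le hmain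
    have h3 : 0 < Real.sqrt (Cb * s) := Real.sqrt_pos.2 h1
    linarith
  have := hJprob ts htsJ
  exact cr_mono hpM' le_rfl (hgood _ hfin ts htsJ)

/-! ### the theorem -/

theorem secc (hW : S_WINC) (hR : S_REGC) (hN : S_NEAR) (hT : S_TRF) (hM4 : S_M4L) (hL : S_LCI) :
    S_SECC := by
  intro d c hc
  obtain ⟨pM, C4, hpM, -, hC4, HM⟩ := hM4
  obtain ⟨δ', hδ', H⟩ := core hW hR hN hT hpM d hc
  refine ⟨δ', hδ', fun κ' δ hκ' hδ => ?_⟩
  obtain ⟨Cb, hCb, H1⟩ := H κ' hκ'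
  obtain ⟨κ, hκ⟩ : ∃ κ : ℝ, κ = Real.sqrt (δ / (4 * Real.sqrt C4 * Cb)) := ⟨_, rfl⟩
  have hκ0 : 0 < κ := by rw [hκ]; exact Real.sqrt_pos.2 (by positivity)
  have hκ2 : κ ^ 2 = δ / (4 * Real.sqrt C4 * Cb) := by
    rw [hκ, Real.sq_sqrt (by positivity)]
  refine ⟨κ, hκ0, fun N n e K ts hK hpos hcen hcc => ?_⟩
  intro k hk P s hs hvar v hv hv1 hvL
  have hms := sl_meas hK ts
  have hvar' : ∀ θ : E k, ‖θ‖ = 1 →
      (∫ x, ⟪P x, θ⟫_ℝ ^ 2 ∂(un (sl K ts))) - (∫ x, ⟪P x, θ⟫_ℝ ∂(un (sl K ts))) ^ 2 ≤ s := by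
    intro θ hθ
    have h1 := hvar θ hθ
    rwa [Pool.Agent.R754.KG.VW_ind hms] at h1
  obtain ⟨B, hB⟩ := H1 N n e K ts hK hpos hcen hcc k hk P s hs hvar'
  obtain ⟨T, hTd⟩ : ∃ T : E N × E d →ₗ[ℝ] E k, T = P ∘ₗ LinearMap.fst ℝ (E N) (E d) -
      B ∘ₗ LinearMap.snd ℝ (E N) (E d) := ⟨_, rfl⟩
  rw [← hTd] at hB
  have hTz : ∀ z, T z = P z.1 - B z.2 := fun z => by rw [hTd]; simp
  have hlci := lci_lw hK T hpos
  obtain ⟨hpls, -, B1, -, hpb⟩ := hL k _ hlci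
  have hρ : 0 < 2 * Real.sqrt (Cb * s) := by
    have : 0 < Real.sqrt (Cb * s) := Real.sqrt_pos.2 (by positivity)
    linarith
  have hss : 0 < Real.sqrt s := Real.sqrt_pos.2 hs
  obtain ⟨v', hv'⟩ : ∃ v' : E k → ℝ, v' = fun y => v (y + B ts) := ⟨_, rfl⟩
  have hv'c : ContDiff ℝ 1 v' := by
    rw [hv']
    exact hv.comp (contDiff_id.add contDiff_const)
  have hv'L : ∀ y, ‖fderiv ℝ v' y‖ ≤ κ / Real.sqrt s := by
    intro y
    rw [hv', fderiv_comp_add_right]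
    exact hvL _
  have key := var_of_m4 hpb (L := κ / Real.sqrt s) (by positivity) hC4 hρ
    (fun f hf hf1 => HM k (lw K T ts) B1 (2 * Real.sqrt (Cb * s)) hpb hpls hρ hB f hf hf1)
    hv'c (fun y => by rw [hv']; exact hv1 _) hv'L
  have hv'2 : Continuous fun y => v' y ^ 2 := hv'c.continuous.pow 2
  rw [lw_int T ts hv'2, lw_int T ts hv'c.continuous] at key
  have e1 : ∀ x, v' (T (x, ts)) = v (P x) := fun x => by
    rw [hv', hTz]
    simp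
  simp only [e1] at key
  rw [Pool.Agent.R754.KG.VW_ind hms]
  refine key.trans ?_
  rw [div_pow, mul_pow, Real.sq_sqrt hs.le, Real.sq_sqrt (by positivity), hκ2]
  have h4 : 0 < Real.sqrt C4 := Real.sqrt_pos.2 hC4
  have e2 : Real.sqrt C4 * (δ / (4 * Real.sqrt C4 * Cb) / s * (2 ^ 2 * (Cb * s))) = δ := by
    field_simp
    ring
  rw [e2]

end Pool.Agent.N483.KM
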