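import Pool.Agent.N483.KM.Stm3
import Pool.Agent.N483.KM.Sec

/-!
# Sections of large volume
-/

set_option autoImplicit false

namespace Pool.Agent.N483.KM

open MeasureTheory Set Filter Topology
open scoped ENNReal InnerProductSpace
open Pool.Agent.H888R2.KT (gs gc)
open Pool.Agent.R754.KG (E un sl Rv un_prob un_lint un_int)
open Pool.Agent.R755.KF (BL PB PW zn ey e2 om sd aff PLH PL3 CB lw)
open Pool.Agent.R755.KF.Maux
open Pool.Agent.Y506.PV (CcW ind)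
open Pool.Agent.Y506.RG (EW VW)

variable {N d k : ℕ} {K : Set (E N × E d)}

/-! ### one step -/

/-- the concentration radii of two measures which are near to each other -/
theorem pair (hN : S_NEAR) (hT : S_TRF) (hM4 : S_M4L) (hL : S_LCI) : ∃ p0 : ℝ, 0 < p0 ∧
    ∀ p : ℝ, 0 < p → p ≤ p0 → ∃ η : ℝ, 0 < η ∧ ∀ M ρ : ℝ, 0 < M → 0 < ρ → ∃ ρ' : ℝ, 0 < ρ' ∧
    ∀ (k : ℕ) (νa νb : Measure (E k)) (s : ℝ), LCI νa → LCI νb → 0 < s →
    (∀ v : E k, (∫ x, ⟪x, v⟫_ℝ ^ 2 ∂νa) - (∫ x, ⟪x, v⟫_ℝ ∂νa) ^ 2 ≤ M * s * ‖v‖ ^ 2) →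
    (∀ v : E k, (∫ x, ⟪x, v⟫_ℝ ^ 2 ∂νb) - (∫ x, ⟪x, v⟫_ℝ ∂νb) ^ 2 ≤ M * s * ‖v‖ ^ 2) →
    (∀ v : E k, ((∫ x, ⟪x, v⟫_ℝ ∂νb) - ∫ x, ⟪x, v⟫_ℝ ∂νa) ^ 2 ≤ M * s * ‖v‖ ^ 2) →
    (∀ h, 0 < h → PLH h η νa νb) → CR νb p (ρ * Real.sqrt s) → CR νa p (ρ' * Real.sqrt s) := by
  obtain ⟨pN, hpN, -, HN⟩ := hN
  obtain ⟨pM, C4, hpM, -, hC4, HM⟩ := hM4
  refine ⟨min pN pM, lt_min hpN hpM, fun p hp hp1 => ?_⟩
  have hpN' : p ≤ pN := hp1.trans (min_le_left _ _)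
  have hpM' : p ≤ pM := hp1.trans (min_le_right _ _)
  obtain ⟨ε, θ0, cT, hε, hθ0, hcT, HT⟩ := hT p hp
  obtain ⟨η, ε1, hη, hε1, HN1⟩ := HN θ0 (9 / 25 * ε) hθ0 (by positivity)
  refine ⟨η, hη, fun M ρ hM hρ => ?_⟩
  have hs4 : 0 < Real.sqrt C4 := Real.sqrt_pos.2 hC4
  obtain ⟨C, hC⟩ : ∃ C : ℝ, C = M / ε1 + M / ε1 ^ 2 + ρ ^ 2 + 30 * Real.sqrt C4 * ρ ^ 2 / cT :=
    ⟨_, rfl⟩
  have q1 : 0 < M / ε1 := by positivity
  have q2 : 0 < M / ε1 ^ 2 := by positivity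
  have q3 : 0 < ρ ^ 2 := by positivity
  have q4 : 0 < 30 * Real.sqrt C4 * ρ ^ 2 / cT := by positivity
  have hC0 : 0 < C := by rw [hC]; positivity
  have hC1 : M / ε1 ≤ C := by rw [hC]; linarith
  have hC2 : M / ε1 ^ 2 ≤ C := by rw [hC]; linarith
  have hC3 : ρ ^ 2 ≤ C := by rw [hC]; linarith
  have hC5 : 30 * Real.sqrt C4 * ρ ^ 2 / cT ≤ C := by rw [hC]; linarith
  refine ⟨2 * Real.sqrt C, by positivity, fun k νa νb s la lb hs va vb hm hpl hb => ?_⟩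
  obtain ⟨-, -, Ba, hBa, pba⟩ := hL k νa la
  obtain ⟨hplsb, -, Bb, hBb, pbb⟩ := hL k νb lb
  have pra := pba.prob
  have prb := pbb.prob
  have hss : 0 < Real.sqrt s := Real.sqrt_pos.2 hs
  obtain ⟨Q, hQ⟩ : ∃ Q : Set ℝ, Q = {ρ : ℝ | 0 < ρ ∧ CR νa p ρ} := ⟨_, rfl⟩
  have hQne : Q.Nonempty := by
    refine ⟨2 * Ba + 1, ?_⟩
    rw [hQ]
    exact ⟨by linarith, cr_big pba hp⟩
  have hQb : BddBelow Q := ⟨0, fun ρ hρ => by rw [hQ] at hρ; exact hρ.1.le⟩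
  obtain ⟨R, hRd⟩ : ∃ R : ℝ, R = sInf Q := ⟨_, rfl⟩
  have hR0 : 0 ≤ R := by
    rw [hRd]
    exact le_csInf hQne fun ρ hρ => by rw [hQ] at hρ; exact hρ.1.le
  have hgood : ∀ ρ, R < ρ → CR νa p ρ := by
    intro ρ hρ
    rw [hRd] at hρ
    obtain ⟨ρ', hρ', hlt⟩ := exists_lt_of_csInf_lt hQne hρ
    rw [hQ] at hρ'
    exact cr_mono le_rfl hlt.le hρ'.2
  have hbad : ∀ ρ, 0 < ρ → ρ < R → ¬ CR νa p ρ := by
    intro ρ hρ hρR hne
    have : ρ ∈ Q := by rw [hQ]; exact ⟨hρ, hne⟩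
    have h2 := csInf_le hQb this
    rw [← hRd] at h2
    linarith
  have hmain : R ^ 2 ≤ C * s := by
    by_contra hlt
    push Not at hlt
    have hCs : 0 < C * s := by positivity
    have hRp : 0 < R := by
      rcases hR0.lt_or_eq with h | h
      · exact h
      · rw [← h] at hlt
        simp at hlt
        linarith
    obtain ⟨r, hr⟩ : ∃ r : ℝ, r = 5 / 4 * R := ⟨_, rfl⟩
    obtain ⟨r1, hr1⟩ : ∃ r1 : ℝ, r1 = 3 / 4 * R := ⟨_, rfl⟩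
    have hr0 : 0 < r := by rw [hr]; positivity
    have hr10 : 0 < r1 := by rw [hr1]; positivity
    have hrg := hgood r (by rw [hr]; linarith)
    have hb1 := hbad r1 hr10 (by rw [hr1]; linarith)
    unfold CR at hb1
    push Not at hb1
    obtain ⟨Bd, hBdm, hBdp, hBd2⟩ := hb1
    obtain ⟨F, hF, hF1, hFL, hF2⟩ := HT k r1 νa Bd la hr10 hBdm hBdp hBd2
    have hr2 : C * s < r ^ 2 := by
      rw [hr]
      nlinarith
    have hsA : M * s ≤ ε1 * r ^ 2 := by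
      have h1 : M ≤ C * ε1 := by rwa [div_le_iff₀ hε1] at hC1
      calc M * s ≤ C * ε1 * s := mul_le_mul_of_nonneg_right h1 hs.le
        _ = ε1 * (C * s) := by ring
        _ ≤ ε1 * r ^ 2 := mul_le_mul_of_nonneg_left hr2.le hε1.le
    have hsB : M * s ≤ (ε1 * r) ^ 2 := by
      have h1 : M ≤ C * ε1 ^ 2 := by rwa [div_le_iff₀ (by positivity)] at hC2
      calc M * s ≤ C * ε1 ^ 2 * s := mul_le_mul_of_nonneg_right h1 hs.le
        _ = ε1 ^ 2 * (C * s) := by ring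
        _ ≤ ε1 ^ 2 * r ^ 2 := mul_le_mul_of_nonneg_left hr2.le (by positivity)
        _ = (ε1 * r) ^ 2 := by ring
    have hρr : ρ * Real.sqrt s ≤ r := by
      refine abs_le_of_sq_le_sq' ?_ hr0.le |>.2
      rw [mul_pow, Real.sq_sqrt hs.le]
      exact (mul_le_mul_of_nonneg_right hC3 hs.le).trans hr2.le
    have haff := HN1 k r νa νb la lb hr0 (cr_mono hpN' le_rfl hrg) (cr_mono hpN' hρr hb)
      (fun v => (va v).trans (mul_le_mul_of_nonneg_right hsA (sq_nonneg _)))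
      (fun v => (vb v).trans (mul_le_mul_of_nonneg_right hsA (sq_nonneg _)))
      (fun v => by
        refine abs_le_of_sq_le_sq ?_ (by positivity)
        calc _ ≤ M * s * ‖v‖ ^ 2 := hm v
          _ ≤ (ε1 * r) ^ 2 * ‖v‖ ^ 2 := mul_le_mul_of_nonneg_right hsB (sq_nonneg _)
          _ = (ε1 * r * ‖v‖) ^ 2 := by ring) hpl
    have e1 : ε * r1 ^ 2 = 9 / 25 * ε * r ^ 2 := by rw [hr1, hr]; ring
    rw [← e1] at haff
    have hlow := hF2 Bb νb pbb haff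
    have hup := var_of_m4 pbb (L := 4 / r1) (by positivity) hC4
      (ρ := ρ * Real.sqrt s) (by positivity)
      (fun f hf hf1 => HM k νb Bb (ρ * Real.sqrt s) pbb hplsb (by positivity)
        (cr_mono hpM' le_rfl hb) f hf hf1) hF hF1 hFL
    have h3 : Real.sqrt C4 * ((4 / r1) ^ 2 * (ρ * Real.sqrt s) ^ 2) < cT := by
      rw [div_pow, mul_pow, Real.sq_sqrt hs.le]
      have h4 : Real.sqrt C4 * (4 ^ 2 / r1 ^ 2 * (ρ ^ 2 * s)) =
          Real.sqrt C4 * (16 * ρ ^ 2 * s) / r1 ^ 2 := by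
        ring
      rw [h4, div_lt_iff₀ (by positivity)]
      have h5 : 30 * Real.sqrt C4 * ρ ^ 2 ≤ C * cT := by rwa [div_le_iff₀ hcT] at hC5
      have h6 : 30 * Real.sqrt C4 * ρ ^ 2 * s ≤ C * cT * s := mul_le_mul_of_nonneg_right h5 hs.le
      have h7 : C * s * cT < R ^ 2 * cT := mul_lt_mul_of_pos_right hlt hcT
      have h8 : r1 ^ 2 = 9 / 16 * R ^ 2 := by rw [hr1]; ring
      rw [h8]
      have h9 : 0 < Real.sqrt C4 * ρ ^ 2 * s := by positivity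
      nlinarith
    linarith
  have hfin : R < 2 * Real.sqrt C * Real.sqrt s := by
    have h2 : R ≤ Real.sqrt (C * s) := Real.le_sqrt_of_sq_le hmain
    rw [Real.sqrt_mul hC0.le] at h2
    have h3 : 0 < Real.sqrt C * Real.sqrt s := by positivity
    linarith
  exact hgood _ hfin

/-! ### volumes of the fibres along a segment -/

theorem seg_mono (h : CB K) {ts tm : E d} (hm : ∀ t, Rv K t ≤ Rv K tm)
    {x y : ℝ} (hxy : x ≤ y) (hy : y ≤ 1) :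
    Rv K (ts + x • (tm - ts)) ≤ Rv K (ts + y • (tm - ts)) := by
  rcases hxy.eq_or_lt with h1 | h1
  · rw [h1]
  rcases hy.eq_or_lt with h2 | h2
  · rw [h2, one_smul]
    simpa using hm _
  have h3 : 0 < 1 - x := by linarith
  obtain ⟨l, hl⟩ : ∃ l : ℝ, l = (y - x) / (1 - x) := ⟨_, rfl⟩
  have hl0 : 0 < l := by rw [hl]; exact div_pos (by linarith) h3
  have hl1 : l < 1 := by rw [hl, div_lt_one h3]; linarith
  have h4 := Pool.Agent.R755.KF.geo N d K h (ts + x • (tm - ts)) tm l hl0 hl1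
  have e1 : (1 - l) • (ts + x • (tm - ts)) + l • tm = ts + y • (tm - ts) := by
    have e2 : y = (1 - l) * x + l := by
      rw [hl]
      field_simp
      ring
    rw [e2]
    module
  rw [e1] at h4
  have h5 : 0 ≤ Rv K (ts + x • (tm - ts)) := ENNReal.toReal_nonneg
  refine le_trans ?_ h4
  rcases h5.eq_or_lt with h6 | h6
  · rw [← h6]
    exact mul_nonneg (Real.rpow_nonneg le_rfl _) (Real.rpow_nonneg (h6 ▸ hm _ : (0:ℝ) ≤ _) _)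
  · calc Rv K (ts + x • (tm - ts)) = Rv K (ts + x • (tm - ts)) ^ (1 - l) *
          Rv K (ts + x • (tm - ts)) ^ l := by
          rw [← Real.rpow_add h6, sub_add_cancel, Real.rpow_one]
      _ ≤ _ := mul_le_mul_of_nonneg_left (Real.rpow_le_rpow h5 (hm _) hl0.le)
          (Real.rpow_nonneg h5 _)

theorem seg_plh (h : CB K) (T : E N × E d →ₗ[ℝ] E k) {ts tm : E d} (hp : 0 < Rv K ts)
    (hm : ∀ t, Rv K t ≤ Rv K tm) {x η : ℝ} (hη : 0 ≤ η) (hx : 0 ≤ x) (hx1 : x ≤ 1)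
    (hr : Rv K (ts + x • (tm - ts)) ≤ (1 + η) * Rv K ts) {τ : ℝ} (hτ : 0 < τ) :
    PLH τ η (lw K T ts) (lw K T (ts + x • (tm - ts))) := by
  refine plh_lw Pool.Agent.R755.KF.fib (Pool.Agent.R755.KF.plh Pool.Agent.R755.KF.zn_ok) h T hp
    (u := 1) (w := 1 + η) one_pos hη (by linarith)
    (J := segment ℝ ts (ts + x • (tm - ts))) (convex_segment _ _) ?_ (left_mem_segment _ _ _)
    (right_mem_segment _ _ _) hτ
  intro t ht
  rw [segment_eq_image'] at ht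
  obtain ⟨a, ⟨ha0, ha1⟩, rfl⟩ := ht
  have e1 : ts + a • (ts + x • (tm - ts) - ts) = ts + (a * x) • (tm - ts) := by module
  simp only [e1]
  have hax : a * x ≤ x := mul_le_of_le_one_left hx ha1
  have hax0 : 0 ≤ a * x := mul_nonneg ha0 hx
  have h1 := seg_mono h (ts := ts) hm hax0 (hax.trans hx1)
  rw [zero_smul, add_zero] at h1
  rw [one_mul]
  exact ⟨h1, (seg_mono h hm hax hx1).trans hr⟩

/-! ### the concentration radius of the fibre, for a linear map on the body -/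

theorem core0 (hW : S_WINC) (hN : S_NEAR) (hT : S_TRF) {pM : ℝ} (hpM : 0 < pM)
    (d : ℕ) {c : ℝ} (hc : 0 ≤ c) : ∃ δ' : ℝ, 0 < δ' ∧ ∀ κ' : ℝ, 0 < κ' → ∃ Cb : ℝ, 0 < Cb ∧
    ∀ (N n : ℕ) (e : (E N × E d) ≃ₗ[ℝ] E n) (K : Set (E N × E d)) (ts : E d), CB K →
    0 < Rv K ts → Cen c K ts → CcW κ' δ' (ind (e '' K)) →
    ∀ (k : ℕ), k ≤ N → ∀ (T : E N × E d →ₗ[ℝ] E k) (s1 : ℝ), 0 < s1 → (∀ θ : E k, ‖θ‖ = 1 →
      (∫ z, ⟪T z, θ⟫_ℝ ^ 2 ∂(un K)) - (∫ z, ⟪T z, θ⟫_ℝ ∂(un K)) ^ 2 ≤ s1) →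
    CR (lw K T ts) pM (2 * Real.sqrt (Cb * s1)) := by
  obtain ⟨pN, hpN, -, HN⟩ := hN
  obtain ⟨p, hp⟩ : ∃ p : ℝ, p = min pN pM := ⟨_, rfl⟩
  have hp0 : 0 < p := by rw [hp]; exact lt_min hpN hpM
  have hpN' : p ≤ pN := by rw [hp]; exact min_le_left _ _
  have hpM' : p ≤ pM := by rw [hp]; exact min_le_right _ _
  obtain ⟨ε, θ0, cT, hε, hθ0, hcT, HT⟩ := hT p hp0
  obtain ⟨η, ε1, hη, hε1, HN1⟩ := HN θ0 (9 / 25 * ε) hθ0 (by positivity)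
  obtain ⟨c1, hc1, HW⟩ := hW d c hc
  -- the window
  obtain ⟨δw, hδw⟩ : ∃ δw : ℝ, δw = min 1 (Real.log (1 + η) / (c + 1)) := ⟨_, rfl⟩
  have hlog : 0 < Real.log (1 + η) := Real.log_pos (by linarith)
  have hδw0 : 0 < δw := by rw [hδw]; exact lt_min one_pos (by positivity)
  have hδw1 : δw ≤ 1 := by rw [hδw]; exact min_le_left _ _
  have hδw2 : (c + 1) * δw ≤ Real.log (1 + η) := by
    have : δw ≤ Real.log (1 + η) / (c + 1) := by rw [hδw]; exact min_le_right _ _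
    rw [le_div_iff₀ (by linarith)] at this
    linarith
  obtain ⟨m, hm⟩ : ∃ m : ℝ, m = c1 * δw ^ d := ⟨_, rfl⟩
  have hm0 : 0 < m := by rw [hm]; positivity
  obtain ⟨M, hM⟩ : ∃ M : ℝ, M = 36 * 4 ^ d / Real.exp (-1 - c) := ⟨_, rfl⟩
  have hM0 : 0 < M := by rw [hM]; positivity
  refine ⟨m * cT / 2, by positivity, fun κ' hκ' => ?_⟩
  obtain ⟨Cb, hCb⟩ : ∃ Cb : ℝ, Cb = M / ε1 + 4 * M / ε1 ^ 2 + 29 / κ' ^ 2 := ⟨_, rfl⟩
  have q1 : 0 < M / ε1 := by positivity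
  have q2 : 0 < 4 * M / ε1 ^ 2 := by positivity
  have q3 : 0 < 29 / κ' ^ 2 := by positivity
  have hCb0 : 0 < Cb := by rw [hCb]; positivity
  have hCb1 : M / ε1 ≤ Cb := by rw [hCb]; linarith
  have hCb2 : 4 * M / ε1 ^ 2 ≤ Cb := by rw [hCb]; linarith
  have hCb3 : 29 / κ' ^ 2 ≤ Cb := by rw [hCb]; linarith
  refine ⟨Cb, hCb0, fun N n e K ts hK hpos hcen hcc k hk T s1 hs10 hTvar => ?_⟩
  obtain ⟨J, hJm, hJc, htsJ, hJr, hJv⟩ := HW δw hδw0 hδw1 N K ts hK hpos hcen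
  have hup := cen_up hc hpos hcen
  -- positivity of the fibres in the window
  have hJp : ∀ t ∈ J, 0 < Rv K t := fun t ht =>
    lt_of_lt_of_le (mul_pos (Real.exp_pos _) hpos) (hJr t ht).1
  have hS : 0 < Real.exp c * Rv K ts := mul_pos (Real.exp_pos _) hpos
  have hfib : ∀ t ∈ J, ∀ v : E k,
      (∫ y, ⟪y, v⟫_ℝ ^ 2 ∂(lw K T t)) - (∫ y, ⟪y, v⟫_ℝ ∂(lw K T t)) ^ 2 ≤ M * s1 * ‖v‖ ^ 2 ∧
      ((∫ y, ⟪y, v⟫_ℝ ∂(lw K T t)) - ∫ z, ⟪T z, v⟫_ℝ ∂(un K)) ^ 2 ≤ M * s1 * ‖v‖ ^ 2 := by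
    intro t ht v
    rw [hM]
    refine fib_mom Pool.Agent.R755.KF.mom hK T hs10.le hS (Real.exp_pos _) hup hTvar ?_ v
    refine le_trans ?_ (hJr t ht).1
    rw [← mul_assoc, ← Real.exp_add]
    refine mul_le_mul_of_nonneg_right (Real.exp_le_exp.2 ?_) hpos.le
    linarith
  obtain ⟨B0, hB00, hB0⟩ := pb_lw hK T
  have hPLH : ∀ a ∈ J, ∀ b ∈ J, ∀ h : ℝ, 0 < h → PLH h η (lw K T a) (lw K T b) := by
    intro a ha b hb h hh
    refine plh_lw Pool.Agent.R755.KF.fib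
      (Pool.Agent.R755.KF.plh Pool.Agent.R755.KF.zn_ok) hK T hpos (Real.exp_pos (-δw))
      (w := Real.exp (c * δw)) hη.le ?_ hJc hJr ha hb hh
    have e1 : Real.exp (c * δw) = Real.exp ((c + 1) * δw) * Real.exp (-δw) := by
      rw [← Real.exp_add]
      congr 1
      ring
    rw [e1]
    refine mul_le_mul_of_nonneg_right ?_ (Real.exp_pos _).le
    calc Real.exp ((c + 1) * δw) ≤ Real.exp (Real.log (1 + η)) := Real.exp_le_exp.2 hδw2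
      _ = 1 + η := Real.exp_log (by linarith)
  have hJprob : ∀ t ∈ J, IsProbabilityMeasure (lw K T t) := fun t ht => lw_prob hK T (hJp t ht)
  -- the concentration radius of the window
  obtain ⟨Q, hQ⟩ : ∃ Q : Set ℝ, Q = {ρ : ℝ | 0 < ρ ∧ ∀ t ∈ J, CR (lw K T t) p ρ} := ⟨_, rfl⟩
  have hQne : Q.Nonempty := by
    refine ⟨2 * B0 + 1, ?_⟩
    rw [hQ]
    exact ⟨by linarith, fun t ht => cr_big (hB0 t (hJp t ht)) hp0⟩
  have hQb : BddBelow Q := ⟨0, fun ρ hρ => by rw [hQ] at hρ; exact hρ.1.le⟩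
  obtain ⟨R, hRd⟩ : ∃ R : ℝ, R = sInf Q := ⟨_, rfl⟩
  have hR0 : 0 ≤ R := by
    rw [hRd]
    exact le_csInf hQne fun ρ hρ => by rw [hQ] at hρ; exact hρ.1.le
  have hgood : ∀ ρ, R < ρ → ∀ t ∈ J, CR (lw K T t) p ρ := by
    intro ρ hρ t ht
    rw [hRd] at hρ
    obtain ⟨ρ', hρ', hlt⟩ := exists_lt_of_csInf_lt hQne hρ
    rw [hQ] at hρ'
    have := hJprob t ht
    exact cr_mono le_rfl hlt.le (hρ'.2 t ht)
  have hbad : ∀ ρ, 0 < ρ → ρ < R → ∃ t ∈ J, ¬ CR (lw K T t) p ρ := by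
    intro ρ hρ hρR
    by_contra hne
    push Not at hne
    have : ρ ∈ Q := by rw [hQ]; exact ⟨hρ, hne⟩
    have h2 := csInf_le hQb this
    rw [← hRd] at h2
    linarith
  have hmain : R ^ 2 ≤ Cb * s1 := by
    by_contra hlt
    push Not at hlt
    have hRp : 0 < R := by
      rcases hR0.lt_or_eq with h | h
      · exact h
      · rw [← h] at hlt
        have : 0 < Cb * s1 := by positivity
        simp at hlt
        linarith
    obtain ⟨r, hr⟩ : ∃ r : ℝ, r = 5 / 4 * R := ⟨_, rfl⟩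
    obtain ⟨r1, hr1⟩ : ∃ r1 : ℝ, r1 = 3 / 4 * R := ⟨_, rfl⟩
    have hr0 : 0 < r := by rw [hr]; positivity
    have hr10 : 0 < r1 := by rw [hr1]; positivity
    have hrg := hgood r (by rw [hr]; linarith)
    obtain ⟨t1, ht1, hb1⟩ := hbad r1 hr10 (by rw [hr1]; linarith)
    unfold CR at hb1
    push Not at hb1
    obtain ⟨Bd, hBdm, hBdp, hBd2⟩ := hb1
    obtain ⟨F, hF, hF1, hFL, hF2⟩ := HT k r1 (lw K T t1) Bd (lci_lw hK T (hJp t1 ht1)) hr10 hBdm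
      hBdp hBd2
    have hr2 : Cb * s1 < r ^ 2 := by
      rw [hr]
      nlinarith
    have hsA : M * s1 ≤ ε1 * r ^ 2 := by
      have h1 : M ≤ Cb * ε1 := by rwa [div_le_iff₀ hε1] at hCb1
      calc M * s1 ≤ Cb * ε1 * s1 := mul_le_mul_of_nonneg_right h1 hs10.le
        _ = ε1 * (Cb * s1) := by ring
        _ ≤ ε1 * r ^ 2 := mul_le_mul_of_nonneg_left hr2.le hε1.le
    have hsB : 4 * (M * s1) ≤ (ε1 * r) ^ 2 := by
      have h1 : 4 * M ≤ Cb * ε1 ^ 2 := by rwa [div_le_iff₀ (by positivity)] at hCb2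
      calc 4 * (M * s1) = 4 * M * s1 := by ring
        _ ≤ Cb * ε1 ^ 2 * s1 := mul_le_mul_of_nonneg_right h1 hs10.le
        _ = ε1 ^ 2 * (Cb * s1) := by ring
        _ ≤ ε1 ^ 2 * r ^ 2 := mul_le_mul_of_nonneg_left hr2.le (by positivity)
        _ = (ε1 * r) ^ 2 := by ring
    have haff : ∀ t ∈ J, 1 - aff (ε * r1 ^ 2) (lw K T t1) (lw K T t) ≤ θ0 := by
      intro t ht
      have h1 := HN1 k r (lw K T t1) (lw K T t) (lci_lw hK T (hJp t1 ht1)) (lci_lw hK T (hJp t ht))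
        hr0 (by
          have := hJprob t1 ht1
          exact cr_mono hpN' le_rfl (hrg t1 ht1)) (by
          have := hJprob t ht
          exact cr_mono hpN' le_rfl (hrg t ht))
        (fun v => (hfib t1 ht1 v).1.trans (mul_le_mul_of_nonneg_right hsA (sq_nonneg _)))
        (fun v => (hfib t ht v).1.trans (mul_le_mul_of_nonneg_right hsA (sq_nonneg _)))
        (fun v => by
          have h1 := (hfib t1 ht1 v).2
          have h2 := (hfib t ht v).2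
          obtain ⟨a, ha⟩ : ∃ a, a = ∫ y, ⟪y, v⟫_ℝ ∂(lw K T t1) := ⟨_, rfl⟩
          obtain ⟨b, hb⟩ : ∃ b, b = ∫ y, ⟪y, v⟫_ℝ ∂(lw K T t) := ⟨_, rfl⟩
          obtain ⟨x, hx⟩ : ∃ x, x = ∫ z, ⟪T z, v⟫_ℝ ∂(un K) := ⟨_, rfl⟩
          rw [← ha, ← hx] at h1
          rw [← hb, ← hx] at h2
          rw [← ha, ← hb]
          refine abs_le_of_sq_le_sq ?_ (by positivity)
          calc (b - a) ^ 2 ≤ 2 * (a - x) ^ 2 + 2 * (b - x) ^ 2 := by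
                nlinarith [sq_nonneg ((a - x) + (b - x))]
            _ ≤ 4 * (M * s1) * ‖v‖ ^ 2 := by linarith
            _ ≤ (ε1 * r) ^ 2 * ‖v‖ ^ 2 := mul_le_mul_of_nonneg_right hsB (sq_nonneg _)
            _ = (ε1 * r * ‖v‖) ^ 2 := by ring)
        (fun h hh => hPLH t1 ht1 t ht h hh)
      have e1 : ε * r1 ^ 2 = 9 / 25 * ε * r ^ 2 := by rw [hr1, hr]; ring
      rw [e1]
      exact h1
    have hlow := body_low hK T hF.continuous hJm hm0.le (c := cT) (by rw [hm]; exact hJv) hJp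
      fun t ht => hF2 B0 (lw K T t) (hB0 t (hJp t ht)) (haff t ht)
    have hup2 := cc_body e hK hcc hk T hs10 hTvar hF hF1 fun y => (hFL y).trans (by
      rw [div_le_div_iff₀ hr10 (Real.sqrt_pos.2 hs10)]
      refine abs_le_of_sq_le_sq' ?_ (by positivity) |>.2
      rw [mul_pow, Real.sq_sqrt hs10.le, mul_pow]
      have h1 : 29 ≤ Cb * κ' ^ 2 := by rwa [div_le_iff₀ (by positivity)] at hCb3
      calc (4 : ℝ) ^ 2 * s1 ≤ 9 / 16 * (29 * s1) := by linarith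
        _ ≤ 9 / 16 * (Cb * κ' ^ 2 * s1) :=
            mul_le_mul_of_nonneg_left (mul_le_mul_of_nonneg_right h1 hs10.le) (by norm_num)
        _ = κ' ^ 2 * (9 / 16 * (Cb * s1)) := by ring
        _ ≤ κ' ^ 2 * (9 / 16 * R ^ 2) := by
            refine mul_le_mul_of_nonneg_left ?_ (by positivity)
            linarith
        _ = κ' ^ 2 * r1 ^ 2 := by rw [hr1]; ring)
    have : 0 < m * cT := by positivity
    linarith
  have hfin : R < 2 * Real.sqrt (Cb * s1) := by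
    have h1 : 0 < Cb * s1 := by positivity
    have h2 : R ≤ Real.sqrt (Cb * s1) := Real.le_sqrt_of_sq_le hmain
    have h3 : 0 < Real.sqrt (Cb * s1) := Real.sqrt_pos.2 h1
    linarith
  have := hJprob ts htsJ
  exact cr_mono hpM' le_rfl (hgood _ hfin ts htsJ)


/-! ### the chain -/

theorem cen_max {tm : E d} (hm : ∀ t, Rv K t ≤ Rv K tm) : Cen 0 K tm := by
  intro t _ x _ _
  rw [zero_mul, Real.exp_zero, one_mul]
  exact hm _

theorem chain (hI : S_IVT) {p η : ℝ} (hη : 0 < η)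
    (HP : ∀ M ρ : ℝ, 0 < M → 0 < ρ → ∃ ρ' : ℝ, 0 < ρ' ∧
      ∀ (k : ℕ) (νa νb : Measure (E k)) (s : ℝ), LCI νa → LCI νb → 0 < s →
      (∀ v : E k, (∫ x, ⟪x, v⟫_ℝ ^ 2 ∂νa) - (∫ x, ⟪x, v⟫_ℝ ∂νa) ^ 2 ≤ M * s * ‖v‖ ^ 2) →
      (∀ v : E k, (∫ x, ⟪x, v⟫_ℝ ^ 2 ∂νb) - (∫ x, ⟪x, v⟫_ℝ ∂νb) ^ 2 ≤ M * s * ‖v‖ ^ 2) →
      (∀ v : E k, ((∫ x, ⟪x, v⟫_ℝ ∂νb) - ∫ x, ⟪x, v⟫_ℝ ∂νa) ^ 2 ≤ M * s * ‖v‖ ^ 2) →
      (∀ h, 0 < h → PLH h η νa νb) → CR νb p (ρ * Real.sqrt s) → CR νa p (ρ' * Real.sqrt s))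
    (d : ℕ) {ε ρ0 : ℝ} (hε : 0 < ε) (hρ0 : 0 < ρ0) (j : ℕ) : ∃ ρ1 : ℝ, 0 < ρ1 ∧
    ∀ (N k : ℕ) (K : Set (E N × E d)) (T : E N × E d →ₗ[ℝ] E k) (s : ℝ) (ts tm : E d), CB K →
    0 < s → (∀ θ : E k, ‖θ‖ = 1 →
      (∫ z, ⟪T z, θ⟫_ℝ ^ 2 ∂(un K)) - (∫ z, ⟪T z, θ⟫_ℝ ∂(un K)) ^ 2 ≤ s) →
    0 < Rv K tm → (∀ t, Rv K t ≤ Rv K tm) → ε * Rv K tm ≤ Rv K ts →
    Rv K tm ≤ (1 + η) ^ j * Rv K ts → CR (lw K T tm) p (ρ0 * Real.sqrt s) →
    CR (lw K T ts) p (ρ1 * Real.sqrt s) := by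
  obtain ⟨M, hM⟩ : ∃ M : ℝ, M = 4 * (36 * 4 ^ d / ε) := ⟨_, rfl⟩
  have hM0 : 0 < M := by rw [hM]; positivity
  -- one step
  have step : ∀ ρ : ℝ, 0 < ρ → ∃ ρ' : ℝ, 0 < ρ' ∧
      ∀ (N k : ℕ) (K : Set (E N × E d)) (T : E N × E d →ₗ[ℝ] E k) (s : ℝ) (ts tm : E d) (x : ℝ),
      CB K → 0 < s → (∀ θ : E k, ‖θ‖ = 1 →
        (∫ z, ⟪T z, θ⟫_ℝ ^ 2 ∂(un K)) - (∫ z, ⟪T z, θ⟫_ℝ ∂(un K)) ^ 2 ≤ s) →
      0 < Rv K tm → (∀ t, Rv K t ≤ Rv K tm) → ε * Rv K tm ≤ Rv K ts → 0 ≤ x → x ≤ 1 →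
      Rv K (ts + x • (tm - ts)) ≤ (1 + η) * Rv K ts →
      CR (lw K T (ts + x • (tm - ts))) p (ρ * Real.sqrt s) →
      CR (lw K T ts) p (ρ' * Real.sqrt s) := by
    intro ρ hρ
    obtain ⟨ρ', hρ', H⟩ := HP M ρ hM0 hρ
    refine ⟨ρ', hρ', fun N k K T s ts tm x hK hs hvar hpm hm hts hx hx1 hr hcr => ?_⟩
    have hp : 0 < Rv K ts := lt_of_lt_of_le (by positivity) hts
    have hge : Rv K ts ≤ Rv K (ts + x • (tm - ts)) := by
      have h1 := seg_mono hK (ts := ts) hm hx hx1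
      rwa [zero_smul, add_zero] at h1
    have hb1 := fib_mom Pool.Agent.R755.KF.mom hK T hs.le hpm hε hm hvar hts
    have hb2 := fib_mom Pool.Agent.R755.KF.mom hK T hs.le hpm hε hm hvar (hts.trans hge)
    have hM1 : 36 * 4 ^ d / ε ≤ M := by
      rw [hM]
      have : 0 < 36 * 4 ^ d / ε := by positivity
      linarith
    have hle : ∀ v : E k, 36 * 4 ^ d / ε * s * ‖v‖ ^ 2 ≤ M * s * ‖v‖ ^ 2 := fun v =>
      mul_le_mul_of_nonneg_right (mul_le_mul_of_nonneg_right hM1 hs.le) (sq_nonneg _)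
    refine H k _ _ s (lci_lw hK T hp) (lci_lw hK T (hp.trans_le hge)) hs
      (fun v => (hb1 v).1.trans (hle v)) (fun v => (hb2 v).1.trans (hle v)) (fun v => ?_)
      (fun h hh => seg_plh hK T hp hm hη.le hx hx1 hr hh) hcr
    have h1 := (hb1 v).2
    have h2 := (hb2 v).2
    obtain ⟨a, ha⟩ : ∃ a, a = ∫ y, ⟪y, v⟫_ℝ ∂(lw K T ts) := ⟨_, rfl⟩
    obtain ⟨b, hb⟩ : ∃ b, b = ∫ y, ⟪y, v⟫_ℝ ∂(lw K T (ts + x • (tm - ts))) := ⟨_, rfl⟩
    obtain ⟨c, hc⟩ : ∃ c, c = ∫ z, ⟪T z, v⟫_ℝ ∂(un K) := ⟨_, rfl⟩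
    rw [← ha, ← hc] at h1
    rw [← hb, ← hc] at h2
    rw [← ha, ← hb, hM]
    nlinarith [sq_nonneg ((a - c) + (b - c))]
  obtain ⟨ρz, hρz, Hz⟩ := step ρ0 hρ0
  induction j with
  | zero =>
    refine ⟨ρz, hρz, fun N k K T s ts tm hK hs hvar hpm hm hts hj hcr => ?_⟩
    have hp : 0 < Rv K ts := lt_of_lt_of_le (by positivity) hts
    rw [pow_zero, one_mul] at hj
    have e1 : ts + (1 : ℝ) • (tm - ts) = tm := by rw [one_smul]; abel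
    refine Hz N k K T s ts tm 1 hK hs hvar hpm hm hts zero_le_one le_rfl ?_ (by rwa [e1])
    rw [e1]
    nlinarith
  | succ j ih =>
    obtain ⟨ρ1, hρ1, H1⟩ := ih
    obtain ⟨ρ2, hρ2, H2⟩ := step ρ1 hρ1
    refine ⟨max ρz ρ2, lt_max_of_lt_left hρz,
      fun N k K T s ts tm hK hs hvar hpm hm hts hj hcr => ?_⟩
    have hp : 0 < Rv K ts := lt_of_lt_of_le (by positivity) hts
    have hpr := lw_prob hK T hp
    have hss : 0 ≤ Real.sqrt s := Real.sqrt_nonneg s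
    by_cases hc : Rv K tm ≤ (1 + η) * Rv K ts
    · have e1 : ts + (1 : ℝ) • (tm - ts) = tm := by rw [one_smul]; abel
      have h3 := Hz N k K T s ts tm 1 hK hs hvar hpm hm hts zero_le_one le_rfl (by rwa [e1])
        (by rwa [e1])
      exact cr_mono le_rfl (mul_le_mul_of_nonneg_right (le_max_left _ _) hss) h3
    · push Not at hc
      have hge : Rv K ts ≤ (1 + η) * Rv K ts := by nlinarith
      obtain ⟨x, hx0, hx1, hx⟩ := hI N d K ts tm ((1 + η) * Rv K ts) hK hp hm hge hc.le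
      have h4 := H1 N k K T s (ts + x • (tm - ts)) tm hK hs hvar hpm hm
        (by rw [hx]; exact hts.trans hge) (by
          rw [hx]
          calc Rv K tm ≤ (1 + η) ^ (j + 1) * Rv K ts := hj
            _ = (1 + η) ^ j * ((1 + η) * Rv K ts) := by ring) hcr
      have h5 := H2 N k K T s ts tm x hK hs hvar hpm hm hts hx0 hx1 hx.le h4
      exact cr_mono le_rfl (mul_le_mul_of_nonneg_right (le_max_right _ _) hss) h5

/-! ### the theorem -/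

theorem sece (hX : S_MXF) (hI : S_IVT) (hW : S_WINC) (hR : S_REGC) (hN : S_NEAR) (hT : S_TRF)
    (hM4 : S_M4L) (hL : S_LCI) : S_SECE := by
  intro d ε hε
  obtain ⟨p0, hp0, HP⟩ := pair hN hT hM4 hL
  obtain ⟨pM, C4, hpM, -, hC4, HM⟩ := hM4
  obtain ⟨p, hp⟩ : ∃ p : ℝ, p = min p0 pM := ⟨_, rfl⟩
  have hpp : 0 < p := by rw [hp]; exact lt_min hp0 hpM
  have hpM' : p ≤ pM := by rw [hp]; exact min_le_right _ _
  obtain ⟨η, hη, HP1⟩ := HP p hpp (by rw [hp]; exact min_le_left _ _)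
  obtain ⟨δ', hδ', H⟩ := core0 hW hN hT hpp d (le_refl (0 : ℝ))
  obtain ⟨Creg, hCreg, HR⟩ := hR d (max 1 ε⁻¹) (le_max_left _ _)
  obtain ⟨j, hj⟩ : ∃ j : ℕ, ε⁻¹ < (1 + η) ^ j := pow_unbounded_of_one_lt _ (by linarith)
  refine ⟨δ', hδ', fun κ' δ hκ' hδ => ?_⟩
  obtain ⟨Cb, hCb, H1⟩ := H κ' hκ'
  obtain ⟨ρ1, hρ1, Hc⟩ := chain hI hη HP1 d hε (ρ0 := 2 * Real.sqrt Cb) (by positivity) j
  obtain ⟨κ, hκ⟩ : ∃ κ : ℝ, κ = Real.sqrt (δ / (Real.sqrt C4 * ρ1 ^ 2 * Creg)) := ⟨_, rfl⟩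
  have h4 : 0 < Real.sqrt C4 := Real.sqrt_pos.2 hC4
  have hκ0 : 0 < κ := by rw [hκ]; exact Real.sqrt_pos.2 (by positivity)
  have hκ2 : κ ^ 2 = δ / (Real.sqrt C4 * ρ1 ^ 2 * Creg) := by
    rw [hκ, Real.sq_sqrt (by positivity)]
  refine ⟨κ, hκ0, fun N n e K ts hK hlar hcc => ?_⟩
  obtain ⟨tm, hpm, hm⟩ := hX N d K hK
  have hts : ε * Rv K tm ≤ Rv K ts := hlar tm
  have hpos : 0 < Rv K ts := lt_of_lt_of_le (by positivity) hts
  intro k hk P s hs hvar v hv hv1 hvL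
  have hms := sl_meas hK ts
  have hvar' : ∀ θ : E k, ‖θ‖ = 1 →
      (∫ x, ⟪P x, θ⟫_ℝ ^ 2 ∂(un (sl K ts))) - (∫ x, ⟪P x, θ⟫_ℝ ∂(un (sl K ts))) ^ 2 ≤ s := by
    intro θ hθ
    have h1 := hvar θ hθ
    rwa [Pool.Agent.R754.KG.VW_ind hms] at h1
  obtain ⟨B, hB⟩ := HR N k K ts hK hpos (fun t => by
    have h1 := hlar t
    have h2 : Rv K t ≤ ε⁻¹ * Rv K ts := by
      rw [← div_eq_inv_mul, le_div_iff₀ hε]
      linarith
    exact h2.trans (mul_le_mul_of_nonneg_right (le_max_right _ _) hpos.le)) P s hs.le hvar'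
  obtain ⟨T, hTd⟩ : ∃ T : E N × E d →ₗ[ℝ] E k, T = P ∘ₗ LinearMap.fst ℝ (E N) (E d) -
      B ∘ₗ LinearMap.snd ℝ (E N) (E d) := ⟨_, rfl⟩
  have hTz : ∀ z, T z = P z.1 - B z.2 := fun z => by rw [hTd]; simp
  obtain ⟨s1, hs1⟩ : ∃ s1 : ℝ, s1 = Creg * s := ⟨_, rfl⟩
  have hs10 : 0 < s1 := by rw [hs1]; positivity
  have hTvar : ∀ θ : E k, ‖θ‖ = 1 →
      (∫ z, ⟪T z, θ⟫_ℝ ^ 2 ∂(un K)) - (∫ z, ⟪T z, θ⟫_ℝ ∂(un K)) ^ 2 ≤ s1 := by
    intro θ hθ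
    simp only [hTz]
    rw [hs1]
    exact hB θ hθ
  have hcm := H1 N n e K tm hK hpm (cen_max hm) hcc k hk T s1 hs10 hTvar
  rw [Real.sqrt_mul hCb.le, ← mul_assoc] at hcm
  have hcs := Hc N k K T s1 ts tm hK hs10 hTvar hpm hm hts (by
    have h1 : 1 ≤ ε * (1 + η) ^ j := by
      have := mul_le_mul_of_nonneg_left hj.le hε.le
      rwa [mul_inv_cancel₀ hε.ne'] at this
    calc Rv K tm = 1 * Rv K tm := (one_mul _).symm
      _ ≤ ε * (1 + η) ^ j * Rv K tm := mul_le_mul_of_nonneg_right h1 hpm.le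
      _ = (1 + η) ^ j * (ε * Rv K tm) := by ring
      _ ≤ (1 + η) ^ j * Rv K ts := mul_le_mul_of_nonneg_left hts (by positivity)) hcm
  have hlci := lci_lw hK T hpos
  obtain ⟨hpls, -, B1, -, hpb⟩ := hL k _ hlci
  have hpr := hpb.prob
  have hss : 0 < Real.sqrt s := Real.sqrt_pos.2 hs
  have hss1 : 0 < Real.sqrt s1 := Real.sqrt_pos.2 hs10
  obtain ⟨v', hv'⟩ : ∃ v' : E k → ℝ, v' = fun y => v (y + B ts) := ⟨_, rfl⟩
  have hv'c : ContDiff ℝ 1 v' := by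
    rw [hv']
    exact hv.comp (contDiff_id.add contDiff_const)
  have hv'L : ∀ y, ‖fderiv ℝ v' y‖ ≤ κ / Real.sqrt s := by
    intro y
    rw [hv', fderiv_comp_add_right]
    exact hvL _
  have key := var_of_m4 hpb (L := κ / Real.sqrt s) (by positivity) hC4
    (ρ := ρ1 * Real.sqrt s1) (by positivity)
    (fun f hf hf1 => HM k (lw K T ts) B1 (ρ1 * Real.sqrt s1) hpb hpls (by positivity)
      (cr_mono hpM' le_rfl hcs) f hf hf1)
    hv'c (fun y => by rw [hv']; exact hv1 _) hv'L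
  have hv'2 : Continuous fun y => v' y ^ 2 := hv'c.continuous.pow 2
  rw [lw_int T ts hv'2, lw_int T ts hv'c.continuous] at key
  have e1 : ∀ x, v' (T (x, ts)) = v (P x) := fun x => by
    rw [hv', hTz]
    simp
  simp only [e1] at key
  rw [Pool.Agent.R754.KG.VW_ind hms]
  refine key.trans ?_
  rw [div_pow, mul_pow, Real.sq_sqrt hs.le, Real.sq_sqrt hs10.le, hκ2, hs1]
  have e2 : Real.sqrt C4 * (δ / (Real.sqrt C4 * ρ1 ^ 2 * Creg) / s * (ρ1 ^ 2 * (Creg * s))) =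
      δ := by
    field_simp
  rw [e2]

end Pool.Agent.N483.KM
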