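import Pool.Agent.N483.KM.Near
import Pool.Agent.N483.KM.Sec2
import Pool.Agent.N483.KM.Res4
import Pool.Agent.N483.KM.RegC
import Pool.Agent.N123.KM.LCI
import Pool.Agent.N456.KM.CPL
import Pool.Agent.N868.KM.Shf
import Pool.Agent.N488.KM.Step
import Pool.Agent.N157.KM.All
import Pool.Agent.N833.KM.M4L
import Pool.Agent.N401.KM.BLI
import Pool.Agent.N692.KM.Pst
import Pool.Agent.N342.KM.Str
import Pool.Agent.N277.KM.WPM
import Pool.Agent.N123.KM.VARL
import Pool.Agent.N523.KM.CLL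
import Pool.Agent.N523.KM.LRG
import Pool.Agent.N488.KM.DA1
import Pool.Agent.N264.KM.DA2
import Pool.Agent.N546.KM.DWN
import Pool.Agent.N523.KM.AFB
import Pool.Agent.N521.KM.Trf
import Pool.Agent.N383.KM.Winc
import Pool.Agent.N152.KM.FDN
import Pool.Agent.N306.KM.Bar

/-!
# Sections: assembly
-/

set_option autoImplicit false

namespace Pool.Agent.N483.KM

open MeasureTheory Set Filter Topology
open scoped ENNReal InnerProductSpace

theorem lciR : S_LCI := Pool.Agent.N123.KM.t_LCI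
theorem allR : S_ALL :=
  Pool.Agent.N157.KM.t_ALL (Pool.Agent.N488.KM.t_STEP Pool.Agent.N456.KM.t_CPL
    Pool.Agent.N868.KM.Shf.t_SHF)
theorem m4lR : S_M4L := Pool.Agent.N833.KM.t_M4L allR
theorem strR : S_STR := Pool.Agent.N342.KM.t_STR (Pool.Agent.N692.KM.t_PST
  Pool.Agent.N401.KM.t_BLI) lciR
theorem wpmR : S_WPM := Pool.Agent.N277.KM.t_WPM lciR strR m4lR
theorem lrgR : S_LRG := Pool.Agent.N523.KM.t_LRG (Pool.Agent.N523.KM.t_CLL
  Pool.Agent.N123.KM.t_VARL)

theorem dafR : S_DAF := by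
  intro k B h νa νb hh hB ha hb
  obtain ⟨h1, h2⟩ := Pool.Agent.N264.KM.t_DA2 k B h νa νb hh hB ha hb
  refine ⟨h1, ?_⟩
  have h3 := Pool.Agent.N488.KM.t_DA1 k B h νa νb hh hB ha hb
  rw [h2] at h3
  convert h3 using 1
  ring

theorem dwnR : S_DWN := Pool.Agent.N546.KM.t_DWN dafR
theorem nearR : S_NEAR := near wpmR lrgR dwnR lciR
theorem trfR : S_TRF := Pool.Agent.N521.KM.t_TRF Pool.Agent.N523.KM.t_AFB lciR
theorem wincR : S_WINC := Pool.Agent.N383.KM.t_WINC
theorem regcR : S_REGC := t_REGC Pool.Agent.N152.KM.t_FDN t_RESC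
theorem barR : S_BAR := Pool.Agent.N306.KM.t_BAR

theorem seccR : S_SECC := secc wincR regcR nearR trfR m4lR lciR

theorem sece_of (hX : S_MXF) (hI : S_IVT) : S_SECE :=
  sece hX hI wincR regcR nearR trfR m4lR lciR

end Pool.Agent.N483.KM
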