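import Pool.Agent.R755.KS.Mrg
import Pool.Agent.N483.KM.All

/-!
# Large sections, fibrations, lifts, images: the common class of bodies
-/

set_option autoImplicit false

namespace Pool.Agent.N483.KM

open MeasureTheory Set Filter Topology ProbabilityTheory
open scoped ENNReal InnerProductSpace
open Pool.Agent.R754.KG (E un sl Rv cc_zero VW_ind un_prob min_const int_trans cc_trans)
open Pool.Agent.R755.KF
open Pool.Agent.R755.KS
open Pool.Agent.Y506.PV (CcW ind Base)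
open Pool.Agent.Y506.RG (EW VW Adm Star)

theorem vol_ne_of_pos {N d : ℕ} {K : Set (E N × E d)} {t : E d} (h : 0 < Rv K t) :
    volume (sl K t) ≠ 0 := by
  intro h0
  unfold Rv at h
  rw [h0] at h
  simp at h

theorem large_pos {N d : ℕ} {K : Set (E N × E d)} {ε : ℝ} (hε : 0 < ε) (hF : CB K) {t : E d}
    (ht : ∀ t', ε * Rv K t' ≤ Rv K t) : volume (sl K t) ≠ 0 := by
  refine vol_ne_of_pos ?_
  by_contra h0
  push Not at h0
  have h1 : ∀ t', volume (sl K t') = 0 := fun t' => by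
    rw [Pool.Agent.R755.KF.Maux.R_vol hF t', ENNReal.ofReal_eq_zero]
    by_contra h2
    push Not at h2
    have h3 := ht t'
    have h4 : 0 < ε * Rv K t' := mul_pos hε h2
    linarith
  have h2 := Pool.Agent.R755.KF.Maux.vol_fub hF
  simp only [h1, lintegral_zero] at h2
  exact hF.pos.ne' h2

theorem bar_large {N d : ℕ} {K : Set (E N × E d)} {c : ℝ} (hc : 0 ≤ c) {t : E d}
    (h1 : 0 < Rv K t) (h2 : Cen c K t) (t' : E d) : Real.exp (-c) * Rv K t' ≤ Rv K t := by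
  have h3 := cen_up hc h1 h2 t'
  calc Real.exp (-c) * Rv K t' ≤ Real.exp (-c) * (Real.exp c * Rv K t) :=
        mul_le_mul_of_nonneg_left h3 (Real.exp_pos _).le
    _ = Rv K t := by
        rw [← mul_assoc, ← Real.exp_add, neg_add_cancel, Real.exp_zero, one_mul]

/-- the class of bodies -/
inductive Cz (A : ℝ → ℝ) (Q ε : ℝ) (d r : ℕ) : ℕ → ∀ n : ℕ, Set (E n) → Prop
  | base (n : ℕ) (K : Set (E n)) : IsCompact K → Convex ℝ K → (interior K).Nonempty →
      (∀ δ : ℝ, 0 < δ → KM (A δ) δ (un K)) → Cz A Q ε d r 0 n K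
  | up (h n : ℕ) (K : Set (E n)) : Cz A Q ε d r h n K → Cz A Q ε d r (h + 1) n K
  | image (h m n : ℕ) (K : Set (E m)) (B : E m →ₗ[ℝ] E n) (w : E n) : m ≤ n + r →
      Function.Surjective B → Cz A Q ε d r h m K →
      Cz A Q ε d r (h + 1) n ((fun x => w + B x) '' K)
  | lift (h m n : ℕ) (K : Set (E m)) (B : E m →ₗ[ℝ] E n) : m ≤ n + r →
      Function.Surjective B → IsCompact K → Convex ℝ K → (interior K).Nonempty →
      Cz A Q ε d r h n (B '' K) → Cz A Q ε d r (h + 1) m K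
  | fibred (h N j n : ℕ) (K : Set (E n)) (e : (E N × E j) ≃ₗ[ℝ] E n) : j ≤ d → IsCompact K →
      Convex ℝ K → (interior K).Nonempty →
      (∀ t, volume (sl (e ⁻¹' K) t) ≠ 0 → Cz A Q ε d r h N (sl (e ⁻¹' K) t)) →
      Cz A Q ε d r (h + 1) n K
  | cent (h N M n : ℕ) (K : Set (E n)) (e : (E N × E M) ≃ₗ[ℝ] E n) : IsCompact K →
      Convex ℝ K → (interior K).Nonempty →
      (∀ t, volume (sl (e ⁻¹' K) t) ≠ 0 → Cz A Q ε d r h N (sl (e ⁻¹' K) t)) →
      (∀ t, volume (sl (e ⁻¹' K) t) ≠ 0 → ∀ θ : E N,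
        ∫ x, ⟪x, θ⟫_ℝ ∂(un (sl (e ⁻¹' K) t)) = 0) →
      (∃ q : E M → ℝ, QC Q (e ⁻¹' K) q) → (∀ δ : ℝ, 0 < δ → KM (A δ) δ (bl (e ⁻¹' K))) →
      Cz A Q ε d r (h + 1) n K
  | cent' (h N M n m : ℕ) (K : Set (E n)) (e : (E N × E M) ≃ₗ[ℝ] E n) (K' : Set (E m))
      (L : E m →ₗ[ℝ] E M) : IsCompact K →
      Convex ℝ K → (interior K).Nonempty →
      (∀ t, volume (sl (e ⁻¹' K) t) ≠ 0 → Cz A Q ε d r h N (sl (e ⁻¹' K) t)) →
      (∀ t, volume (sl (e ⁻¹' K) t) ≠ 0 → ∀ θ : E N,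
        ∫ x, ⟪x, θ⟫_ℝ ∂(un (sl (e ⁻¹' K) t)) = 0) →
      (∃ q : E M → ℝ, QC Q (e ⁻¹' K) q) → Cz A Q ε d r h m K' →
      bl (e ⁻¹' K) = Measure.map L (un K') → Cz A Q ε d r (h + 1) n K
  | sec (h N j n : ℕ) (K : Set (E n)) (e : (E N × E j) ≃ₗ[ℝ] E n) (t : E j) : j ≤ d →
      Cz A Q ε d r h n K → (∀ t', ε * Rv (e ⁻¹' K) t' ≤ Rv (e ⁻¹' K) t) →
      Cz A Q ε d r (h + 1) N (sl (e ⁻¹' K) t)
  | bar (h N j n : ℕ) (K : Set (E n)) (e : (E N × E j) ≃ₗ[ℝ] E n) (t : E j) : j ≤ d →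
      Cz A Q ε d r h n K → (∀ θ : E j, ∫ z, ⟪z.2, θ⟫_ℝ ∂(un (e ⁻¹' K)) = ⟪t, θ⟫_ℝ) →
      Cz A Q ε d r (h + 1) N (sl (e ⁻¹' K) t)

/-- concentration for all bodies of the class -/
theorem cz_cc (hS : S_SECE) (hB : S_BAR) (hcc : S_CC) (hli : S_LIFT) (hC : S_CCB) (hK : S_KWC)
    (A : ℝ → ℝ) (Q ε : ℝ) (hQ : 0 < Q) (hε : 0 < ε) (d r h : ℕ) : ∀ δ : ℝ, 0 < δ → ∃ κ : ℝ, 0 < κ ∧
    ∀ (n : ℕ) (K : Set (E n)), Cz A Q ε d r h n K → IsCompact K ∧ Convex ℝ K ∧
      (interior K).Nonempty ∧ CcW κ δ (ind K) := by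
  induction h with
  | zero =>
    intro δ hδ
    have hA : 0 < max (A (δ / 2)) 1 := lt_max_of_lt_right one_pos
    refine ⟨Real.sqrt (δ / (2 * max (A (δ / 2)) 1)), Real.sqrt_pos.2 (by positivity),
      fun n K hK => ?_⟩
    cases hK with
    | base _ _ h1 h2 h3 h4 =>
      exact ⟨h1, h2, h3, cc_of_km hA hδ h1 h3
        (km_mono (le_max_left _ _) le_rfl (h4 (δ / 2) (by positivity)))⟩
  | succ h ih =>
    intro δ hδ
    obtain ⟨κ0, hκ0, H0⟩ := ih δ hδ
    -- images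
    obtain ⟨κ1, hκ1, H1⟩ := min_const (P := fun j κ => ∀ (n : ℕ) (K : Set (E (n + j)))
        (B : E (n + j) →ₗ[ℝ] E n), Function.Surjective B → Cz A Q ε d r h (n + j) K →
        CcW κ δ (ind (B '' K)))
      (fun j => by
        obtain ⟨δ0, c, hδ0, hc, H1⟩ := Pool.Agent.Y506.PV.cc_img Pool.Agent.Y941.PV.prj
          Pool.Agent.Y506.PV.denR Pool.Agent.Y388.PV.cmp Pool.Agent.Y388.PV.fac j δ hδ
        obtain ⟨κ, hκ, H2⟩ := ih δ0 hδ0
        refine ⟨c * κ, by positivity, fun n K B hB hK => ?_⟩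
        obtain ⟨h1, h2, h3, h4⟩ := H2 _ K hK
        exact H1 n κ K B hκ h1 h2 h3 hB h4)
      (fun j κ κ' hκκ hP n K B hB hK => (hP n K B hB hK).mono hκκ) r
    -- fibrations
    obtain ⟨κ2, hκ2, H2⟩ := min_const (P := fun j κ => ∀ (N n : ℕ) (e : (E N × E j) ≃ₗ[ℝ] E n)
        (K : Set (E N × E j)), CB K →
        (∀ t, volume (sl K t) ≠ 0 → Cz A Q ε d r h N (sl K t)) → CcW κ δ (ind (e '' K)))
      (fun j => by
        obtain ⟨δ', hδ', H3⟩ := hcc j δ hδ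
        obtain ⟨κ, hκ, H2⟩ := ih δ' hδ'
        obtain ⟨κ', hκ', H4⟩ := H3 κ hκ
        exact ⟨κ', hκ', fun N n e K hF hK => H4 N n e K hF fun t ht => (H2 _ _ (hK t ht)).2.2.2⟩)
      (fun j κ κ' hκκ hP N n e K hF hK => (hP N n e K hF hK).mono hκκ) d
    -- adding dimensions
    obtain ⟨κ4, hκ4, H4⟩ := min_const (P := fun j κ => ∀ (n : ℕ) (K : Set (E (n + j)))
        (B : E (n + j) →ₗ[ℝ] E n), Function.Surjective B → IsCompact K → Convex ℝ K →
        (interior K).Nonempty → Cz A Q ε d r h n (B '' K) → CcW κ δ (ind K))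
      (fun j => by
        obtain ⟨δ0, hδ0, H1⟩ := hli j δ hδ
        obtain ⟨κ, hκ, H2⟩ := ih δ0 hδ0
        obtain ⟨κ', hκ', H4⟩ := H1 κ hκ
        exact ⟨κ', hκ', fun n K B hB h1 h2 h3 hK => H4 n K B hB h1 h2 h3 (H2 _ _ hK).2.2.2⟩)
      (fun j κ κ' hκκ hP n K B hB h1 h2 h3 hK => (hP n K B hB h1 h2 h3 hK).mono hκκ) r
    -- sections of large volume
    obtain ⟨κ5, hκ5, H8⟩ := min_const (P := fun j κ => ∀ (N n : ℕ) (e : (E N × E j) ≃ₗ[ℝ] E n)
        (K : Set (E N × E j)) (t : E j), CB K → (∀ t', ε * Rv K t' ≤ Rv K t) →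
        Cz A Q ε d r h n (e '' K) → CcW κ δ (ind (sl K t)))
      (fun j => by
        obtain ⟨δ', hδ', H1⟩ := hS j ε hε
        obtain ⟨κ, hκ, H2⟩ := ih δ' hδ'
        obtain ⟨κ', hκ', H4⟩ := H1 κ δ hκ hδ
        exact ⟨κ', hκ', fun N n e K t hF ht hK => H4 N n e K t hF ht (H2 _ _ hK).2.2.2⟩)
      (fun j κ κ' hκκ hP N n e K t hF ht hK => (hP N n e K t hF ht hK).mono hκκ) d
    -- sections through the barycentre
    obtain ⟨κ6, hκ6, H9⟩ := min_const (P := fun j κ => ∀ (N n : ℕ) (e : (E N × E j) ≃ₗ[ℝ] E n)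
        (K : Set (E N × E j)) (t : E j), CB K →
        (∀ θ : E j, ∫ z, ⟪z.2, θ⟫_ℝ ∂(un K) = ⟪t, θ⟫_ℝ) →
        Cz A Q ε d r h n (e '' K) → CcW κ δ (ind (sl K t)))
      (fun j => by
        obtain ⟨c, hc, Hb⟩ := hB j
        obtain ⟨δ', hδ', H1⟩ := hS j (Real.exp (-c)) (Real.exp_pos _)
        obtain ⟨κ, hκ, H2⟩ := ih δ' hδ'
        obtain ⟨κ', hκ', H4⟩ := H1 κ δ hκ hδ
        refine ⟨κ', hκ', fun N n e K t hF ht hK => H4 N n e K t hF (fun t' => ?_)
          (H2 _ _ hK).2.2.2⟩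
        obtain ⟨h1, h2⟩ := Hb N K t hF ht
        exact bar_large hc h1 h2 t')
      (fun j κ κ' hκκ hP N n e K t hF ht hK => (hP N n e K t hF ht hK).mono hκκ) d
    -- centred fibrations
    obtain ⟨δ', hδ', H3⟩ := hC δ hδ
    obtain ⟨κ', hκ', H5⟩ := ih (δ' / 17) (by positivity)
    obtain ⟨A0, hA0, HK⟩ := hK κ' (δ' / 17) hκ' (by positivity)
    obtain ⟨κ3, hκ3, H6⟩ := H3 κ' (max A0 (A δ')) Q hκ' (lt_max_of_lt_left hA0) hQ
    refine ⟨min (min (min κ0 κ4) (min κ1 (min κ2 κ3))) (min κ5 κ6),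
      lt_min (lt_min (lt_min hκ0 hκ4) (lt_min hκ1 (lt_min hκ2 hκ3))) (lt_min hκ5 hκ6),
      fun n K hK => ?_⟩
    cases hK with
    | up _ _ _ hK =>
      obtain ⟨h1, h2, h3, h4⟩ := H0 n K hK
      exact ⟨h1, h2, h3, h4.mono ((min_le_left _ _).trans
        ((min_le_left _ _).trans (min_le_left _ _)))⟩
    | image _ m _ K B w hm hB hK =>
      obtain ⟨h1, h2, h3, -⟩ := H0 m K hK
      have hBc : Continuous B := B.continuous_of_finiteDimensional
      have e : (fun x => w + B x) '' K = (fun x => w + x) '' (B '' K) := by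
        rw [image_image]
      have hnm : n ≤ m := by
        have := LinearMap.finrank_le_finrank_of_surjective (f := B) hB
        simpa using this
      obtain ⟨j, rfl⟩ : ∃ j, m = n + j := ⟨m - n, by omega⟩
      have i1 : IsCompact (B '' K) := h1.image hBc
      have i3 := Pool.Agent.Y506.PV.int_image h3 B hB
      rw [e]
      refine ⟨i1.image (by fun_prop), (h2.linear_image B).translate w, int_trans i3 w, ?_⟩
      exact (cc_trans _ i1 i3 w (H1 j (by omega) n K B hB hK)).mono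
        ((min_le_left _ _).trans ((min_le_right _ _).trans (min_le_left _ _)))
    | lift _ _ n' _ B hm hB hc hcv hi hK =>
      refine ⟨hc, hcv, hi, ?_⟩
      have hnm : n' ≤ n := by
        have := LinearMap.finrank_le_finrank_of_surjective (f := B) hB
        simpa using this
      obtain ⟨j, rfl⟩ : ∃ j, n = n' + j := ⟨n - n', by omega⟩
      exact (H4 j (by omega) n' K B hB hc hcv hi hK).mono
        ((min_le_left _ _).trans ((min_le_left _ _).trans (min_le_right _ _)))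
    | fibred _ N j _ K e hj hc hcv hi hfib =>
      refine ⟨hc, hcv, hi, ?_⟩
      have h3 := H2 j hj N n e (e ⁻¹' K) (cb_pre e hc hcv hi) hfib
      rw [image_preimage_eq K e.surjective] at h3
      exact h3.mono ((min_le_left _ _).trans
        ((min_le_right _ _).trans ((min_le_right _ _).trans (min_le_left _ _))))
    | cent _ N M _ K e hc hcv hi hfib hcen hq hb =>
      refine ⟨hc, hcv, hi, ?_⟩
      have h3 := H6 N M n e (e ⁻¹' K) (cb_pre e hc hcv hi)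
        (fun t ht => ⟨ccw_mono (H5 _ _ (hfib t ht)).2.2.2 (by linarith), hcen t ht⟩) hq
        (km_mono (le_max_right _ _) le_rfl (hb δ' hδ'))
      rw [image_preimage_eq K e.surjective] at h3
      exact h3.mono ((min_le_left _ _).trans
        ((min_le_right _ _).trans ((min_le_right _ _).trans (min_le_right _ _))))
    | cent' _ N M _ m K e K' L hc hcv hi hfib hcen hq hK' hb =>
      refine ⟨hc, hcv, hi, ?_⟩
      obtain ⟨k1, k2, k3, k4⟩ := H5 _ _ hK'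
      have h4 := HK m K' k1 k2 k3 k4
      rw [mul_div_cancel₀ _ (by norm_num : (17 : ℝ) ≠ 0)] at h4
      have h5 := km_map h4 L
      rw [← hb] at h5
      have h3 := H6 N M n e (e ⁻¹' K) (cb_pre e hc hcv hi)
        (fun t ht => ⟨ccw_mono (H5 _ _ (hfib t ht)).2.2.2 (by linarith), hcen t ht⟩) hq
        (km_mono (le_max_left _ _) le_rfl h5)
      rw [image_preimage_eq K e.surjective] at h3
      exact h3.mono ((min_le_left _ _).trans
        ((min_le_right _ _).trans ((min_le_right _ _).trans (min_le_right _ _))))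
    | sec _ _ j m K e t hj hK ht =>
      obtain ⟨k1, k2, k3, -⟩ := H0 m K hK
      have hF := cb_pre e k1 k2 k3
      have hv := large_pos hε hF ht
      refine ⟨Pool.Agent.R755.KF.sl_comp hF t, Pool.Agent.R755.KF.sl_conv hF t, Pool.Agent.R755.KF.int_of_vol (Pool.Agent.R755.KF.sl_conv hF t) hv, ?_⟩
      have h3 := H8 j hj n m e (e ⁻¹' K) t hF ht (by rwa [image_preimage_eq K e.surjective])
      exact h3.mono ((min_le_right _ _).trans (min_le_left _ _))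
    | bar _ _ j m K e t hj hK ht =>
      obtain ⟨k1, k2, k3, -⟩ := H0 m K hK
      have hF := cb_pre e k1 k2 k3
      obtain ⟨cb, -, Hb⟩ := hB j
      have hv := vol_ne_of_pos (Hb n (e ⁻¹' K) t hF ht).1
      refine ⟨Pool.Agent.R755.KF.sl_comp hF t, Pool.Agent.R755.KF.sl_conv hF t, Pool.Agent.R755.KF.int_of_vol (Pool.Agent.R755.KF.sl_conv hF t) hv, ?_⟩
      have h3 := H9 j hj n m e (e ⁻¹' K) t hF ht (by rwa [image_preimage_eq K e.surjective])
      exact h3.mono ((min_le_right _ _).trans (min_le_right _ _))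

/-- the functional inequality for all bodies of the class -/
theorem czR (hS : S_SECE) (A : ℝ → ℝ) (Q ε : ℝ) (hQ : 0 < Q) (hε : 0 < ε) (d r h : ℕ) : ∃ c : ℝ, 0 < c ∧
    ∀ (n : ℕ) (K : Set (E n)), Cz A Q ε d r h n K → IsCompact K ∧ Convex ℝ K ∧
      (interior K).Nonempty ∧ Star c (ind K) := by
  obtain ⟨κ, hκ, H⟩ := cz_cc hS barR ccR liftR ccbR kw_of_cc A Q ε hQ hε d r h (1 / 25) (by norm_num)
  obtain ⟨c, hc, H'⟩ := Pool.Agent.Y506.PV.stb Pool.Agent.Y211.PV.iso κ hκ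
  refine ⟨c, hc, fun n K hK => ?_⟩
  obtain ⟨h1, h2, h3, h4⟩ := H n K hK
  exact ⟨h1, h2, h3, H' n K h1 h2 h3 h4⟩

end Pool.Agent.N483.KM
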