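import Pool.Agent.N483.KM.StmW

/-!
# Log-concave weights: sections, products, barycentres
-/

set_option autoImplicit false

namespace Pool.Agent.N483.KM

open MeasureTheory Set Filter Topology
open scoped ENNReal InnerProductSpace
open Pool.Agent.R754.KG (E)
open Pool.Agent.Y506.PV (CcW ind LCn)
open Pool.Agent.Y506.RG (EW VW Adm)

/-- Z1: sections -/
def S_LSE : Prop := ∀ (N j n : ℕ) (e : (E N × E j) ≃ₗ[ℝ] E n) (w : E n → ℝ) (t : E j), LW w →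
  Integrable (fun x => w (e (x, t))) ∧
  ((∃ t', ∫⁻ x, ENNReal.ofReal (w (e (x, t'))) ≠ 0)) ∧
  (0 < ∫ x, w (e (x, t)) → LW fun x => w (e (x, t)))

/-- Z2: products -/
def S_LPR : Prop := ∀ (a b n : ℕ) (e : (E a × E b) ≃ₗ[ℝ] E n) (w : E a → ℝ) (u : E b → ℝ), LW w →
  LW u → LW fun z => w (e.symm z).1 * u (e.symm z).2

/-- Z3: bodies -/
def S_LBO : Prop := ∀ (n : ℕ) (K : Set (E n)), IsCompact K → Convex ℝ K → (interior K).Nonempty →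
  LW (ind K)

/-- Z4: the section over the barycentre is not much smaller than the others -/
def S_WBR : Prop := ∀ (N j n : ℕ) (e : (E N × E j) ≃ₗ[ℝ] E n) (w : E n → ℝ) (t : E j), LW w →
  (∀ θ : E j, EW w (fun z => ⟪(e.symm z).2, θ⟫_ℝ) = ⟪t, θ⟫_ℝ) →
  ∀ t', Real.exp (-j) * ∫ x, w (e (x, t')) ≤ ∫ x, w (e (x, t))

/-- Z5: if the concentration holds for all `δ`, then so does a weak Poincaré inequality -/
def S_WKM : Prop := ∀ κ : ℝ → ℝ, (∀ δ, 0 < δ → 0 < κ δ) → ∃ A : ℝ → ℝ, ∀ (n : ℕ) (w : E n → ℝ),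
  LW w → (∀ δ, 0 < δ → CcW (κ δ) δ w) → ∀ δ : ℝ, 0 < δ → ∀ (k : ℕ) (P : E n →ₗ[ℝ] E k) (s : ℝ),
  0 < s → (∀ θ : E k, ‖θ‖ = 1 → VW w (fun x => ⟪P x, θ⟫_ℝ) ≤ s) →
  ∀ (v : E k → ℝ) (C : ℝ), ContDiff ℝ 1 v → (∀ y, |v y| ≤ 1) → (∀ y, ‖fderiv ℝ v y‖ ≤ C) →
  VW w (fun x => v (P x)) ≤ δ + A δ * s * EW w fun x => ‖fderiv ℝ v (P x)‖ ^ 2

end Pool.Agent.N483.KM
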