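import Pool.Agent.N483.KM.StmX
import Pool.Agent.N483.KM.StmZ
import Pool.Agent.R755.KS.Mrg
import Pool.Agent.Y506.RG.Fin

/-!
# A class of log-concave weights
-/

set_option autoImplicit false

namespace Pool.Agent.N483.KM

open MeasureTheory Set Filter Topology
open scoped ENNReal InnerProductSpace
open Pool.Agent.R754.KG (E min_const)
open Pool.Agent.Y506.PV (CcW ind LCn)
open Pool.Agent.Y506.RG (EW VW Adm Star)

/-! ### translations -/

open Pool.Agent.W695.KH (Sm)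

theorem ew_shift {n : ℕ} (w v : E n → ℝ) (a : E n) :
    EW (fun x => w (a + x)) (fun x => v (a + x)) = EW w v := by
  unfold EW
  rw [integral_add_left_eq_self (fun x => v x * w x) a, integral_add_left_eq_self w a]

theorem vw_shift {n : ℕ} (w v : E n → ℝ) (a : E n) :
    VW (fun x => w (a + x)) (fun x => v (a + x)) = VW w v := by
  unfold VW
  rw [ew_shift w v, ew_shift w fun x => v x ^ 2]

theorem adm_shift {n : ℕ} {w : E n → ℝ} {a : E n} (h : Adm fun x => w (a + x)) : Adm w := by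
  have hm : Measurable w := by
    have h1 := h.meas.comp (measurable_const_add (-a))
    refine (congrArg Measurable (funext fun x => ?_)).mp h1
    simp [Function.comp]
  refine ⟨fun x => ?_, ?_, ?_, hm⟩
  · have := h.nonneg (-a + x)
    simpa using this
  · have h1 : Integrable fun x => (1 + ‖a + x‖ ^ 2) * w (a + x) := by
      refine Integrable.mono' (h.int.const_mul (2 * (1 + ‖a‖ ^ 2))) ?_
        (Eventually.of_forall fun x => ?_)
      · exact (by fun_prop : Measurable fun x : E n => 1 + ‖a + x‖ ^ 2).aestronglyMeasurable.mul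
          h.meas.aestronglyMeasurable
      · rw [Real.norm_eq_abs, abs_of_nonneg (mul_nonneg (by positivity) (h.nonneg x))]
        have h2 : ‖a + x‖ ≤ ‖a‖ + ‖x‖ := norm_add_le a x
        have h3 : 1 + ‖a + x‖ ^ 2 ≤ 2 * (1 + ‖a‖ ^ 2) * (1 + ‖x‖ ^ 2) := by
          have h4 : ‖a + x‖ ^ 2 ≤ (‖a‖ + ‖x‖) ^ 2 := pow_le_pow_left₀ (norm_nonneg _) h2 2
          nlinarith [sq_nonneg (‖a‖ - ‖x‖), sq_nonneg (‖a‖ * ‖x‖)]
        calc _ ≤ 2 * (1 + ‖a‖ ^ 2) * (1 + ‖x‖ ^ 2) * w (a + x) :=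
              mul_le_mul_of_nonneg_right h3 (h.nonneg x)
          _ = _ := by ring
    have h5 := h1.comp_add_left (-a)
    refine h5.congr (Eventually.of_forall fun x => ?_)
    simp
  · have h1 := h.pos
    rwa [integral_add_left_eq_self w a] at h1

theorem star_shift {n : ℕ} {c : ℝ} {w : E n → ℝ} {a : E n} (hA : Adm w)
    (h : Star c fun x => w (a + x)) : Star c w := by
  intro k T s hs hvar f L M hf hf1 hv
  have hT : Continuous T := T.continuous_of_finiteDimensional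
  have hf' : Sm (fun y => f (T a + y)) L M := by
    refine ⟨fun x => hf.bdd _, hf.diff.comp (contDiff_const.add contDiff_id), fun x => ?_,
      fun x y => ?_⟩
    · rw [fderiv_comp_add_left]
      exact hf.grad _
    · rw [fderiv_comp_add_left, fderiv_comp_add_left]
      refine (hf.lip _ _).trans (le_of_eq ?_)
      congr 2
      abel
  have e1 : VW (fun x => w (a + x)) (fun x => f (T a + T x)) = VW w fun x => f (T x) := by
    rw [← vw_shift w (fun x => f (T x)) a]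
    simp only [map_add]
  have hvar' : ∀ θ : E k, ‖θ‖ = 1 → VW (fun x => w (a + x)) (fun x => ⟪T x, θ⟫_ℝ) ≤ s := by
    intro θ hθ
    refine le_trans (le_of_eq ?_) (hvar θ hθ)
    have h0 : VW (fun x => w (a + x)) (fun x => ⟪T x, θ⟫_ℝ) =
        VW w fun x => ⟪T x, θ⟫_ℝ + -⟪T a, θ⟫_ℝ := by
      rw [← vw_shift w (fun x => ⟪T x, θ⟫_ℝ + -⟪T a, θ⟫_ℝ) a]
      congr 1
      funext x
      rw [map_add, inner_add_left]
      ring
    obtain ⟨C, hC⟩ : ∃ C : ℝ, ∀ x, |⟪T x, θ⟫_ℝ| ≤ C * ‖x‖ := by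
      refine ⟨‖LinearMap.toContinuousLinearMap T‖, fun x => ?_⟩
      refine (abs_real_inner_le_norm _ _).trans ?_
      rw [hθ, mul_one]
      exact (LinearMap.toContinuousLinearMap T).le_opNorm x
    have hC0 : ∀ x : E n, |⟪T x, θ⟫_ℝ| ≤ |C| * ‖x‖ := fun x => (hC x).trans
      (mul_le_mul_of_nonneg_right (le_abs_self C) (norm_nonneg x))
    rw [h0]
    refine Pool.Agent.Y506.RG.VW_add_const hA _ ?_ ?_ _
    · refine hA.of_bd _ (by fun_prop) |C| fun x => (hC0 x).trans ?_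
      refine mul_le_mul_of_nonneg_left ?_ (abs_nonneg C)
      nlinarith [sq_nonneg (‖x‖ - 1), norm_nonneg x]
    · refine hA.of_bd _ (by fun_prop) (|C| ^ 2) fun x => ?_
      rw [abs_of_nonneg (by positivity)]
      have h1 := pow_le_pow_left₀ (abs_nonneg _) (hC0 x) 2
      rw [sq_abs, mul_pow] at h1
      refine h1.trans (mul_le_mul_of_nonneg_left ?_ (by positivity))
      linarith
  have h1 := h k T s hs hvar' _ L M hf' (fun x => hf1 _) (by rw [e1]; exact hv)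
  rw [e1] at h1
  refine h1.trans (le_of_eq ?_)
  rw [← ew_shift w (fun x => ‖fderiv ℝ f (T x)‖) a]
  congr 2
  funext x
  rw [fderiv_comp_add_left, map_add]

theorem adm_shift' {n : ℕ} {w : E n → ℝ} (h : Adm w) (a : E n) : Adm fun x => w (a + x) := by
  refine adm_shift (a := -a) ?_
  refine (congrArg Adm (funext fun x => ?_)).mpr h
  simp

theorem lw_shift {n : ℕ} {w : E n → ℝ} (h : LW w) (a : E n) : LW fun x => w (a + x) := by
  refine ⟨adm_shift' h.adm a, fun x y t ht ht1 => ?_, fun c hc => ?_, ?_⟩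
  · have h1 := h.lc (a + x) (a + y) t ht ht1
    have h2 : (1 - t) • (a + x) + t • (a + y) = a + ((1 - t) • x + t • y) := by
      module
    rwa [h2] at h1
  · have h1 : {x | c ≤ w (a + x)} = (fun x => -a + x) '' {x | c ≤ w x} := by
      ext x
      constructor
      · intro hx
        exact ⟨a + x, hx, by simp⟩
      · rintro ⟨y, hy, rfl⟩
        have h2 : c ≤ w (a + (-a + y)) := by
          rw [add_neg_cancel_left]
          exact hy
        exact h2
    rw [h1]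
    exact (h.comp c hc).image (by fun_prop)
  · obtain ⟨B, hB⟩ := h.bdd
    exact ⟨B, fun x => hB _⟩

theorem ccw_shift {n : ℕ} {κ δ : ℝ} {w : E n → ℝ} (a : E n) (hA : Adm w) (h : CcW κ δ w) :
    CcW κ δ fun x => w (a + x) := by
  intro k hk T s hs hvar v hv hv1 hvl
  have hT : Continuous T := T.continuous_of_finiteDimensional
  have e1 : VW (fun x => w (a + x)) (fun x => v (T x)) = VW w fun x => v (-T a + T x) := by
    rw [← vw_shift w (fun x => v (-T a + T x)) a]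
    congr 1
    funext x
    rw [map_add, neg_add_cancel_left]
  rw [e1]
  refine h k hk T s hs (fun θ hθ => ?_) (fun y => v (-T a + y)) (by fun_prop) (fun y => hv1 _)
    fun y => ?_
  · refine le_trans (le_of_eq ?_) (hvar θ hθ)
    have h0 : VW (fun x => w (a + x)) (fun x => ⟪T x, θ⟫_ℝ) =
        VW w fun x => ⟪T x, θ⟫_ℝ + -⟪T a, θ⟫_ℝ := by
      rw [← vw_shift w (fun x => ⟪T x, θ⟫_ℝ + -⟪T a, θ⟫_ℝ) a]
      congr 1
      funext x
      rw [map_add, inner_add_left]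
      ring
    obtain ⟨i1, i2⟩ := Pool.Agent.Y506.RG.lin_int hA (fun x => ⟪T x, θ⟫_ℝ) (by fun_prop)
      ‖LinearMap.toContinuousLinearMap T‖ (fun x => by
        refine (abs_real_inner_le_norm _ _).trans ?_
        rw [hθ, mul_one]
        refine ((LinearMap.toContinuousLinearMap T).le_opNorm x).trans ?_
        exact mul_le_mul_of_nonneg_left (by linarith) (norm_nonneg _))
    rw [h0, Pool.Agent.Y506.RG.VW_add_const hA _ i1 i2]
  · rw [fderiv_comp_add_left]
    exact hvl _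

/-- weak Poincaré inequality for all linear images of a weight -/
def KMW (A δ : ℝ) {n : ℕ} (w : E n → ℝ) : Prop := ∀ (k : ℕ) (P : E n →ₗ[ℝ] E k) (s : ℝ),
  0 < s → (∀ θ : E k, ‖θ‖ = 1 → VW w (fun x => ⟪P x, θ⟫_ℝ) ≤ s) →
  ∀ (v : E k → ℝ) (C : ℝ), ContDiff ℝ 1 v → (∀ y, |v y| ≤ 1) → (∀ y, ‖fderiv ℝ v y‖ ≤ C) →
  VW w (fun x => v (P x)) ≤ δ + A * s * EW w fun x => ‖fderiv ℝ v (P x)‖ ^ 2

/-- the class of weights -/
inductive MC (A : ℝ → ℝ) (ε : ℝ) (d : ℕ) : ℕ → ∀ n : ℕ, (E n → ℝ) → Prop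
  | base (n : ℕ) (w : E n → ℝ) : LW w → (∀ δ : ℝ, 0 < δ → KMW (A δ) δ w) → MC A ε d 0 n w
  | up (h n : ℕ) (w : E n → ℝ) : MC A ε d h n w → MC A ε d (h + 1) n w
  | shift (h n : ℕ) (w : E n → ℝ) (a : E n) : MC A ε d h n w →
      MC A ε d (h + 1) n fun x => w (a + x)
  | marg (h m n : ℕ) (w : E m → ℝ) (u : E n → ℝ) (T : E m →ₗ[ℝ] E n) : Function.Surjective T →
      LW u → (∀ F : E n → ℝ, Continuous F → EW u F = EW w fun x => F (T x)) → MC A ε d h m w →
      MC A ε d (h + 1) n u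
  | proj (h m n : ℕ) (w : E m → ℝ) (u : E n → ℝ) (T : E m →ₗ[ℝ] E n) : Function.Surjective T →
      m ≤ n + d → LW u → (∀ c : ℝ, 0 < c → {x | c ≤ u x} = T '' {x | c ≤ w x}) →
      MC A ε d h m w → MC A ε d (h + 1) n u
  | lift (h m n : ℕ) (w : E m → ℝ) (u : E n → ℝ) (T : E m →ₗ[ℝ] E n) : Function.Surjective T →
      m ≤ n + d → LW w → (∀ c : ℝ, 0 < c → {x | c ≤ u x} = T '' {x | c ≤ w x}) →
      MC A ε d h n u → MC A ε d (h + 1) m w
  | sec (h N j n : ℕ) (e : (E N × E j) ≃ₗ[ℝ] E n) (w : E n → ℝ) (t : E j) : j ≤ d →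
      MC A ε d h n w → LW (fun x : E N => w (e (x, t))) →
      (∀ t', ε * ∫ x, w (e (x, t')) ≤ ∫ x, w (e (x, t))) →
      MC A ε d (h + 1) N fun x : E N => w (e (x, t))
  | ext (h N j n : ℕ) (e : (E N × E j) ≃ₗ[ℝ] E n) (w : E n → ℝ) (t : E j) : j ≤ d → LW w →
      MC A ε d h N (fun x : E N => w (e (x, t))) →
      (∀ t', ε * ∫ x, w (e (x, t')) ≤ ∫ x, w (e (x, t))) → MC A ε d (h + 1) n w
  | tilt (h N j n : ℕ) (e : (E N × E j) ≃ₗ[ℝ] E n) (w : E n → ℝ) (φ : E j → ℝ) : j ≤ d → LW w →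
      (∀ t, 0 ≤ φ t) → LCn φ → LW (fun z => w z * φ (e.symm z).2) →
      (∀ a : E j, MC A ε d h n fun z => w z * Real.exp ⟪a, (e.symm z).2⟫_ℝ) →
      MC A ε d (h + 1) n fun z => w z * φ (e.symm z).2
  | prod (h a b n : ℕ) (e : (E a × E b) ≃ₗ[ℝ] E n) (w : E a → ℝ) (u : E b → ℝ) :
      MC A ε d h a w → MC A ε d h b u → MC A ε d (h + 1) n fun z => w (e.symm z).1 * u (e.symm z).2

theorem ccw_mn {n : ℕ} {κ κ' δ : ℝ} {w : E n → ℝ} (hκ : κ' ≤ κ) (h : CcW κ δ w) : CcW κ' δ w := by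
  intro k hk T s hs hvar v hv hv1 hvl
  exact h k hk T s hs hvar v hv hv1 fun y => (hvl y).trans
    (div_le_div_of_nonneg_right hκ (Real.sqrt_nonneg s))

/-- concentration from the weak Poincaré inequality -/
theorem cc_of_kmw {A δ : ℝ} (hA : 0 < A) (hδ : 0 < δ) {n : ℕ} {w : E n → ℝ} (hw : Adm w)
    (h : KMW A (δ / 2) w) : CcW (Real.sqrt (δ / (2 * A))) δ w := by
  intro k hk T s hs hvar v hv hv1 hvl
  have h1 := h k T s hs hvar v _ hv hv1 hvl
  have hT : Continuous T := T.continuous_of_finiteDimensional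
  have hfc : Continuous (fderiv ℝ v) := hv.continuous_fderiv one_ne_zero
  have h2 : EW w (fun x => ‖fderiv ℝ v (T x)‖ ^ 2) ≤ δ / (2 * A) / s := by
    have h3 : ∀ x, ‖fderiv ℝ v (T x)‖ ^ 2 ≤ δ / (2 * A) / s := by
      intro x
      have h4 := pow_le_pow_left₀ (norm_nonneg _) (hvl (T x)) 2
      rw [div_pow, Real.sq_sqrt (by positivity), Real.sq_sqrt hs.le] at h4
      exact h4
    unfold EW
    rw [div_le_iff₀ hw.pos, ← integral_const_mul]
    refine integral_mono ?_ (hw.one.const_mul _) fun x =>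
      mul_le_mul_of_nonneg_right (h3 x) (hw.nonneg x)
    refine hw.bdd _ (by fun_prop) (δ / (2 * A) / s) fun x => ?_
    rw [abs_of_nonneg (by positivity)]
    exact h3 x
  have h5 : A * s * (δ / (2 * A) / s) = δ / 2 := by
    field_simp
  have h6 := mul_le_mul_of_nonneg_left h2 (by positivity : 0 ≤ A * s)
  linarith

/-- concentration for all weights of the class -/
theorem mc_cc (hWIM : S_WIM) (hWLF : S_WLF) (hWSE : S_WSE) (hWEX : S_WEX) (hWTL : S_WTL)
    (hPRW : S_PRW) (hLPR : S_LPR) (A : ℝ → ℝ) (ε : ℝ) (hε : 0 < ε) (d h : ℕ) :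
    ∀ δ : ℝ, 0 < δ → ∃ κ : ℝ, 0 < κ ∧ ∀ (n : ℕ) (w : E n → ℝ), MC A ε d h n w → LW w ∧
      CcW κ δ w := by
  induction h with
  | zero =>
    intro δ hδ
    have hA : 0 < max (A (δ / 2)) 1 := lt_max_of_lt_right one_pos
    refine ⟨Real.sqrt (δ / (2 * max (A (δ / 2)) 1)), Real.sqrt_pos.2 (by positivity),
      fun n w hw => ?_⟩
    cases hw with
    | base _ _ h1 h2 =>
      refine ⟨h1, cc_of_kmw hA hδ h1.adm ?_⟩
      intro k P s hs hvar v C hv hv1 hvl
      refine (h2 (δ / 2) (by positivity) k P s hs hvar v C hv hv1 hvl).trans ?_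
      have h3 : 0 ≤ EW w fun x => ‖fderiv ℝ v (P x)‖ ^ 2 :=
        div_nonneg (integral_nonneg fun x => mul_nonneg (by positivity) (h1.adm.nonneg x))
          h1.adm.pos.le
      have h4 : A (δ / 2) * s ≤ max (A (δ / 2)) 1 * s :=
        mul_le_mul_of_nonneg_right (le_max_left _ _) hs.le
      have h5 := mul_le_mul_of_nonneg_right h4 h3
      linarith
  | succ h ih =>
    intro δ hδ
    obtain ⟨κ0, hκ0, H0⟩ := ih δ hδ
    -- projections
    obtain ⟨δ1, hδ1, G1⟩ := hWIM d δ hδ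
    obtain ⟨κ1', hκ1', K1⟩ := ih δ1 hδ1
    obtain ⟨κ1, hκ1, H1⟩ := G1 κ1' hκ1'
    -- lifts
    obtain ⟨δ2, hδ2, G2⟩ := hWLF d δ hδ
    obtain ⟨κ2', hκ2', K2⟩ := ih δ2 hδ2
    obtain ⟨κ2, hκ2, H2⟩ := G2 κ2' hκ2'
    -- sections
    obtain ⟨κ3, hκ3, H3⟩ := min_const (P := fun j κ => ∀ (N n : ℕ) (e : (E N × E j) ≃ₗ[ℝ] E n)
        (w : E n → ℝ) (t : E j), MC A ε d h n w → LW (fun x : E N => w (e (x, t))) →
        (∀ t', ε * ∫ x, w (e (x, t')) ≤ ∫ x, w (e (x, t))) →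
        CcW κ δ fun x : E N => w (e (x, t))) (fun j => by
      obtain ⟨δ', hδ', G⟩ := hWSE j ε hε
      obtain ⟨κ', hκ', K⟩ := ih δ' hδ'
      obtain ⟨κ, hκ, H⟩ := G κ' δ hκ' hδ
      refine ⟨κ, hκ, fun N n e w t hw hs ht => ?_⟩
      obtain ⟨k1, k2⟩ := K n w hw
      exact H N n e w t k1 hs ht k2) (fun j κ κ' hk H N n e w t hw hs ht =>
        ccw_mn hk (H N n e w t hw hs ht)) d
    -- extensions
    obtain ⟨κ4, hκ4, H4⟩ := min_const (P := fun j κ => ∀ (N n : ℕ) (e : (E N × E j) ≃ₗ[ℝ] E n)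
        (w : E n → ℝ) (t : E j), LW w → MC A ε d h N (fun x : E N => w (e (x, t))) →
        (∀ t', ε * ∫ x, w (e (x, t')) ≤ ∫ x, w (e (x, t))) → CcW κ δ w) (fun j => by
      obtain ⟨δ', hδ', G⟩ := hWEX j ε δ hε hδ
      obtain ⟨κ', hκ', K⟩ := ih δ' hδ'
      obtain ⟨κ, hκ, H⟩ := G κ' hκ'
      refine ⟨κ, hκ, fun N n e w t hw hs ht => ?_⟩
      obtain ⟨k1, k2⟩ := K N _ hs
      exact H N n e w t hw k1 ht k2) (fun j κ κ' hk H N n e w t hw hs ht =>
        ccw_mn hk (H N n e w t hw hs ht)) d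
    -- finite rank factors
    obtain ⟨κ5, hκ5, H5⟩ := min_const (P := fun j κ => ∀ (N n : ℕ) (e : (E N × E j) ≃ₗ[ℝ] E n)
        (w : E n → ℝ) (φ : E j → ℝ), LW w → (∀ t, 0 ≤ φ t) → LCn φ →
        LW (fun z => w z * φ (e.symm z).2) →
        (∀ a : E j, MC A ε d h n fun z => w z * Real.exp ⟪a, (e.symm z).2⟫_ℝ) →
        CcW κ δ fun z => w z * φ (e.symm z).2) (fun j => by
      obtain ⟨δ', hδ', G⟩ := hWTL j δ hδ
      obtain ⟨κ', hκ', K⟩ := ih δ' hδ'
      obtain ⟨κ, hκ, H⟩ := G κ' hκ'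
      exact ⟨κ, hκ, fun N n e w φ hw hφ0 hφ hwφ ha => H N n e w φ hw hφ0 hφ hwφ
        fun a => K n _ (ha a)⟩) (fun j κ κ' hk H N n e w φ hw hφ0 hφ hwφ ha =>
        ccw_mn hk (H N n e w φ hw hφ0 hφ hwφ ha)) d
    -- products
    obtain ⟨κ6, hκ6, K6⟩ := ih (δ / 2) (by positivity)
    refine ⟨min κ0 (min κ1 (min κ2 (min κ3 (min κ4 (min κ5 κ6))))), by positivity,
      fun n w hw => ?_⟩
    have m0 : min κ0 (min κ1 (min κ2 (min κ3 (min κ4 (min κ5 κ6))))) ≤ κ0 := min_le_left _ _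
    have m1 : min κ0 (min κ1 (min κ2 (min κ3 (min κ4 (min κ5 κ6))))) ≤ κ1 :=
      (min_le_right _ _).trans (min_le_left _ _)
    have m2 : min κ0 (min κ1 (min κ2 (min κ3 (min κ4 (min κ5 κ6))))) ≤ κ2 :=
      (min_le_right _ _).trans ((min_le_right _ _).trans (min_le_left _ _))
    have m3 : min κ0 (min κ1 (min κ2 (min κ3 (min κ4 (min κ5 κ6))))) ≤ κ3 :=
      (min_le_right _ _).trans ((min_le_right _ _).trans ((min_le_right _ _).trans
        (min_le_left _ _)))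
    have m4 : min κ0 (min κ1 (min κ2 (min κ3 (min κ4 (min κ5 κ6))))) ≤ κ4 :=
      (min_le_right _ _).trans ((min_le_right _ _).trans ((min_le_right _ _).trans
        ((min_le_right _ _).trans (min_le_left _ _))))
    have m5 : min κ0 (min κ1 (min κ2 (min κ3 (min κ4 (min κ5 κ6))))) ≤ κ5 :=
      (min_le_right _ _).trans ((min_le_right _ _).trans ((min_le_right _ _).trans
        ((min_le_right _ _).trans ((min_le_right _ _).trans (min_le_left _ _)))))
    have m6 : min κ0 (min κ1 (min κ2 (min κ3 (min κ4 (min κ5 κ6))))) ≤ κ6 :=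
      (min_le_right _ _).trans ((min_le_right _ _).trans ((min_le_right _ _).trans
        ((min_le_right _ _).trans ((min_le_right _ _).trans (min_le_right _ _)))))
    cases hw with
    | up _ _ _ hw =>
      obtain ⟨k1, k2⟩ := H0 n w hw
      exact ⟨k1, ccw_mn m0 k2⟩
    | shift _ _ u a hu =>
      obtain ⟨k1, k2⟩ := H0 n u hu
      exact ⟨lw_shift k1 a, ccw_shift a k1.adm (ccw_mn m0 k2)⟩
    | marg _ m _ u _ T hT hLW hF hw =>
      obtain ⟨k1, k2⟩ := H0 m u hw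
      refine ⟨hLW, ?_⟩
      have hTc : Continuous T := T.continuous_of_finiteDimensional
      have hmn : n ≤ m := by
        have := LinearMap.finrank_le_finrank_of_surjective hT
        simpa using this
      intro k hk T' s hs hvar v hv hv1 hvl
      have hT'c : Continuous T' := T'.continuous_of_finiteDimensional
      have e1 : ∀ F : E k → ℝ, Continuous F → VW w (fun x => F (T' x)) =
          VW u (fun x => F ((T' ∘ₗ T) x)) := by
        intro F hFc
        unfold VW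
        rw [hF (fun x => F (T' x) ^ 2) (by fun_prop), hF (fun x => F (T' x)) (by fun_prop)]
        rfl
      rw [e1 v hv.continuous]
      refine ccw_mn m0 k2 k (hk.trans hmn) (T' ∘ₗ T) s hs (fun θ hθ => ?_) v hv hv1 hvl
      rw [← e1 (fun y => ⟪y, θ⟫_ℝ) (by fun_prop)]
      exact hvar θ hθ
    | proj _ m _ u _ T hT hm hLW hc hw =>
      obtain ⟨k1, k2⟩ := K1 m u hw
      exact ⟨hLW, ccw_mn m1 (H1 m n T u w hT hm k1 hLW hc k2)⟩
    | lift _ _ n' _ u T hT hm hLW hc hw =>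
      obtain ⟨k1, k2⟩ := K2 n' u hw
      exact ⟨hLW, ccw_mn m2 (H2 n n' T w u hT hm hLW k1 hc k2)⟩
    | sec _ N j n' e u t hj hw hLW ht =>
      exact ⟨hLW, ccw_mn m3 (H3 j hj n n' e u t hw hLW ht)⟩
    | ext _ N j _ e _ t hj hLW hw ht =>
      exact ⟨hLW, ccw_mn m4 (H4 j hj N n e w t hLW hw ht)⟩
    | tilt _ N j _ e u φ hj hu hφ0 hφ hLW ha =>
      exact ⟨hLW, ccw_mn m5 (H5 j hj N n e u φ hu hφ0 hφ hLW ha)⟩
    | prod _ a b _ e u u' hu hu' =>
      obtain ⟨k1, k2⟩ := K6 a u hu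
      obtain ⟨k3, k4⟩ := K6 b u' hu'
      refine ⟨hLPR a b n e u u' k1 k3, ?_⟩
      have h1 := hPRW κ6 (δ / 2) (δ / 2) a b n e u u' (by positivity) (by positivity) k1.adm k3.adm
        k2 k4
      rw [add_halves] at h1
      exact ccw_mn m6 h1

end Pool.Agent.N483.KM
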