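import Pool.Agent.N483.KM.FinZ

/-!
# The class of weights: tools
-/

set_option autoImplicit false

namespace Pool.Agent.N483.KM

open MeasureTheory Set Filter Topology
open scoped ENNReal InnerProductSpace
open Pool.Agent.R754.KG (E)
open Pool.Agent.Y506.PV (CcW ind LCn)
open Pool.Agent.Y506.RG (EW VW Adm Star pm)

theorem var_pm {n : ℕ} {w : E n → ℝ} (h : Adm w) (v : E n → ℝ) (hv : Measurable v) (K : ℝ)
    (hK : ∀ x, |v x| ≤ K * (1 + ‖x‖)) : ProbabilityTheory.variance v (pm w) = VW w v := by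
  have hp := Pool.Agent.Y506.RG.pm_prob h
  obtain ⟨i1, i2⟩ := Pool.Agent.Y506.RG.lin_int h v hv K hK
  have hL2 : MemLp v 2 (pm w) := by
    rw [memLp_two_iff_integrable_sq hv.aestronglyMeasurable]
    exact Pool.Agent.Y506.RG.pm_integrable h _ i2
  rw [ProbabilityTheory.variance_eq_sub hL2]
  unfold VW
  rw [← Pool.Agent.Y506.RG.pm_int h, ← Pool.Agent.Y506.RG.pm_int h]
  rfl

theorem var_lin {n k : ℕ} {w : E n → ℝ} (h : Adm w) (P : E n →ₗ[ℝ] E k) (θ : E k) :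
    ProbabilityTheory.variance (fun x => ⟪P x, θ⟫_ℝ) (pm w) = VW w fun x => ⟪P x, θ⟫_ℝ := by
  have hP : Continuous P := P.continuous_of_finiteDimensional
  refine var_pm h _ (by fun_prop) (‖LinearMap.toContinuousLinearMap P‖ * ‖θ‖) fun x => ?_
  refine (abs_real_inner_le_norm _ _).trans ?_
  have h1 := (LinearMap.toContinuousLinearMap P).le_opNorm x
  calc ‖P x‖ * ‖θ‖ ≤ ‖LinearMap.toContinuousLinearMap P‖ * ‖x‖ * ‖θ‖ :=
        mul_le_mul_of_nonneg_right h1 (norm_nonneg _)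
    _ ≤ ‖LinearMap.toContinuousLinearMap P‖ * ‖θ‖ * (1 + ‖x‖) := by
        nlinarith [mul_nonneg (norm_nonneg (LinearMap.toContinuousLinearMap P)) (norm_nonneg θ)]

theorem var_bdd {n k : ℕ} {w : E n → ℝ} (h : Adm w) (P : E n →ₗ[ℝ] E k) (v : E k → ℝ)
    (hv : Continuous v) (hv1 : ∀ y, |v y| ≤ 1) :
    ProbabilityTheory.variance (fun x => v (P x)) (pm w) = VW w fun x => v (P x) := by
  have hP : Continuous P := P.continuous_of_finiteDimensional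
  refine var_pm h _ (by fun_prop) 1 fun x => ?_
  rw [one_mul]
  linarith [hv1 (P x), norm_nonneg x]

/-- the weak Poincaré inequality for the measure -/
def WPm (A : ℝ → ℝ) {M : ℕ} (μ : Measure (E M)) : Prop :=
  ∀ δ : ℝ, 0 < δ → ∀ (k : ℕ) (P : E M →ₗ[ℝ] E k) (σ : ℝ), 0 < σ →
  (∀ θ : E k, ‖θ‖ = 1 → ProbabilityTheory.variance (fun x => ⟪P x, θ⟫_ℝ) μ ≤ σ) →
  ∀ (v : E k → ℝ) (C : ℝ), ContDiff ℝ 1 v → (∀ y, |v y| ≤ 1) → (∀ y, ‖fderiv ℝ v y‖ ≤ C) →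
  ProbabilityTheory.variance (fun x => v (P x)) μ ≤ δ + A δ * σ * ∫ x, ‖fderiv ℝ v (P x)‖ ^ 2 ∂μ

theorem wpm_iff {A : ℝ → ℝ} {n : ℕ} {w : E n → ℝ} (h : Adm w) :
    WPm A (pm w) ↔ ∀ δ : ℝ, 0 < δ → KMW (A δ) δ w := by
  constructor
  · intro H δ hδ k P s hs hvar v C hv hv1 hvl
    have h1 := H δ hδ k P s hs (fun θ hθ => by rw [var_lin h]; exact hvar θ hθ) v C hv hv1 hvl
    rw [var_bdd h P v hv.continuous hv1, Pool.Agent.Y506.RG.pm_int h] at h1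
    exact h1
  · intro H δ hδ k P s hs hvar v C hv hv1 hvl
    rw [var_bdd h P v hv.continuous hv1, Pool.Agent.Y506.RG.pm_int h]
    exact H δ hδ k P s hs (fun θ hθ => by rw [← var_lin h]; exact hvar θ hθ) v C hv hv1 hvl

theorem lw_of {n : ℕ} {w : E n → ℝ} (h0 : ∀ x, 0 ≤ w x)
    (h1 : ∀ x y, ∀ t : ℝ, 0 < t → t < 1 → w x ^ (1 - t) * w y ^ t ≤ w ((1 - t) • x + t • y))
    (h2 : UpperSemicontinuous w) (h3 : Integrable w) (h4 : 0 < ∫ x, w x) : LW w := by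
  obtain ⟨k1, B, hB⟩ := Pool.Agent.N438.KM.lwc h0 h3 h4 h1 h2
  obtain ⟨C, c, hC, hc, hd⟩ := Pool.Agent.N438.KM.lwd h0 h4 h1 k1 hB
  exact Pool.Agent.N438.KM.t_LWC n w ⟨h0, (Pool.Agent.N558.KM.int_decay h2.measurable h0 hc hd).2,
    h4, h2.measurable⟩ (fun x y t ht ht1 => h1 x y t ht ht1) h2

/-- large sections -/
theorem lw_sec {N j n : ℕ} {e : (E N × E j) ≃ₗ[ℝ] E n} {w : E n → ℝ} {t : E j} {C : ℝ}
    (hw : LW w) (ht : ∀ t', ∫ x, w (e (x, t')) ≤ C * ∫ x, w (e (x, t))) :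
    LW fun x => w (e (x, t)) := by
  obtain ⟨t', ht'⟩ := (lseR N j n e w t hw).2.1
  have hi := (lseR N j n e w t' hw).1
  have h0 : 0 < ∫ x, w (e (x, t')) := by
    have h1 : ENNReal.ofReal (∫ x, w (e (x, t'))) ≠ 0 := by
      rw [ofReal_integral_eq_lintegral_ofReal hi (Eventually.of_forall fun x => hw.adm.nonneg _)]
      exact ht'
    rw [Ne, ENNReal.ofReal_eq_zero, not_le] at h1
    exact h1
  refine (lseR N j n e w t hw).2.2 ?_
  have h2 := ht t'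
  have h3 : 0 ≤ ∫ x, w (e (x, t)) := integral_nonneg fun x => hw.adm.nonneg _
  rcases h3.eq_or_lt with h4 | h4
  · rw [← h4, mul_zero] at h2
    linarith
  · exact h4

theorem exp_large {s : ℕ} {a b : ℝ} (hb : 0 ≤ b) (h : a ≤ s * b) : Real.exp (-(s : ℝ)) * a ≤ b := by
  have h1 : (s : ℝ) ≤ Real.exp s := by linarith [Real.add_one_le_exp (s : ℝ)]
  have h2 : Real.exp (-(s : ℝ)) * a ≤ Real.exp (-(s : ℝ)) * (s * b) :=
    mul_le_mul_of_nonneg_left h (Real.exp_pos _).le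
  have h3 : Real.exp (-(s : ℝ)) * s ≤ 1 := by
    rw [Real.exp_neg, inv_mul_le_iff₀ (Real.exp_pos _), mul_one]
    exact h1
  calc _ ≤ Real.exp (-(s : ℝ)) * (s * b) := h2
    _ = Real.exp (-(s : ℝ)) * s * b := by ring
    _ ≤ 1 * b := mul_le_mul_of_nonneg_right h3 hb
    _ = b := one_mul _

theorem exp_bary {s j N n : ℕ} (hj : j ≤ s) (e : (E N × E j) ≃ₗ[ℝ] E n) {w : E n → ℝ} {t : E j}
    (hw : LW w) (ht : ∀ θ : E j, ∫ z, ⟪(e.symm z).2, θ⟫_ℝ ∂(pm w) = ⟪t, θ⟫_ℝ) (t' : E j) :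
    Real.exp (-(s : ℝ)) * ∫ x, w (e (x, t')) ≤ ∫ x, w (e (x, t)) := by
  have h1 := wbrR N j n e w t hw (fun θ => by rw [← Pool.Agent.Y506.RG.pm_int hw.adm]; exact ht θ) t'
  refine le_trans (mul_le_mul_of_nonneg_right (Real.exp_le_exp.2 ?_)
    (integral_nonneg fun x => hw.adm.nonneg _)) h1
  have : (j : ℝ) ≤ s := by exact_mod_cast hj
  linarith

end Pool.Agent.N483.KM
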