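import Pool.Agent.N483.KM.Cls
import Pool.Agent.N348.KM.MXF

/-!
# Large sections: final form
-/

set_option autoImplicit false

namespace Pool.Agent.N483.KM

open MeasureTheory Set Filter Topology
open scoped ENNReal InnerProductSpace
open Pool.Agent.R754.KG (E un sl Rv)
open Pool.Agent.R755.KF
open Pool.Agent.R755.KS
open Pool.Agent.Y506.PV (CcW ind)
open Pool.Agent.Y506.RG (Star)

theorem seceR : S_SECE := sece_of Pool.Agent.N348.KM.MXF.t_MXF Pool.Agent.N348.KM.MXF.t_IVT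

theorem czF (A : ℝ → ℝ) (Q ε : ℝ) (hQ : 0 < Q) (hε : 0 < ε) (d r h : ℕ) : ∃ c : ℝ, 0 < c ∧
    ∀ (n : ℕ) (K : Set (E n)), Cz A Q ε d r h n K → IsCompact K ∧ Convex ℝ K ∧
      (interior K).Nonempty ∧ Star c (ind K) := czR seceR A Q ε hQ hε d r h

/-- the bodies of the class satisfy a weak Poincaré inequality -/
theorem cz_km (A : ℝ → ℝ) (Q ε : ℝ) (hQ : 0 < Q) (hε : 0 < ε) (d r h : ℕ) :
    ∃ A' : ℝ → ℝ, (∀ δ, 0 < A' δ) ∧
    ∀ (n : ℕ) (K : Set (E n)), Cz A Q ε d r h n K → IsCompact K ∧ Convex ℝ K ∧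
      (interior K).Nonempty ∧ ∀ δ : ℝ, 0 < δ → KM (A' δ) δ (un K) :=
  km_profile (P := fun n K => Cz A Q ε d r h n K)
    (cz_cc seceR barR ccR liftR ccbR kw_of_cc A Q ε hQ hε d r h)

/-- the class without sections is contained in the class -/
theorem cz_of_ct {A : ℝ → ℝ} {Q : ℝ} (ε : ℝ) {d r h n : ℕ} {K : Set (E n)}
    (H : Ct A Q d r h n K) : Cz A Q ε d r h n K := by
  induction H with
  | base _ _ h1 h2 h3 h4 => exact .base _ _ h1 h2 h3 h4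
  | up _ _ _ _ ih => exact .up _ _ _ ih
  | image _ _ _ _ T w hm hT _ ih => exact .image _ _ _ _ T w hm hT ih
  | lift _ _ _ _ T hm hT h1 h2 h3 _ ih => exact .lift _ _ _ _ T hm hT h1 h2 h3 ih
  | fibred _ _ _ _ _ e hj h1 h2 h3 _ ih => exact .fibred _ _ _ _ _ e hj h1 h2 h3 ih
  | cent _ _ _ _ _ e h1 h2 h3 _ hcen hq hb ih => exact .cent _ _ _ _ _ e h1 h2 h3 ih hcen hq hb
  | cent' _ _ _ _ _ _ e _ L h1 h2 h3 _ hcen hq _ hb ih ih' =>
    exact .cent' _ _ _ _ _ _ e _ L h1 h2 h3 ih hcen hq ih' hb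

theorem cz_body {A : ℝ → ℝ} {Q ε : ℝ} (hQ : 0 < Q) (hε : 0 < ε) {d r h n : ℕ} {K : Set (E n)}
    (H : Cz A Q ε d r h n K) : IsCompact K ∧ Convex ℝ K ∧ (interior K).Nonempty := by
  obtain ⟨c, -, H1⟩ := czF A Q ε hQ hε d r h
  obtain ⟨h1, h2, h3, -⟩ := H1 n K H
  exact ⟨h1, h2, h3⟩

/-- large fibres, with a natural number instead of `ε` -/
theorem large_of {N d : ℕ} {K : Set (E N × E d)} (h : CB K) {s : ℕ} {t : E d}
    (H : ∀ t', volume (sl K t') ≤ s * volume (sl K t)) (t' : E d) :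
    1 / ((s : ℝ) + 1) * Rv K t' ≤ Rv K t := by
  have h1 := H t'
  have h2 : 0 ≤ Rv K t := ENNReal.toReal_nonneg
  rw [Pool.Agent.R755.KF.Maux.R_vol h t, Pool.Agent.R755.KF.Maux.R_vol h t',
    ← ENNReal.ofReal_natCast s, ← ENNReal.ofReal_mul (Nat.cast_nonneg s),
    ENNReal.ofReal_le_ofReal_iff (mul_nonneg (Nat.cast_nonneg s) h2)] at h1
  have h3 : (0 : ℝ) < (s : ℝ) + 1 := by positivity
  rw [one_div, inv_mul_le_iff₀ h3]
  linarith

/-- the barycentre of the base -/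
theorem bar_of {N d n : ℕ} {K : Set (E n)} (e : (E N × E d) ≃ₗ[ℝ] E n) (h : CB (e ⁻¹' K)) {t : E d}
    (H : ∀ θ : E d, ∫ z, ⟪(e.symm z).2, θ⟫_ℝ ∂(un K) = ⟪t, θ⟫_ℝ) (θ : E d) :
    ∫ z, ⟪z.2, θ⟫_ℝ ∂(un (e ⁻¹' K)) = ⟪t, θ⟫_ℝ := by
  have h1 := Pool.Agent.R754.KG.un_img e h.pos.ne' h.comp.measure_lt_top.ne
    fun z => ⟪(e.symm z).2, θ⟫_ℝ
  rw [image_preimage_eq K e.surjective, H θ] at h1
  rw [h1]
  simp

/-- large fibres, with the volume in `[0, ∞]` -/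
theorem large_iff {N d : ℕ} {K : Set (E N × E d)} (h : CB K) {ε : ℝ} (hε : 0 < ε) (t t' : E d) :
    ENNReal.ofReal ε * volume (sl K t') ≤ volume (sl K t) ↔ ε * Rv K t' ≤ Rv K t := by
  rw [Pool.Agent.R755.KF.Maux.R_vol h, Pool.Agent.R755.KF.Maux.R_vol h,
    ← ENNReal.ofReal_mul hε.le, ENNReal.ofReal_le_ofReal_iff]
  exact ENNReal.toReal_nonneg

end Pool.Agent.N483.KM
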