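import Pool.Agent.N483.KM.FinP
import Pool.Agent.N327.KM.BM1
import Pool.Agent.N738.KM.BMX

/-!
# Bounded Brunn–Minkowski deficit: final form
-/

set_option autoImplicit false

namespace Pool.Agent.N483.KM

open MeasureTheory Set Filter Topology
open scoped ENNReal InnerProductSpace Pointwise
open Pool.Agent.R754.KG (E un sl Rv)
open Pool.Agent.R755.KF
open Pool.Agent.R755.KS
open Pool.Agent.Y506.PV (CcW ind)
open Pool.Agent.Y506.RG (Star)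

theorem bmxR : S_BMX := Pool.Agent.N738.KM.t_BMX (Pool.Agent.N327.KM.t_BM1 f2fR)

/-- bodies with a bounded deficit with a body with a weak Poincaré inequality -/
def PD (A : ℝ → ℝ) (s : ℕ) (n : ℕ) (L : Set (E n)) : Prop :=
  ∃ K : Set (E n), IsCompact K ∧ Convex ℝ K ∧ (interior K).Nonempty ∧
    (∀ δ : ℝ, 0 < δ → KM (A δ) δ (un K)) ∧ IsCompact L ∧ Convex ℝ L ∧ (interior L).Nonempty ∧
    volume ((1 / 2 : ℝ) • (K + L)) ^ 2 ≤ s * (volume K * volume L)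

theorem pd_cc (A : ℝ → ℝ) (s : ℕ) (δ : ℝ) (hδ : 0 < δ) : ∃ κ : ℝ, 0 < κ ∧
    ∀ (n : ℕ) (L : Set (E n)), PD A s n L → IsCompact L ∧ Convex ℝ L ∧ (interior L).Nonempty ∧
      CcW κ δ (ind L) := by
  obtain ⟨δ', hδ', H⟩ := bmxR ((s : ℝ) + 1) (by positivity)
  have hA : 0 < max (A (δ' / 2)) 1 := lt_max_of_lt_right one_pos
  obtain ⟨κ, hκ, H1⟩ := H (Real.sqrt (δ' / (2 * max (A (δ' / 2)) 1))) δ
    (Real.sqrt_pos.2 (by positivity)) hδ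
  refine ⟨κ, hκ, ?_⟩
  rintro n L ⟨K, k1, k2, k3, k4, l1, l2, l3, hd⟩
  refine ⟨l1, l2, l3, H1 n K L k1 k2 k3 l1 l2 l3 (hd.trans ?_) (cc_of_km hA hδ' k1 k3
    (km_mono (le_max_left _ _) le_rfl (k4 (δ' / 2) (by positivity))))⟩
  gcongr
  rw [← ENNReal.ofReal_natCast s, ← ENNReal.ofReal_pow (by positivity)]
  apply ENNReal.ofReal_le_ofReal
  nlinarith [Nat.cast_nonneg (α := ℝ) s]

theorem pd_km (A : ℝ → ℝ) (s : ℕ) : ∃ A' : ℝ → ℝ, (∀ δ, 0 < A' δ) ∧ ∀ (n : ℕ) (L : Set (E n)),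
    PD A s n L → IsCompact L ∧ Convex ℝ L ∧ (interior L).Nonempty ∧
      ∀ δ : ℝ, 0 < δ → KM (A' δ) δ (un L) :=
  km_profile (P := fun n L => PD A s n L) (pd_cc A s)

theorem pd_star (A : ℝ → ℝ) (s : ℕ) : ∃ c : ℝ, 0 < c ∧ ∀ (n : ℕ) (L : Set (E n)),
    PD A s n L → IsCompact L ∧ Convex ℝ L ∧ (interior L).Nonempty ∧ Star c (ind L) := by
  obtain ⟨κ, hκ, H⟩ := pd_cc A s (1 / 25) (by norm_num)
  obtain ⟨c, hc, H'⟩ := Pool.Agent.Y506.PV.stb Pool.Agent.Y211.PV.iso κ hκ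
  refine ⟨c, hc, fun n K hK => ?_⟩
  obtain ⟨h1, h2, h3, h4⟩ := H n K hK
  exact ⟨h1, h2, h3, H' n K h1 h2 h3 h4⟩

end Pool.Agent.N483.KM
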