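import Pool.Agent.N483.KM.ClsM2

/-!
# Bounded Prékopa–Leindler deficit
-/

set_option autoImplicit false

namespace Pool.Agent.N483.KM

open MeasureTheory Set Filter Topology
open scoped ENNReal InnerProductSpace
open Pool.Agent.R754.KG (E)
open Pool.Agent.Y506.PV (CcW ind LCn)
open Pool.Agent.Y506.RG (EW VW Adm Star pm)

/-- weights with a bounded deficit with a weight with a weak Poincaré inequality -/
def PDm (A : ℝ → ℝ) (s n : ℕ) (g : E n → ℝ) : Prop :=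
  ∃ f h : E n → ℝ, LW f ∧ (∀ δ : ℝ, 0 < δ → KMW (A δ) δ f) ∧ LW g ∧ (∀ x, 0 ≤ h x) ∧
    Measurable h ∧ Integrable h ∧ (∀ x y, f x * g y ≤ h ((1 / 2 : ℝ) • (x + y)) ^ 2) ∧
    (∫ x, h x) ^ 2 ≤ s * ((∫ x, f x) * ∫ x, g x)

theorem kmw_mono {A B δ : ℝ} {n : ℕ} {w : E n → ℝ} (hw : Adm w) (hAB : A ≤ B)
    (h : KMW A δ w) : KMW B δ w := by
  intro k P s hs hvar v C hv hv1 hvl
  refine (h k P s hs hvar v C hv hv1 hvl).trans ?_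
  have h3 : 0 ≤ EW w fun x => ‖fderiv ℝ v (P x)‖ ^ 2 :=
    div_nonneg (integral_nonneg fun x => mul_nonneg (by positivity) (hw.nonneg x)) hw.pos.le
  have h4 : A * s ≤ B * s := mul_le_mul_of_nonneg_right hAB hs.le
  have h5 := mul_le_mul_of_nonneg_right h4 h3
  linarith

theorem pdm_cc (A : ℝ → ℝ) (s : ℕ) (δ : ℝ) (hδ : 0 < δ) : ∃ κ : ℝ, 0 < κ ∧
    ∀ (n : ℕ) (g : E n → ℝ), PDm A s n g → LW g ∧ CcW κ δ g := by
  obtain ⟨δ', hδ', H⟩ := wplR ((s : ℝ) + 1) (by positivity)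
  have hA : 0 < max (A (δ' / 2)) 1 := lt_max_of_lt_right one_pos
  obtain ⟨κ, hκ, H1⟩ := H (Real.sqrt (δ' / (2 * max (A (δ' / 2)) 1))) δ
    (Real.sqrt_pos.2 (by positivity)) hδ
  refine ⟨κ, hκ, ?_⟩
  rintro n g ⟨f, h, hf, hA', hg, h0, hm, hi, hfg, hd⟩
  refine ⟨hg, H1 n f g h hf hg h0 hm hi hfg (hd.trans ?_)
    (cc_of_kmw hA hδ' hf.adm (kmw_mono hf.adm (le_max_left _ _) (hA' _ (by positivity))))⟩
  have h1 : 0 ≤ (∫ x, f x) * ∫ x, g x := mul_nonneg hf.adm.pos.le hg.adm.pos.le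
  have h2 : (s : ℝ) ≤ ((s : ℝ) + 1) ^ 2 := by nlinarith [Nat.cast_nonneg (α := ℝ) s]
  exact mul_le_mul_of_nonneg_right h2 h1

theorem pdm_star (A : ℝ → ℝ) (s : ℕ) : ∃ c : ℝ, 0 < c ∧ ∀ (n : ℕ) (g : E n → ℝ), PDm A s n g →
    LW g ∧ Star c g := by
  obtain ⟨δ, hδ, G⟩ := wstR
  obtain ⟨κ, hκ, H⟩ := pdm_cc A s δ hδ
  obtain ⟨c, hc, Hc⟩ := G κ hκ
  refine ⟨c, hc, fun m w hw => ?_⟩
  obtain ⟨h1, h2⟩ := H m w hw
  exact ⟨h1, Hc m w h1 h2⟩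

theorem pdm_kmw (A : ℝ → ℝ) (s : ℕ) : ∃ A' : ℝ → ℝ, ∀ (n : ℕ) (g : E n → ℝ), PDm A s n g →
    ∀ δ : ℝ, 0 < δ → KMW (A' δ) δ g := by
  have h1 := pdm_cc A s
  choose! κ hκ H using h1
  obtain ⟨A', HA⟩ := wkmR κ hκ
  refine ⟨A', fun n w hw δ hδ => ?_⟩
  intro k P s hs hvar v C hv hv1 hvl
  exact HA n w (H 1 one_pos n w hw).1 (fun δ hδ => (H δ hδ n w hw).2) δ hδ k P s hs hvar v C hv
    hv1 hvl

end Pool.Agent.N483.KM
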