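import Pool.Agent.N483.KM.Cls2
import Pool.Agent.N27.KM.CCL
import Pool.Agent.N986.KM.PSUP
import Pool.Agent.N678.KM.Prr
import Pool.Agent.N456.KM.PRX
import Pool.Agent.N614.KM.PAP
import Pool.Agent.N756.KM.PER
import Pool.Agent.N170.KM.PLF

/-!
# Few inequalities and few functionals: final form
-/

set_option autoImplicit false

namespace Pool.Agent.N483.KM

open MeasureTheory Set Filter Topology
open scoped ENNReal InnerProductSpace
open Pool.Agent.R754.KG (E un sl Rv)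
open Pool.Agent.R755.KF
open Pool.Agent.R755.KS
open Pool.Agent.Y506.PV (CcW ind)
open Pool.Agent.Y506.RG (Star)

theorem cclR : S_CCL := Pool.Agent.N27.KM.t_CCL

theorem prrR : S_PRR :=
  Pool.Agent.N678.KM.t_PRR (Pool.Agent.N170.KM.t_PLF Pool.Agent.N986.KM.t_PSUP) seccR

theorem prxR : S_PRX := Pool.Agent.N456.KM.t_PRX Pool.Agent.N614.KM.t_PAP prrR

/-- the bodies given by `r` inequalities and `n + q` functionals -/
def PB2 (r q n : ℕ) (K : Set (E n)) : Prop :=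
  ∃ (N : ℕ) (v : Fin N → E n) (V : Fin r → Fin N → ℝ → EReal) (e : Fin r → ℝ), N ≤ n + q ∧
    (∀ j i, XE (V j i)) ∧ Bornology.IsBounded K ∧ (interior K).Nonempty ∧
    K = {x | ∀ j, ∑ i, V j i ⟪v i, x⟫_ℝ ≤ (e j : EReal)}

theorem pb_cc (r q : ℕ) (δ : ℝ) (hδ : 0 < δ) : ∃ κ : ℝ, 0 < κ ∧ ∀ (n : ℕ) (K : Set (E n)),
    PB2 r q n K → IsCompact K ∧ Convex ℝ K ∧ (interior K).Nonempty ∧ CcW κ δ (ind K) := by
  obtain ⟨κ, hκ, H⟩ := prxR r q δ hδ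
  refine ⟨κ, hκ, ?_⟩
  rintro n K ⟨N, v, V, e, hN, hV, hb, hi, hK⟩
  obtain ⟨W, f, hW, hKW⟩ := Pool.Agent.N756.KM.t_PER r n N v V e hV (hK ▸ hb)
    (hK ▸ (hi.mono interior_subset))
  rw [← hK] at hKW
  rw [hKW] at hb hi ⊢
  obtain ⟨h1, h2, h3⟩ := H n N v W f hN hW hb hi
  exact ⟨h1, h2, hi, h3⟩

theorem pb_km (r q : ℕ) : ∃ A : ℝ → ℝ, (∀ δ, 0 < A δ) ∧ ∀ (n : ℕ) (K : Set (E n)),
    PB2 r q n K → IsCompact K ∧ Convex ℝ K ∧ (interior K).Nonempty ∧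
      ∀ δ : ℝ, 0 < δ → KM (A δ) δ (un K) :=
  km_profile (P := fun n K => PB2 r q n K) (pb_cc r q)

/-- images of these bodies -/
theorem pb_star (r q p : ℕ) : ∃ c : ℝ, 0 < c ∧ ∀ (m n : ℕ) (K : Set (E m)) (T : E m →ₗ[ℝ] E n)
    (w : E n), PB2 r q m K → m ≤ n + p → Function.Surjective T →
    IsCompact ((fun x => w + T x) '' K) ∧ Convex ℝ ((fun x => w + T x) '' K) ∧
    (interior ((fun x => w + T x) '' K)).Nonempty ∧ Star c (ind ((fun x => w + T x) '' K)) := by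
  obtain ⟨A, -, H⟩ := pb_km r q
  obtain ⟨c, hc, Hc⟩ := cyR cclR A 1 1 one_pos one_pos 0 p 1
  refine ⟨c, hc, fun m n K T w hK hm hT => ?_⟩
  obtain ⟨h1, h2, h3, h4⟩ := H m K hK
  exact Hc _ _ (.image _ _ _ _ T w hm hT (.base _ _ h1 h2 h3 h4))

end Pool.Agent.N483.KM
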