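import Pool.Agent.N483.KM.Gcn
import Pool.Agent.N483.KM.FinP
import Pool.Agent.N697.KM.RAY
import Pool.Agent.N717.KM.Grad
import Pool.Agent.N273.KM.CPA
import Pool.Agent.N273.KM.PSDA
import Pool.Agent.N300.KM.Lorb
import Pool.Agent.N395.KM.Lorg
import Pool.Agent.N618.KM.Psdb
import Pool.Agent.N31.KM.PSDG
import Pool.Agent.N277.KM.GPL
import Pool.Agent.N78.KM.GMO
import Pool.Agent.N814.KM.FRM

/-!
# Conic programs with few equations: final form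
-/

set_option autoImplicit false

namespace Pool.Agent.N483.KM

open MeasureTheory Set Filter Topology
open scoped ENNReal InnerProductSpace ComplexOrder
open Pool.Agent.R754.KG (E un sl Rv)
open Pool.Agent.R755.KF
open Pool.Agent.R755.KS
open Pool.Agent.Y506.PV (CcW ind)
open Pool.Agent.Y506.RG (Star)
open Pool.Agent.R751.MB (Eu EW VW Adm AP Frame)

theorem lorbR : S_LORB := Pool.Agent.N300.KM.t_LORB Pool.Agent.N273.KM.t_CPS
  Pool.Agent.N273.KM.t_CAP Pool.Agent.N697.KM.t_RAY Pool.Agent.N78.KM.t_GMO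

theorem lorgR : S_LORG := Pool.Agent.N395.KM.t_LORG lorbR

theorem psdaR : S_PSDA :=
  Pool.Agent.N273.KM.t_PSDA (Pool.Agent.N31.KM.t_PSDG Pool.Agent.N618.KM.t_PSDB) lorgR

theorem gconR : S_GCON := gcon Pool.Agent.N717.KM.t_GRAD Pool.Agent.N933.KM.t_GSUP seceR

/-- products of Lorentz cones and of cones of positive semidefinite matrices -/
inductive SCn : ∀ N : ℕ, Set (E N) → Prop
  | lor (k N : ℕ) (e : (E k × E 1) ≃ₗ[ℝ] E N) : SCn N (e '' {z | ‖z.1‖ ≤ z.2 0})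
  | psd (𝕜 : Type) [RCLike 𝕜] (D : ℕ) (ι : Type) [Fintype ι]
      (Φ : Eu ι →ₗ[ℝ] Matrix (Fin D) (Fin D) 𝕜) (N : ℕ) (e : Eu ι ≃ₗ[ℝ] E N) : 1 ≤ D → Frame Φ →
      SCn N (e '' {x | (Φ x).PosSemidef})
  | prod (a b N : ℕ) (e : (E a × E b) ≃ₗ[ℝ] E N) (C : Set (E a)) (C' : Set (E b)) : SCn a C →
      SCn b C' → SCn N (e '' (C ×ˢ C'))

theorem gc_mono {A A' : ℝ} (h : A ≤ A') {κ : Type} [Fintype κ] {C : Set (Eu κ)} (H : GC A C) :
    GC A' C := by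
  refine ⟨H.pc, fun f hf => ?_⟩
  obtain ⟨h1, S, h2, h3⟩ := H.ap f hf
  refine ⟨h1, S, h2, fun g hg hb hd => (h3 g hg hb hd).trans ?_⟩
  refine mul_le_mul_of_nonneg_right h ?_
  exact div_nonneg (integral_nonneg fun x => mul_nonneg (by positivity) (h1.nonneg x)) h1.pos.le

theorem scn_gc : ∃ A : ℝ, 0 < A ∧ ∀ (N : ℕ) (C : Set (E N)), SCn N C → GC A C := by
  obtain ⟨A1, hA1, H1⟩ := lorgR
  obtain ⟨A2, hA2, H2⟩ := psdaR
  refine ⟨max A1 A2, lt_max_of_lt_left hA1, fun N C h => ?_⟩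
  induction h with
  | lor k N e =>
    have h1 := gc_mono (le_max_left A1 A2) (H1 k (Fin N) e)
    have h2 : {z : Eu (Fin N) | ‖(e.symm z).1‖ ≤ (e.symm z).2 0} = e '' {z | ‖z.1‖ ≤ z.2 0} := by
      ext z
      constructor
      · intro hz
        exact ⟨e.symm z, hz, e.apply_symm_apply z⟩
      · rintro ⟨y, hy, rfl⟩
        simpa using hy
    rwa [h2] at h1
  | psd 𝕜 D ι Φ N e hD hΦ =>
    exact Pool.Agent.N277.KM.t_GLIN ι (Fin N) _ e _
      (gc_mono (le_max_right A1 A2) (H2 𝕜 D hD ι Φ hΦ))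
  | prod a b N e C C' _ _ ih ih' =>
    exact Pool.Agent.N277.KM.t_GPRD (Fin a) (Fin b) (Fin N) _ e C C'
      (le_max_of_le_left hA1.le) ih ih'

/-- feasible sets of conic programs with at most `q` equations -/
def CPr (q n : ℕ) (K : Set (E n)) : Prop :=
  ∃ (N : ℕ) (C : Set (E N)) (L : E n →ₗ[ℝ] E N) (w : E N), N ≤ n + q ∧ SCn N C ∧
    Bornology.IsBounded K ∧ (interior K).Nonempty ∧ K = {x | w + L x ∈ C}

theorem cpr_cc (q : ℕ) (δ : ℝ) (hδ : 0 < δ) : ∃ κ : ℝ, 0 < κ ∧ ∀ (n : ℕ) (K : Set (E n)),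
    CPr q n K → IsCompact K ∧ Convex ℝ K ∧ (interior K).Nonempty ∧ CcW κ δ (ind K) := by
  obtain ⟨A, hA, HA⟩ := scn_gc
  obtain ⟨κ, hκ, H⟩ := gconR A δ q hA hδ
  refine ⟨κ, hκ, ?_⟩
  rintro n K ⟨N, C, L, w, hN, hC, hb, hi, hK⟩
  have hG := HA N C hC
  rcases Nat.eq_zero_or_pos n with rfl | hn
  · have h1 : K = univ := by
      refine eq_univ_of_forall fun x => ?_
      obtain ⟨y, hy⟩ := hi
      rw [Subsingleton.elim x y]
      exact interior_subset hy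
    have hc : IsCompact K := by
      rw [h1]
      exact (Set.toFinite _).isCompact
    refine ⟨hc, by rw [h1]; exact convex_univ, hi, ?_⟩
    exact Pool.Agent.R754.KG.cc_zero hδ.le K hc hi
  · obtain ⟨h1, h2, h3⟩ := H n N C L w hn hN hG (hK ▸ hb) (hK ▸ hi)
    rw [← hK] at h1 h2 h3
    exact ⟨h1, h2, hi, h3⟩

theorem cpr_km (q : ℕ) : ∃ A : ℝ → ℝ, (∀ δ, 0 < A δ) ∧ ∀ (n : ℕ) (K : Set (E n)),
    CPr q n K → IsCompact K ∧ Convex ℝ K ∧ (interior K).Nonempty ∧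
      ∀ δ : ℝ, 0 < δ → KM (A δ) δ (un K) :=
  km_profile (P := fun n K => CPr q n K) (cpr_cc q)

/-- images of these bodies -/
theorem cpr_star (q p : ℕ) : ∃ c : ℝ, 0 < c ∧ ∀ (m n : ℕ) (K : Set (E m)) (T : E m →ₗ[ℝ] E n)
    (w : E n), CPr q m K → m ≤ n + p → Function.Surjective T →
    IsCompact ((fun x => w + T x) '' K) ∧ Convex ℝ ((fun x => w + T x) '' K) ∧
    (interior ((fun x => w + T x) '' K)).Nonempty ∧ Star c (ind ((fun x => w + T x) '' K)) := by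
  obtain ⟨A, -, H⟩ := cpr_km q
  obtain ⟨c, hc, Hc⟩ := cyR cclR A 1 1 one_pos one_pos 0 p 1
  refine ⟨c, hc, fun m n K T w hK hm hT => ?_⟩
  obtain ⟨h1, h2, h3, h4⟩ := H m K hK
  exact Hc _ _ (.image _ _ _ _ T w hm hT (.base _ _ h1 h2 h3 h4))

end Pool.Agent.N483.KM
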