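import Pool.Agent.N483.KM.FinW
import Pool.Agent.N483.KM.StmY
import Pool.Agent.N27.KM.VPB

/-!
# Bodies given by few inequalities between sums of functions of blocks and parameters
-/

set_option autoImplicit false

namespace Pool.Agent.N483.KM

open MeasureTheory Set Filter Topology
open scoped ENNReal InnerProductSpace
open Pool.Agent.R754.KG (E un sl Rv)
open Pool.Agent.R755.KF
open Pool.Agent.R755.KS
open Pool.Agent.Y506.PV (CcW ind)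
open Pool.Agent.Y506.RG (Star)
open Pool.Agent.R751.MB (Frame)
open Pool.Agent.TH591.TT (V Ix InvR GS)

theorem vpbR : S_VPB := Pool.Agent.N27.KM.t_VPB Pool.Agent.N247.KM.t_VER vrxR
  Pool.Agent.N348.KM.MXF.t_MXF (one f2fR cclR)

/-- the admissible blocks -/
inductive Bk (s : ℕ) : ∀ k : ℕ, Set (E k ≃ₗᵢ[ℝ] E k) → Prop
  | small (k : ℕ) (G : Set (E k ≃ₗᵢ[ℝ] E k)) : k ≤ s → Bk s k G
  | coord (k : ℕ) : 1 ≤ k → Bk s k (GSY k)
  | rot (q m N k : ℕ) (ι : E k →ₗᵢ[ℝ] V (Ix q m N)) : 3 ≤ N → q ≤ s → m ≤ s * N →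
      InvR (κ := Fin k) ι → Bk s k (GS (κ := Fin k) ι)
  | herm (𝕜 : Type) [RCLike 𝕜] (N k : ℕ) (Φ : E k →ₗ[ℝ] Matrix (Fin N) (Fin N) 𝕜) : 3 ≤ N →
      Frame (ι := Fin k) Φ → Bk s k (GHE Φ)

theorem bk_gd (hD : S_GDD) (s : ℕ) : ∃ A : ℝ, 0 < A ∧ ∀ (k : ℕ) (G : Set (E k ≃ₗᵢ[ℝ] E k)),
    Bk s k G → Gd A G := by
  obtain ⟨A1, h1, H1⟩ := hD s
  obtain ⟨A2, h2, H2⟩ := gdS
  obtain ⟨A3, h3, H3⟩ := gdR s
  obtain ⟨A4, h4, H4⟩ := gdH
  refine ⟨A1 + A2 + A3 + A4, by positivity, fun k G h => ?_⟩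
  cases h with
  | small _ _ hk => exact (H1 k hk G).mono (by linarith)
  | coord _ hk => exact (H2 k hk).mono (by linarith)
  | rot q m N _ ι hN hq hm hι => exact (H3 q m N k hN hq hm ι hι).mono (by linarith)
  | herm 𝕜 N _ Φ hN hΦ => exact (H4 𝕜 N k hN Φ hΦ).mono (by linarith)

/-- bodies given by `r` inequalities between sums of functions of blocks and at most `s` parameters -/
def VBd (r s m : ℕ) (K : Set (E m)) : Prop :=
  ∃ (B n d : ℕ) (k : Fin B → ℕ) (G : ∀ i, Set (E (k i) ≃ₗᵢ[ℝ] E (k i)))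
    (L : E n →ₗ[ℝ] (∀ i, E (k i))) (W : Fin r → ∀ i, E (k i) → E d → EReal) (e : Fin r → ℝ)
    (ψ : (E n × E d) ≃ₗ[ℝ] E m), d ≤ s ∧ ∑ i, k i ≤ n + s ∧ (∀ i, Bk s (k i) (G i)) ∧
    (∀ j i, XP (W j i)) ∧ (∀ i, ∀ g ∈ G i, ∀ j x t, W j i (g x) t = W j i x t) ∧
    (∀ i, ∀ g ∈ G i, ∀ y : E (k i), Pi.single i (g y - y) ∈ LinearMap.range L) ∧
    Bornology.IsBounded K ∧ (interior K).Nonempty ∧ K = ψ '' BP L W e

theorem vbd_cc (hD : S_GDD) (r s : ℕ) (δ : ℝ) (hδ : 0 < δ) : ∃ κ : ℝ, 0 < κ ∧ ∀ (m : ℕ)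
    (K : Set (E m)), VBd r s m K → IsCompact K ∧ Convex ℝ K ∧ (interior K).Nonempty ∧
    CcW κ δ (ind K) := by
  obtain ⟨A, hA, HA⟩ := bk_gd hD s
  obtain ⟨κ, hκ, H⟩ := Pool.Agent.R754.KG.min_const (P := fun d κ => ∀ (ι : Type) [Fintype ι] [DecidableEq ι]
    (n m : ℕ) (k : ι → ℕ) (G : ∀ i, Set (E (k i) ≃ₗᵢ[ℝ] E (k i)))
    (L : E n →ₗ[ℝ] (∀ i, E (k i))) (V : Fin r → ∀ i, E (k i) → E d → EReal) (e : Fin r → ℝ)
    (ψ : (E n × E d) ≃ₗ[ℝ] E m), ∑ i, k i ≤ n + s → (∀ i, Gd A (G i)) → (∀ j i, XP (V j i)) →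
    (∀ i, ∀ g ∈ G i, ∀ j x t, V j i (g x) t = V j i x t) →
    (∀ i, ∀ g ∈ G i, ∀ y : E (k i), Pi.single i (g y - y) ∈ LinearMap.range L) →
    Bornology.IsBounded (BP L V e) → (interior (BP L V e)).Nonempty →
    IsCompact (BP L V e) ∧ Convex ℝ (BP L V e) ∧ CcW κ δ (ind (ψ '' BP L V e)))
    (fun d => vpbR r s d A δ hA hδ)
    (fun d κ κ' hk hP ι _ _ n m k G L V e ψ a1 a2 a3 a4 a5 a6 a7 => by
      obtain ⟨b1, b2, b3⟩ := hP ι n m k G L V e ψ a1 a2 a3 a4 a5 a6 a7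
      exact ⟨b1, b2, b3.mono hk⟩) s
  refine ⟨κ, hκ, ?_⟩
  rintro m K ⟨B, n, d, k, G, L, W, e, ψ, hd, hk, hG, hW, hinv, hr, hb, hi, rfl⟩
  have hψ : Continuous ψ := ψ.toLinearMap.continuous_of_finiteDimensional
  have hψs : Continuous ψ.symm := ψ.symm.toLinearMap.continuous_of_finiteDimensional
  have e1 : ψ.symm '' (ψ '' BP L W e) = BP L W e := by
    rw [image_image]
    simp
  have hb' : Bornology.IsBounded (BP L W e) := by
    rw [← e1]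
    exact ψ.symm.toContinuousLinearEquiv.toContinuousLinearMap.lipschitz.isBounded_image hb
  have hi' : (interior (BP L W e)).Nonempty := by
    have h1 : ψ.symm.toContinuousLinearEquiv.toHomeomorph '' interior (ψ '' BP L W e) =
        interior (ψ.symm.toContinuousLinearEquiv.toHomeomorph '' (ψ '' BP L W e)) :=
      Homeomorph.image_interior _ _
    have h2 : ψ.symm.toContinuousLinearEquiv.toHomeomorph '' (ψ '' BP L W e) = BP L W e := e1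
    rw [h2] at h1
    rw [← h1]
    exact hi.image _
  obtain ⟨c1, c2, c3⟩ := H d hd (Fin B) n m k G L W e ψ hk (fun i => HA _ _ (hG i)) hW hinv hr
    hb' hi'
  exact ⟨c1.image hψ, c2.linear_image ψ.toLinearMap, hi, c3⟩

theorem vbd_km (hD : S_GDD) (r s : ℕ) : ∃ A : ℝ → ℝ, (∀ δ, 0 < A δ) ∧ ∀ (n : ℕ) (K : Set (E n)),
    VBd r s n K → IsCompact K ∧ Convex ℝ K ∧ (interior K).Nonempty ∧
      ∀ δ : ℝ, 0 < δ → KM (A δ) δ (un K) :=
  km_profile (P := fun n K => VBd r s n K) (vbd_cc hD r s)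

/-- images of these bodies -/
theorem vbd_star (hD : S_GDD) (r s p : ℕ) : ∃ c : ℝ, 0 < c ∧ ∀ (m n : ℕ) (K : Set (E m))
    (T : E m →ₗ[ℝ] E n) (w : E n), VBd r s m K → m ≤ n + p → Function.Surjective T →
    IsCompact ((fun x => w + T x) '' K) ∧ Convex ℝ ((fun x => w + T x) '' K) ∧
    (interior ((fun x => w + T x) '' K)).Nonempty ∧ Star c (ind ((fun x => w + T x) '' K)) := by
  obtain ⟨A, -, H⟩ := vbd_km hD r s
  obtain ⟨c, hc, Hc⟩ := cyR cclR A 1 1 one_pos one_pos 0 p 1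
  refine ⟨c, hc, fun m n K T w hK hm hT => ?_⟩
  obtain ⟨h1, h2, h3, h4⟩ := H m K hK
  exact Hc _ _ (.image _ _ _ _ T w hm hT (.base _ _ h1 h2 h3 h4))

end Pool.Agent.N483.KM
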