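import Pool.Agent.N483.KM.Gd1
import Pool.Agent.R751.MB.All
import Pool.Agent.TH591.TT.FinS

/-!
# The four kinds of blocks
-/

set_option autoImplicit false

namespace Pool.Agent.N483.KM

open MeasureTheory Set Filter Topology
open scoped ENNReal InnerProductSpace Matrix
open Pool.Agent.R754.KG (E)
open Pool.Agent.Y506.PV (LCn)
open Pool.Agent.R751.MB (Eu AP Frame)

theorem ap_mono {κ : Type} [Fintype κ] {A A' : ℝ} (h : A ≤ A') {w : Eu κ → ℝ} (H : AP A w) :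
    AP A' w := by
  obtain ⟨h1, S, h2, h3⟩ := H
  refine ⟨h1, S, h2, fun g hg hb hd => (h3 g hg hb hd).trans ?_⟩
  refine mul_le_mul_of_nonneg_right h ?_
  exact div_nonneg (integral_nonneg fun x => mul_nonneg (by positivity) (h1.nonneg x)) h1.pos.le

theorem Gd.mono {A A' : ℝ} (h : A ≤ A') {k : ℕ} {G : Set (E k ≃ₗᵢ[ℝ] E k)} (H : Gd A G) : Gd A' G :=
  fun w h1 h2 h3 h4 h5 => ap_mono h (H w h1 h2 h3 h4 h5)

/-- signed permutations of the coordinates -/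
def GSY (k : ℕ) : Set (E k ≃ₗᵢ[ℝ] E k) :=
  {g | ∃ σ : Equiv.Perm (Fin k), ∀ x i, |g x i| = |x (σ i)|}

theorem gdS : ∃ A : ℝ, 0 < A ∧ ∀ k : ℕ, 1 ≤ k → Gd A (GSY k) := by
  obtain ⟨A, hA, H⟩ := Pool.Agent.R751.MB.pSYM
  refine ⟨A, hA, fun k hk w hw hlc _ _ hinv => ?_⟩
  refine H k w hk ⟨hw.nonneg, hw.int, hw.pos, hw.meas⟩ hlc fun σ x y hxy => ?_
  let ε : Fin k → ℝ := fun i => if x (σ i) = y i then 1 else -1
  have hε : ∀ i, |ε i| = 1 := by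
    intro i
    simp only [ε]
    split_ifs <;> simp
  obtain ⟨g, hg⟩ := Pool.Agent.R80.MB.exists_signed σ ε hε
  have hgx : g x = y := by
    ext i
    rw [hg]
    simp only [ε]
    split_ifs with h1
    · rw [one_mul, h1]
    · rcases abs_eq_abs.1 (hxy i) with h2 | h2
      · exact absurd h2.symm h1
      · rw [h2]
        ring
  rw [← hgx]
  refine hinv g ⟨σ, fun z i => ?_⟩ x
  rw [hg, abs_mul, hε, one_mul]

/-- conjugations of Hermitian matrices -/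
def GHE {𝕜 : Type} [RCLike 𝕜] {N k : ℕ} (Φ : E k →ₗ[ℝ] Matrix (Fin N) (Fin N) 𝕜) :
    Set (E k ≃ₗᵢ[ℝ] E k) :=
  {g | ∃ U ∈ Matrix.unitaryGroup (Fin N) 𝕜, ∀ x, Φ (g x) = U * Φ x * U.conjTranspose}

theorem gdH : ∃ A : ℝ, 0 < A ∧ ∀ (𝕜 : Type) [RCLike 𝕜] (N k : ℕ), 3 ≤ N →
    ∀ Φ : E k →ₗ[ℝ] Matrix (Fin N) (Fin N) 𝕜, Frame (ι := Fin k) Φ → Gd A (GHE Φ) := by
  obtain ⟨A, hA, H⟩ := Pool.Agent.R751.MB.pHER
  refine ⟨A, hA, fun 𝕜 _ N k hN Φ hΦ w hw hlc _ _ hinv => ?_⟩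
  refine H 𝕜 N hN (Fin k) Φ hΦ w ⟨hw.nonneg, hw.int, hw.pos, hw.meas⟩ hlc
    fun U hU x y hxy => ?_
  obtain ⟨g, hg⟩ := Pool.Agent.R751.MB.HerX.exists_conj ⟨hΦ.herm, hΦ.surj, hΦ.iso⟩ U hU
  have hgx : g x = y := Pool.Agent.R751.MB.HerX.phi_inj hΦ (by rw [hg, hxy])
  rw [← hgx]
  exact hinv g ⟨U, hU, hg⟩ x

open Pool.Agent.TH591.TT (V Ix InvR GS fac fac_pos)

theorem fac_le (Q q m N : ℕ) (hN : 3 ≤ N) (hq : q ≤ Q) (hm : m ≤ Q * N) :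
    fac q m N ≤ ((Q : ℝ) + 1) ^ 2 * (1 + 2 * Q) ^ 2 := by
  unfold fac
  have hN0 : (0 : ℝ) < N := by
    have : (3 : ℝ) ≤ N := by exact_mod_cast hN
    linarith
  have h1 : (q : ℝ) ≤ Q := by exact_mod_cast hq
  have h2 : (m : ℝ) ≤ Q * N := by exact_mod_cast hm
  have hN1 : (1 : ℝ) ≤ N := by
    have : (3 : ℝ) ≤ N := by exact_mod_cast hN
    linarith
  have h3 : ((q : ℝ) + m) / N ≤ 2 * Q := by
    rw [div_le_iff₀ hN0]
    have hQ : (0 : ℝ) ≤ Q := Nat.cast_nonneg Q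
    nlinarith
  have h4 : 0 ≤ ((q : ℝ) + m) / N := by positivity
  have hq0 : (0 : ℝ) ≤ q := Nat.cast_nonneg q
  exact mul_le_mul (pow_le_pow_left₀ (by positivity) (by linarith) 2)
    (pow_le_pow_left₀ (by positivity) (by linarith) 2) (by positivity) (by positivity)

theorem gdR (Q : ℕ) : ∃ A : ℝ, 0 < A ∧ ∀ (q m N k : ℕ), 3 ≤ N → q ≤ Q → m ≤ Q * N →
    ∀ ι : E k →ₗᵢ[ℝ] V (Ix q m N), InvR (κ := Fin k) ι → Gd A (GS (κ := Fin k) ι) := by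
  obtain ⟨C, hC, H⟩ := Pool.Agent.TH591.TT.spS
  refine ⟨C * (((Q : ℝ) + 1) ^ 2 * (1 + 2 * Q) ^ 2), by positivity,
    fun q m N k hN hq hm ι hι w hw hlc _ _ hinv => ?_⟩
  obtain ⟨ρ, μ, hμ, hprob, hmeas, hnn, hρlc, hρinv, hev, hAP⟩ :=
    Pool.Agent.R80.MB.core Pool.Agent.R751.MB.wht Pool.Agent.R751.MB.gen w
      ⟨hw.nonneg, hw.int, hw.pos, hw.meas⟩ hlc
  refine ap_mono (mul_le_mul_of_nonneg_left (fac_le Q q m N hN hq hm) hC.le)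
    (hAP (C * fac q m N) (mul_pos hC (fac_pos q m N)).le fun f hf hfL => ?_)
  subst hμ
  have hρ : Pool.Agent.TH591.TT.GD (GS (κ := Fin k) ι) ρ :=
    ⟨hnn, hmeas, hρlc, fun g hg x => hρinv g (fun x => hinv g hg x) x⟩
  have h4 := Pool.Agent.TH591.TT.centG (mul_pos hC (fac_pos q m N)) (H hN ι hι) ρ hρ
    hprob.measure_univ 1 one_pos hev f hf hfL
  rw [ProbabilityTheory.variance_eq_integral hfL.aestronglyMeasurable.aemeasurable]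
  rw [mul_one] at h4
  exact h4

end Pool.Agent.N483.KM
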