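import Pool.Agent.N483.KM.Stm3

/-!
# From one large fibre to all large fibres and to the body; Brunn–Minkowski deficit
-/

set_option autoImplicit false

namespace Pool.Agent.N483.KM

open MeasureTheory Set Filter Topology
open scoped ENNReal InnerProductSpace Pointwise
open Pool.Agent.R754.KG (E un sl Rv)
open Pool.Agent.R755.KF (CB)
open Pool.Agent.Y506.PV (CcW ind)

/-- F1: from one large fibre to another one -/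
def S_F2F : Prop := ∀ (d : ℕ) (ε : ℝ), 0 < ε → ∃ δ' : ℝ, 0 < δ' ∧ ∀ κ' δ : ℝ, 0 < κ' → 0 < δ →
  ∃ κ : ℝ, 0 < κ ∧ ∀ (N : ℕ) (K : Set (E N × E d)) (t0 t1 : E d), CB K →
  (∀ t, ε * Rv K t ≤ Rv K t0) → (∀ t, ε * Rv K t ≤ Rv K t1) → CcW κ' δ' (ind (sl K t0)) →
  CcW κ δ (ind (sl K t1))

/-- F2: concentration for the body from the large fibres -/
def S_CCL : Prop := ∀ (d : ℕ) (δ : ℝ), 0 < δ → ∃ ε δ' : ℝ, 0 < ε ∧ 0 < δ' ∧ ∀ κ' : ℝ, 0 < κ' →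
  ∃ κ : ℝ, 0 < κ ∧ ∀ (N n : ℕ) (e : (E N × E d) ≃ₗ[ℝ] E n) (K : Set (E N × E d)), CB K →
  (∀ t, (∀ t', ε * Rv K t' ≤ Rv K t) → CcW κ' δ' (ind (sl K t))) → CcW κ δ (ind (e '' K))

/-- F3: concentration for the body from one large fibre -/
def S_ONE : Prop := ∀ (d : ℕ) (ε δ : ℝ), 0 < ε → 0 < δ → ∃ δ' : ℝ, 0 < δ' ∧ ∀ κ' : ℝ, 0 < κ' →
  ∃ κ : ℝ, 0 < κ ∧ ∀ (N n : ℕ) (e : (E N × E d) ≃ₗ[ℝ] E n) (K : Set (E N × E d)) (t0 : E d),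
  CB K → (∀ t, ε * Rv K t ≤ Rv K t0) → CcW κ' δ' (ind (sl K t0)) → CcW κ δ (ind (e '' K))

/-- F4: bodies with bounded Brunn–Minkowski deficit, equal volumes -/
def S_BM1 : Prop := ∀ s : ℝ, 0 < s → ∃ δ' : ℝ, 0 < δ' ∧ ∀ κ' δ : ℝ, 0 < κ' → 0 < δ →
  ∃ κ : ℝ, 0 < κ ∧ ∀ (n : ℕ) (K L : Set (E n)), IsCompact K → Convex ℝ K →
  (interior K).Nonempty → IsCompact L → Convex ℝ L → (interior L).Nonempty →
  volume K = volume L → volume ((1 / 2 : ℝ) • (K + L)) ≤ ENNReal.ofReal s * volume K →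
  CcW κ' δ' (ind K) → CcW κ δ (ind L)

/-- F5: bodies with bounded Brunn–Minkowski deficit -/
def S_BMX : Prop := ∀ s : ℝ, 0 < s → ∃ δ' : ℝ, 0 < δ' ∧ ∀ κ' δ : ℝ, 0 < κ' → 0 < δ →
  ∃ κ : ℝ, 0 < κ ∧ ∀ (n : ℕ) (K L : Set (E n)), IsCompact K → Convex ℝ K →
  (interior K).Nonempty → IsCompact L → Convex ℝ L → (interior L).Nonempty →
  volume ((1 / 2 : ℝ) • (K + L)) ^ 2 ≤ ENNReal.ofReal s ^ 2 * (volume K * volume L) →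
  CcW κ' δ' (ind K) → CcW κ δ (ind L)

end Pool.Agent.N483.KM
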