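import Pool.Agent.N483.KM.StmV
import Pool.Agent.N483.KM.StmF

/-!
# Parameters, measures: statements
-/

set_option autoImplicit false

namespace Pool.Agent.N483.KM

open MeasureTheory Set Filter Topology
open scoped ENNReal InnerProductSpace
open Pool.Agent.R754.KG (E un sl Rv)
open Pool.Agent.R755.KF (CB)
open Pool.Agent.Y506.PV (CcW ind LCn)
open Pool.Agent.Y506.RG (EW VW Adm Star)

/-- convex lower semicontinuous functions on `E k × E d` with values in `(-∞, ∞]` -/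
structure XP {k d : ℕ} (V : E k → E d → EReal) : Prop where
  nbot : ∀ x t, V x t ≠ ⊥
  lsc : LowerSemicontinuous fun z : E k × E d => V z.1 z.2
  conv : ∀ (x y : E k) (t u : E d) (s : ℝ), 0 < s → s < 1 →
    V ((1 - s) • x + s • y) ((1 - s) • t + s • u) ≤
      ((1 - s : ℝ) : EReal) * V x t + (s : EReal) * V y u

/-- the set where `∑ i, V j i (L x i) t ≤ e j` for all `j` -/
def BP {r n d : ℕ} {ι : Type} [Fintype ι] {k : ι → ℕ} (L : E n →ₗ[ℝ] (∀ i, E (k i)))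
    (V : Fin r → ∀ i, E (k i) → E d → EReal) (e : Fin r → ℝ) : Set (E n × E d) :=
  {z | ∀ j, ∑ i, V j i (L z.1 i) z.2 ≤ (e j : EReal)}

/-- X1: bodies with parameters -/
def S_VPB : Prop := ∀ (r q d : ℕ) (A δ : ℝ), 0 < A → 0 < δ → ∃ κ : ℝ, 0 < κ ∧
  ∀ (ι : Type) [Fintype ι] [DecidableEq ι] (n m : ℕ) (k : ι → ℕ)
  (G : ∀ i, Set (E (k i) ≃ₗᵢ[ℝ] E (k i)))
  (L : E n →ₗ[ℝ] (∀ i, E (k i))) (V : Fin r → ∀ i, E (k i) → E d → EReal) (e : Fin r → ℝ)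
  (ψ : (E n × E d) ≃ₗ[ℝ] E m), ∑ i, k i ≤ n + q → (∀ i, Gd A (G i)) → (∀ j i, XP (V j i)) →
  (∀ i, ∀ g ∈ G i, ∀ j x t, V j i (g x) t = V j i x t) →
  (∀ i, ∀ g ∈ G i, ∀ y : E (k i), Pi.single i (g y - y) ∈ LinearMap.range L) →
  Bornology.IsBounded (BP L V e) → (interior (BP L V e)).Nonempty →
  IsCompact (BP L V e) ∧ Convex ℝ (BP L V e) ∧ CcW κ δ (ind (ψ '' BP L V e))

/-- X2: log-concave weights with parameters; `V 0` is the potential, the superlevel sets of the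
weight `w` are the images of the sublevel sets of the potential -/
def S_VPM : Prop := ∀ (r q d p : ℕ) (A δ : ℝ), 0 < A → 0 < δ → ∃ κ : ℝ, 0 < κ ∧
  ∀ (ι : Type) [Fintype ι] [DecidableEq ι] (n m : ℕ) (k : ι → ℕ)
  (G : ∀ i, Set (E (k i) ≃ₗᵢ[ℝ] E (k i)))
  (L : E n →ₗ[ℝ] (∀ i, E (k i))) (V : Fin (r + 1) → ∀ i, E (k i) → E d → EReal)
  (e : Fin (r + 1) → ℝ) (T : (E n × E d) →ₗ[ℝ] E m) (w : E m → ℝ), n + d ≤ m + p →
  Function.Surjective T → ∑ i, k i ≤ n + q → (∀ i, Gd A (G i)) → (∀ j i, XP (V j i)) →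
  (∀ i, ∀ g ∈ G i, ∀ j x t, V j i (g x) t = V j i x t) →
  (∀ i, ∀ g ∈ G i, ∀ y : E (k i), Pi.single i (g y - y) ∈ LinearMap.range L) →
  (∀ c : ℝ, Bornology.IsBounded (BP L V (Function.update e 0 c))) →
  (∃ c : ℝ, (interior (BP L V (Function.update e 0 c))).Nonempty) → (∀ x, 0 ≤ w x) →
  (∀ c : ℝ, {x | Real.exp (-c) ≤ w x} = T '' BP L V (Function.update e 0 c)) →
  LW w ∧ CcW κ δ w

/-- X3: from a weight to its projections -/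
def S_WIM : Prop := ∀ (j : ℕ) (δ : ℝ), 0 < δ → ∃ δ' : ℝ, 0 < δ' ∧ ∀ κ' : ℝ, 0 < κ' →
  ∃ κ : ℝ, 0 < κ ∧ ∀ (n m : ℕ) (T : E n →ₗ[ℝ] E m) (w : E n → ℝ) (u : E m → ℝ),
  Function.Surjective T → n ≤ m + j → LW w → LW u →
  (∀ c : ℝ, 0 < c → {x | c ≤ u x} = T '' {x | c ≤ w x}) → CcW κ' δ' w → CcW κ δ u

/-- X4: from a projection to the weight -/
def S_WLF : Prop := ∀ (j : ℕ) (δ : ℝ), 0 < δ → ∃ δ' : ℝ, 0 < δ' ∧ ∀ κ' : ℝ, 0 < κ' →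
  ∃ κ : ℝ, 0 < κ ∧ ∀ (n m : ℕ) (T : E n →ₗ[ℝ] E m) (w : E n → ℝ) (u : E m → ℝ),
  Function.Surjective T → n ≤ m + j → LW w → LW u →
  (∀ c : ℝ, 0 < c → {x | c ≤ u x} = T '' {x | c ≤ w x}) → CcW κ' δ' u → CcW κ δ w

/-- X5: from the exponential tilts to all log-concave factors of finite rank -/
def S_WTL : Prop := ∀ (d : ℕ) (δ : ℝ), 0 < δ → ∃ δ' : ℝ, 0 < δ' ∧ ∀ κ' : ℝ, 0 < κ' →
  ∃ κ : ℝ, 0 < κ ∧ ∀ (N n : ℕ) (e : (E N × E d) ≃ₗ[ℝ] E n) (w : E n → ℝ) (φ : E d → ℝ), LW w →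
  (∀ t, 0 ≤ φ t) → LCn φ → LW (fun z => w z * φ (e.symm z).2) →
  (∀ a : E d, LW (fun z => w z * Real.exp ⟪a, (e.symm z).2⟫_ℝ) ∧
    CcW κ' δ' (fun z => w z * Real.exp ⟪a, (e.symm z).2⟫_ℝ)) →
  CcW κ δ fun z => w z * φ (e.symm z).2

/-- X6: the functional inequality -/
def S_WST : Prop := ∃ δ' : ℝ, 0 < δ' ∧ ∀ κ' : ℝ, 0 < κ' → ∃ c : ℝ, 0 < c ∧
  ∀ (n : ℕ) (w : E n → ℝ), LW w → CcW κ' δ' w → Star c w

end Pool.Agent.N483.KM
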