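import Pool.Agent.N483.KM.FinB
import Pool.Agent.N483.KM.Gds
import Pool.Agent.N483.KM.StmX
import Pool.Agent.N438.KM.LWC
import Pool.Agent.N426.KM.Rev
import Pool.Agent.N232.KM.PRW
import Pool.Agent.N385.KM.BWG
import Pool.Agent.N334.KM.WMC
import Pool.Agent.N697.KM.BWC
import Pool.Agent.N930.KM.Bwi
import Pool.Agent.N383.KM.Wse
import Pool.Agent.N78.KM.WPL
import Pool.Agent.N263.KM.WSP
import Pool.Agent.N933.KM.Gib
import Pool.Agent.N234.KM.Vgw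
import Pool.Agent.N624.KM.VRR
import Pool.Agent.N896.KM.VAP
import Pool.Agent.N712.KM.VRX
import Pool.Agent.N247.KM.VER

/-!
# Weights and blocks: the theorems without hypotheses
-/

set_option autoImplicit false

namespace Pool.Agent.N483.KM

open Pool.Agent.R755.KF

theorem bwcR : S_BWC := Pool.Agent.N697.KM.t_BWC Pool.Agent.N426.KM.Rev.t_REV
  Pool.Agent.N232.KM.t_PRW Pool.Agent.N232.KM.t_CUBE Pool.Agent.N385.KM.t_BWG
  Pool.Agent.N334.KM.t_WMC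

theorem bwiR : S_BWI := Pool.Agent.N930.KM.t_BWI Pool.Agent.N385.KM.t_BWG Pool.Agent.N334.KM.t_WMC

theorem wseR : S_WSE := Pool.Agent.N383.KMW.t_WSE Pool.Agent.N438.KM.t_LWD bwcR bwiR
  Pool.Agent.N385.KM.t_BWG Pool.Agent.N334.KM.t_WMC seceR

theorem wexR : S_WEX := Pool.Agent.N383.KMW.t_WEX Pool.Agent.N438.KM.t_LWD bwcR bwiR
  Pool.Agent.N385.KM.t_BWG Pool.Agent.N334.KM.t_WMC (one f2fR cclR)

theorem wplR : S_WPL := Pool.Agent.N78.WPL.t_WPL bwcR bwiR Pool.Agent.N385.KM.t_BWG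
  Pool.Agent.N334.KM.t_WMC bmxR

theorem gibR : S_GIB := Pool.Agent.N933.KM.t_GIB Pool.Agent.N438.KM.t_LWC bwcR
  Pool.Agent.N385.KM.t_BWG liftR seceR Pool.Agent.N263.KM.t_WSP

theorem vrrR : S_VRR := Pool.Agent.N624.KM.t_VRR Pool.Agent.N234.KM.t_VGW gibR

theorem vrxR : S_VRX := Pool.Agent.N712.KM.t_VRX Pool.Agent.N896.KM.t_VAP vrrR

end Pool.Agent.N483.KM
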