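import Pool.Agent.N483.KM.StmV
import Pool.Agent.Y592.RG.Norm
import Pool.Agent.Y849.RG.One
import Pool.Agent.Y445.RG.Varr
import Pool.Agent.N697.KM.Ray0

/-!
# Poincaré inequality for log-concave weights on the line, in isotropic position
-/

set_option autoImplicit false

namespace Pool.Agent.N483.KM

open MeasureTheory Set Filter Topology
open scoped ENNReal InnerProductSpace
open Pool.Agent.R754.KG (E)
open Pool.Agent.Y506.PV (LCn)
open Pool.Agent.R751.MB (Eu EW VW AP)
open Pool.Agent.Y506.RG (ND OB)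
open Pool.Agent.N697.KM (io io_apply io_eq int_eq mp me)
open Pool.Agent.Y592.RG (sub_int sub_eq)

theorem io_norm (t : ℝ) : ‖io t‖ = |t| := by
  rw [EuclideanSpace.norm_eq]
  simp [io_apply, Real.sqrt_sq_eq_abs]

theorem io_comb (a b x y : ℝ) : a • io x + b • io y = io (a * x + b * y) := by
  ext i
  simp [io_apply]

/-- normalisation of a weight on the line -/
theorem nrm1 (w : Eu (Fin 1) → ℝ) (hw : Pool.Agent.R751.MB.Adm w) (hlc : Pool.Agent.R751.MB.LCn w)
    (hc : Continuous w) (hp : ∀ x, 0 < w x) :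
    ∃ (σ m : ℝ) (f : ℝ → ℝ), 0 < σ ∧ ND f ∧
      ∀ v : Eu (Fin 1) → ℝ, EW w v = ∫ t, f t * v (io (m + σ * t)) := by
  have hioc : Continuous io := by
    unfold io
    fun_prop
  set k : ℝ → ℝ := fun s => w (io s) with hk
  have hkpos : ∀ s, 0 < k s := fun s => hp _
  have hkc : Continuous k := hc.comp hioc
  have hI : Integrable fun s => (1 + s ^ 2) * k s := by
    have h1 : Integrable ((fun s => (1 + s ^ 2) * k s) ∘ fun x : Eu (Fin 1) => x 0) := by
      refine hw.int.congr (Eventually.of_forall fun x => ?_)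
      have hx : ‖x‖ ^ 2 = x 0 ^ 2 := by
        rw [EuclideanSpace.norm_sq_eq]
        simp
      simp only [Function.comp_apply, hk, io_eq, hx]
    exact (mp.integrable_comp_emb me).1 h1
  have hint : ∀ (p : ℝ → ℝ), Continuous p → (∀ s, |p s| ≤ 1 + s ^ 2) →
      Integrable fun s => p s * k s := by
    intro p hp hb
    have hm0 : AEStronglyMeasurable (fun s => p s * k s) volume := (hp.mul hkc).aestronglyMeasurable
    refine hI.mono hm0 (Eventually.of_forall fun s => ?_)
    rw [Real.norm_eq_abs, Real.norm_eq_abs, abs_mul (p s) (k s), abs_mul (1 + s ^ 2) (k s)]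
    exact mul_le_mul_of_nonneg_right ((hb s).trans (le_abs_self _)) (abs_nonneg _)
  have hk0 : Integrable k := by
    have h1 := hint (fun _ => 1) continuous_const (fun s => by
      rw [abs_one]
      nlinarith [sq_nonneg s])
    simpa using h1
  have hk1 : Integrable fun s => s * k s := hint (fun s => s) continuous_id (fun s => by
    rw [abs_le]
    constructor <;> nlinarith [sq_nonneg (s - 1), sq_nonneg (s + 1)])
  have hk2 : Integrable fun s => s ^ 2 * k s := hint (fun s => s ^ 2) (by fun_prop) (fun s => by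
    rw [abs_of_nonneg (sq_nonneg s)]
    linarith)
  set Z : ℝ := ∫ s, k s with hZdef
  have hZ : 0 < Z := by
    rw [hZdef, integral_pos_iff_support_of_nonneg (fun s => (hkpos s).le) hk0]
    have h1 : Function.support k = univ := by
      ext s
      simp [(hkpos s).ne']
    rw [h1]
    simp
  set m : ℝ := (∫ s, s * k s) / Z with hmdef
  have hm' : ∫ s, s * k s = m * Z := by
    rw [hmdef]
    field_simp
  have hc1 : Integrable fun s => (s - m) * k s := by
    have h1 := hk1.sub (hk0.const_mul m)
    refine h1.congr (Eventually.of_forall fun s => ?_)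
    simp only [Pi.sub_apply]
    ring
  have hc2 : Integrable fun s => (s - m) ^ 2 * k s := by
    have h1 := (hk2.sub (hk1.const_mul (2 * m))).add (hk0.const_mul (m ^ 2))
    refine h1.congr (Eventually.of_forall fun s => ?_)
    simp only [Pi.sub_apply, Pi.add_apply]
    ring
  have hmean : ∫ s, (s - m) * k s = 0 := by
    have h1 : ∫ s, (s - m) * k s = ∫ s, (s * k s - m * k s) := by
      congr 1
      funext s
      ring
    rw [h1, integral_sub hk1 (hk0.const_mul m), integral_const_mul, hm']
    ring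
  have hvpos : 0 < ∫ s, (s - m) ^ 2 * k s := by
    rw [integral_pos_iff_support_of_nonneg
      (fun s => mul_nonneg (sq_nonneg _) (hkpos s).le) hc2]
    have h1 : Function.support (fun s => (s - m) ^ 2 * k s) = {m}ᶜ := by
      ext s
      simp [(hkpos s).ne', sub_eq_zero]
    rw [h1]
    have h2 : Ioi m ⊆ {m}ᶜ := fun s hs => ne_of_gt hs
    have h3 : (0 : ENNReal) < volume (Ioi m) := by simp
    exact h3.trans_le (measure_mono h2)
  set σ : ℝ := √((∫ s, (s - m) ^ 2 * k s) / Z) with hσdef
  have hσ2 : σ ^ 2 = (∫ s, (s - m) ^ 2 * k s) / Z := Real.sq_sqrt (by positivity)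
  have hσ : 0 < σ := Real.sqrt_pos.mpr (by positivity)
  set f : ℝ → ℝ := fun t => σ / Z * k (m + σ * t) with hf
  have hfpos : ∀ s, 0 < f s := fun s => by
    have := hkpos (m + σ * s)
    simp only [hf]
    positivity
  refine ⟨σ, m, f, hσ, ⟨hfpos, ?_, ?_, ?_, ?_, ?_, ?_, ?_⟩, fun v => ?_⟩
  · simp only [hf]
    fun_prop
  · intro x y t ht0 ht1
    simp only [hf]
    have hc : 0 < σ / Z := by positivity
    have hx := hkpos (m + σ * x)
    have hy := hkpos (m + σ * y)
    rw [Real.mul_rpow hc.le hx.le, Real.mul_rpow hc.le hy.le]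
    have h1 : (σ / Z) ^ (1 - t) * (σ / Z) ^ t = σ / Z := by
      rw [← Real.rpow_add hc]
      simp
    have h2 : k (m + σ * x) ^ (1 - t) * k (m + σ * y) ^ t ≤
        k (m + σ * ((1 - t) * x + t * y)) := by
      have h3 := hlc (io (m + σ * x)) (io (m + σ * y)) t ht0 ht1
      rw [io_comb] at h3
      have h5 : (1 - t) * (m + σ * x) + t * (m + σ * y) = m + σ * ((1 - t) * x + t * y) := by
        ring
      rw [h5] at h3
      exact h3
    calc (σ / Z) ^ (1 - t) * k (m + σ * x) ^ (1 - t) * ((σ / Z) ^ t * k (m + σ * y) ^ t)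
        = ((σ / Z) ^ (1 - t) * (σ / Z) ^ t) *
          (k (m + σ * x) ^ (1 - t) * k (m + σ * y) ^ t) := by ring
      _ = σ / Z * (k (m + σ * x) ^ (1 - t) * k (m + σ * y) ^ t) := by rw [h1]
      _ ≤ _ := mul_le_mul_of_nonneg_left h2 hc.le
  · exact (sub_int hσ hk0).const_mul (σ / Z)
  · have h1 := sub_int (m := m) hσ (hc2.const_mul (1 / (σ * Z)))
    refine h1.congr (Eventually.of_forall fun t => ?_)
    simp only [hf]
    field_simp
    ring
  · simp only [hf]
    rw [integral_const_mul, sub_eq hσ, ← hZdef]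
    field_simp
  · have h1 : ∀ t, t * f t = (fun s => 1 / Z * ((s - m) * k s)) (m + σ * t) := by
      intro t
      simp only [hf]
      field_simp
      ring
    have h3 := sub_eq (G := fun s => 1 / Z * ((s - m) * k s)) (m := m) hσ
    have h4 : ∫ s, 1 / Z * ((s - m) * k s) = 0 := by
      rw [integral_const_mul, hmean, mul_zero]
    refine (integral_congr_ae (Eventually.of_forall h1)).trans (h3.trans ?_)
    show σ⁻¹ * ∫ s, 1 / Z * ((s - m) * k s) = 0
    rw [h4, mul_zero]
  · have h1 : ∀ t, t ^ 2 * f t = (fun s => 1 / (σ * Z) * ((s - m) ^ 2 * k s)) (m + σ * t) := by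
      intro t
      simp only [hf]
      field_simp
      ring
    have h2 : ∫ s, (s - m) ^ 2 * k s = σ ^ 2 * Z := by
      rw [hσ2]
      field_simp
    have h3 := sub_eq (G := fun s => 1 / (σ * Z) * ((s - m) ^ 2 * k s)) (m := m) hσ
    have h4 : ∫ s, 1 / (σ * Z) * ((s - m) ^ 2 * k s) = 1 / (σ * Z) * (σ ^ 2 * Z) := by
      rw [integral_const_mul, h2]
    refine (integral_congr_ae (Eventually.of_forall h1)).trans (h3.trans ?_)
    show σ⁻¹ * ∫ s, 1 / (σ * Z) * ((s - m) ^ 2 * k s) = 1
    rw [h4]
    field_simp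
  · have h1 : ∫ x, w x = Z := int_eq w
    unfold EW
    rw [h1, int_eq (fun x => v x * w x)]
    have h3 := sub_eq (G := fun s => 1 / Z * (v (io s) * k s) * σ) (m := m) hσ
    have h4 : ∀ t, f t * v (io (m + σ * t)) = (fun s => 1 / Z * (v (io s) * k s) * σ) (m + σ * t) := by
      intro t
      simp only [hf]
      ring
    rw [integral_congr_ae (Eventually.of_forall h4), h3, integral_mul_const, integral_const_mul]
    change (∫ s, v (io s) * k s) / Z = _
    field_simp

/-- **the Poincaré inequality on the line, in isotropic position** -/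
theorem gd1 : ∃ A : ℝ, 0 < A ∧ ∀ G : Set (E 1 ≃ₗᵢ[ℝ] E 1), Gd A G := by
  obtain ⟨C, hC1, HC⟩ := Pool.Agent.Y849.RG.one1
  refine ⟨4 * C ^ 2, by positivity, fun G w hw hlc hc hp _ => ?_⟩
  have hw' : Pool.Agent.R751.MB.Adm w := ⟨hw.nonneg, hw.int, hw.pos, hw.meas⟩
  obtain ⟨σ, m, f, hσ, hf, hEW⟩ := nrm1 w hw' hlc hc hp
  have hne : σ⁻¹ ≠ 0 := (inv_pos.2 hσ).ne'
  let S : Eu (Fin 1) ≃L[ℝ] Eu (Fin 1) :=
    (LinearEquiv.smulOfNeZero ℝ (Eu (Fin 1)) σ⁻¹ hne).toContinuousLinearEquiv
  have hS : ∀ x, S x = σ⁻¹ • x := fun x => rfl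
  have hSio : ∀ t, S (io (m + σ * t)) = io (m / σ + t) := fun t => by
    rw [hS]
    ext i
    simp only [PiLp.smul_apply, io_apply, smul_eq_mul]
    field_simp
  have i1 : Integrable fun s => s * f s := by
    have h1 : Integrable fun s => (f s + s ^ 2 * f s) := hf.int0.add hf.int2
    refine h1.mono (continuous_id.mul hf.cont).aestronglyMeasurable
      (Eventually.of_forall fun s => ?_)
    have h2 := hf.pos s
    rw [Real.norm_eq_abs, Real.norm_eq_abs, abs_mul, abs_of_pos h2,
      abs_of_pos (by positivity : 0 < f s + s ^ 2 * f s)]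
    have h3 : |s| ≤ 1 + s ^ 2 := by
      rw [abs_le]
      constructor <;> nlinarith [sq_nonneg (s - 1), sq_nonneg (s + 1)]
    nlinarith
  refine ⟨hw', S, fun θ => ?_, fun g hg hB hL => ?_⟩
  · have hin : ∀ t, ⟪S (io (m + σ * t)), θ⟫_ℝ = (m / σ + t) * θ 0 := fun t => by
      rw [hSio, PiLp.inner_apply]
      simp [io_apply, mul_comm]
    unfold VW
    rw [hEW, hEW]
    simp only [hin]
    have e1 : ∫ t, f t * ((m / σ + t) * θ 0) = m / σ * θ 0 := by
      have h1 : ∀ t, f t * ((m / σ + t) * θ 0) = m / σ * θ 0 * f t + θ 0 * (t * f t) := fun t => by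
        ring
      rw [integral_congr_ae (Eventually.of_forall h1),
        integral_add (hf.int0.const_mul _) (i1.const_mul _), integral_const_mul,
        integral_const_mul, hf.mass, hf.mean]
      ring
    have e2 : ∫ t, f t * ((m / σ + t) * θ 0) ^ 2 = (m / σ) ^ 2 * θ 0 ^ 2 + θ 0 ^ 2 := by
      have h1 : ∀ t, f t * ((m / σ + t) * θ 0) ^ 2 = (m / σ) ^ 2 * θ 0 ^ 2 * f t +
          2 * (m / σ) * θ 0 ^ 2 * (t * f t) + θ 0 ^ 2 * (t ^ 2 * f t) := fun t => by
        ring
      have h2 : Integrable fun t => (m / σ) ^ 2 * θ 0 ^ 2 * f t +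
          2 * (m / σ) * θ 0 ^ 2 * (t * f t) := (hf.int0.const_mul _).add (i1.const_mul _)
      rw [integral_congr_ae (Eventually.of_forall h1), integral_add h2 (hf.int2.const_mul _),
        integral_add (hf.int0.const_mul _) (i1.const_mul _), integral_const_mul,
        integral_const_mul, integral_const_mul, hf.mass, hf.mean, hf.var]
      ring
    rw [e1, e2]
    have hθ : ‖θ‖ ^ 2 = θ 0 ^ 2 := by
      rw [EuclideanSpace.norm_sq_eq]
      simp
    rw [hθ]
    ring
  · obtain ⟨B, hB⟩ := hB
    obtain ⟨L, hL⟩ := hL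
    have hB0 : 0 ≤ B := (abs_nonneg _).trans (hB 0)
    let c : ℝ → ℝ := fun t => g (io (m / σ + t))
    let c' : ℝ → ℝ := fun t => fderiv ℝ g (io (m / σ + t)) (io 1)
    have hcd : ∀ t, HasDerivAt c (c' t) t := fun t => by
      have h1 : HasDerivAt (fun t : ℝ => io (m / σ + t)) (io 1) t := by
        have h2 : (fun t : ℝ => io (m / σ + t)) = fun t => io (m / σ) + t • io 1 := by
          funext t
          ext i
          simp [io_apply]
        rw [h2]
        simpa using ((hasDerivAt_id t).smul_const (io 1)).const_add (io (m / σ))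
      exact (hg.differentiable one_ne_zero _).hasFDerivAt.comp_hasDerivAt t h1
    have hioc : Continuous io := by
      unfold io
      fun_prop
    have hc'c : Continuous c' := by
      have h1 : Continuous (fderiv ℝ g) := hg.continuous_fderiv one_ne_zero
      have h2 : Continuous fun t : ℝ => io (m / σ + t) := hioc.comp (by fun_prop)
      exact (h1.comp h2).clm_apply continuous_const
    have hcc : Continuous c := continuous_iff_continuousAt.2 fun t => (hcd t).continuousAt
    have hc'le : ∀ t, |c' t| ≤ ‖fderiv ℝ g (io (m / σ + t))‖ := fun t => by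
      have h1 := (fderiv ℝ g (io (m / σ + t))).le_opNorm (io 1)
      rw [io_norm, abs_one, mul_one] at h1
      exact h1
    have hd : ∀ s, HasDerivAt (fun s => c s / (B + 1)) (c' s / (B + 1)) s :=
      fun s => (hcd s).div_const _
    have key := Pool.Agent.Y445.RG.hardy hf (HC f hf) (fun s => c s / (B + 1))
      (fun s => c' s / (B + 1)) hd (hc'c.div_const _) (fun s => by
        rw [abs_div, abs_of_pos (by linarith : 0 < B + 1), div_le_one (by linarith)]
        exact (hB _).trans (by linarith)) (L / (B + 1)) (fun s => by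
        rw [abs_div, abs_of_pos (by linarith : 0 < B + 1)]
        exact div_le_div_of_nonneg_right ((hc'le s).trans (hL _)) (by linarith))
    rw [Pool.Agent.Y445.RG.int_mu hf, Pool.Agent.Y445.RG.int_mu hf] at key
    have hB1 : 0 < B + 1 := by linarith
    have k1 : ∫ s, f s * (c s / (B + 1) - c 0 / (B + 1)) ^ 2 =
        (1 / (B + 1) ^ 2) * ∫ s, f s * (c s - c 0) ^ 2 := by
      rw [← integral_const_mul]
      refine integral_congr_ae (Eventually.of_forall fun s => ?_)
      simp only []
      field_simp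
    have k2 : ∫ s, f s * (c' s / (B + 1)) ^ 2 = (1 / (B + 1) ^ 2) * ∫ s, f s * c' s ^ 2 := by
      rw [← integral_const_mul]
      refine integral_congr_ae (Eventually.of_forall fun s => ?_)
      simp only []
      field_simp
    rw [k1, k2] at key
    have key2 : ∫ s, f s * (c s - c 0) ^ 2 ≤ 4 * C ^ 2 * ∫ s, f s * c' s ^ 2 := by
      have h1 : 0 < 1 / (B + 1) ^ 2 := by positivity
      have h2 : 1 / (B + 1) ^ 2 * ∫ s, f s * (c s - c 0) ^ 2 ≤
          1 / (B + 1) ^ 2 * (4 * C ^ 2 * ∫ s, f s * c' s ^ 2) := by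
        calc _ ≤ _ := key
          _ = _ := by ring
      exact le_of_mul_le_mul_left h2 h1
    have ion : ∀ {u : ℝ → ℝ}, Continuous u → ∀ {D : ℝ}, (∀ s, |u s| ≤ D) →
        Integrable (fun s => f s * u s) := fun {u} hu {D} hD =>
      Integrable.mul_bdd (c := D) hf.int0 hu.aestronglyMeasurable (Eventually.of_forall fun s => by
        rw [Real.norm_eq_abs]
        exact hD s)
    have j1 := ion hcc (D := B) fun s => hB _
    have j2 := ion (u := fun s => c s ^ 2) (hcc.pow 2) (D := B ^ 2) fun s => by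
      rw [abs_pow]
      exact pow_le_pow_left₀ (abs_nonneg _) (hB _) 2
    have hLHS : VW w (fun x => g (S x)) ≤ ∫ s, f s * (c s - c 0) ^ 2 := by
      unfold VW
      rw [hEW, hEW]
      simp only [hSio]
      have h1 : ∀ s, f s * (c s - c 0) ^ 2 =
          f s * c s ^ 2 - 2 * c 0 * (f s * c s) + c 0 ^ 2 * f s := fun s => by ring
      have h2 : Integrable fun s => f s * c s ^ 2 - 2 * c 0 * (f s * c s) :=
        j2.sub (j1.const_mul _)
      rw [integral_congr_ae (Eventually.of_forall h1),
        integral_add h2 (hf.int0.const_mul _),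
        integral_sub j2 (j1.const_mul _), integral_const_mul, integral_const_mul, hf.mass]
      change (∫ t, f t * c t ^ 2) - (∫ t, f t * c t) ^ 2 ≤ _
      nlinarith [sq_nonneg ((∫ t, f t * c t) - c 0)]
    have hRHS : ∫ s, f s * c' s ^ 2 ≤ EW w fun x => ‖fderiv ℝ g (S x)‖ ^ 2 := by
      rw [hEW]
      simp only [hSio]
      have hfc : Continuous (fderiv ℝ g) := hg.continuous_fderiv one_ne_zero
      have h2 : Continuous fun t : ℝ => io (m / σ + t) := hioc.comp (by fun_prop)
      refine integral_mono (ion (u := fun s => c' s ^ 2) (hc'c.pow 2) (D := L ^ 2) fun s => ?_)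
        (ion (u := fun s => ‖fderiv ℝ g (io (m / σ + s))‖ ^ 2) ((hfc.comp h2).norm.pow 2)
          (D := L ^ 2) fun s => ?_) fun s => ?_
      · rw [abs_pow]
        exact pow_le_pow_left₀ (abs_nonneg _) ((hc'le s).trans (hL _)) 2
      · rw [abs_pow, abs_norm]
        exact pow_le_pow_left₀ (norm_nonneg _) (hL _) 2
      · refine mul_le_mul_of_nonneg_left ?_ (hf.pos s).le
        rw [← sq_abs (c' s)]
        exact pow_le_pow_left₀ (abs_nonneg _) (hc'le s) 2
    refine hLHS.trans (key2.trans ?_)
    exact mul_le_mul_of_nonneg_left hRHS (by positivity)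

end Pool.Agent.N483.KM
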