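import Pool.Agent.N483.KM.FinV
import Pool.Agent.N483.KM.ClsM
import Pool.Agent.N73.KM.Wst
import Pool.Agent.N568.KM.PBA
import Pool.Agent.N427.KM.PFR
import Pool.Agent.N603.KM.PIS
import Pool.Agent.N160.KM.GDD
import Pool.Agent.N78.KM.VPM
import Pool.Agent.N697.KM.WIL
import Pool.Agent.N711.KM.WTL

/-!
# Weights, second part: the theorems without hypotheses
-/

set_option autoImplicit false

namespace Pool.Agent.N483.KM

open Pool.Agent.R755.KF

theorem gddR : S_GDD := Pool.Agent.N160.KM.GDD.t_GDD Pool.Agent.N568.KM.t_PBA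
  Pool.Agent.N427.PFR.t_PFR Pool.Agent.N603.KM.t_PIS

theorem vpmR : S_VPM := Pool.Agent.N78.VPM.t_VPM vpbR Pool.Agent.N334.KM.t_WMC

theorem wimR : S_WIM := Pool.Agent.N697.KM.t_WIM bwcR bwiR Pool.Agent.N385.KM.t_BWG

theorem wlfR : S_WLF := Pool.Agent.N697.KM.t_WLF bwcR bwiR Pool.Agent.N385.KM.t_BWG liftR

theorem wtlR : S_WTL := Pool.Agent.N711.KM.t_WTL Pool.Agent.N438.KM.t_LWD wseR wexR

theorem wstR : S_WST := Pool.Agent.N73.KM.t_WST bwcR Pool.Agent.N385.KM.t_BWG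
  Pool.Agent.N334.KM.t_WMC

end Pool.Agent.N483.KM
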