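import Pool.Agent.N483.KM.Meas
import Pool.Agent.N558.KM.LSE
import Pool.Agent.N482.KM.WBR
import Pool.Agent.N73.KM.Wkm

/-!
# The class of weights: the theorems without hypotheses
-/

set_option autoImplicit false

namespace Pool.Agent.N483.KM

open MeasureTheory Set Filter Topology
open scoped ENNReal InnerProductSpace
open Pool.Agent.R755.KF
open Pool.Agent.R754.KG (E)
open Pool.Agent.Y506.PV (CcW ind LCn)
open Pool.Agent.Y506.RG (EW VW Adm Star)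

theorem lseR : S_LSE := Pool.Agent.N558.KM.t_LSE

theorem lprR : S_LPR := Pool.Agent.N558.KM.t_LPR

theorem lboR : S_LBO := Pool.Agent.N558.KM.t_LBO

theorem wbrR : S_WBR := Pool.Agent.N482.KM.t_WBR

theorem wkmR : S_WKM := Pool.Agent.N73.KM.t_WKM bwcR Pool.Agent.N385.KM.t_BWG
  Pool.Agent.N334.KM.t_WMC

theorem mc_ccR (A : ℝ → ℝ) (ε : ℝ) (hε : 0 < ε) (d h : ℕ) :
    ∀ δ : ℝ, 0 < δ → ∃ κ : ℝ, 0 < κ ∧ ∀ (n : ℕ) (w : E n → ℝ), MC A ε d h n w → LW w ∧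
      CcW κ δ w :=
  mc_cc wimR wlfR wseR wexR wtlR Pool.Agent.N232.KM.t_PRW lprR A ε hε d h

/-- the functional inequality for the class -/
theorem mc_star (A : ℝ → ℝ) (ε : ℝ) (hε : 0 < ε) (d h : ℕ) : ∃ c : ℝ, 0 < c ∧
    ∀ (n : ℕ) (w : E n → ℝ), MC A ε d h n w → LW w ∧ Star c w := by
  obtain ⟨δ, hδ, G⟩ := wstR
  obtain ⟨κ, hκ, H⟩ := mc_ccR A ε hε d h δ hδ
  obtain ⟨c, hc, Hc⟩ := G κ hκ
  refine ⟨c, hc, fun m w hw => ?_⟩
  obtain ⟨h1, h2⟩ := H m w hw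
  exact ⟨h1, Hc m w h1 h2⟩

/-- weak Poincaré inequalities for the class -/
theorem mc_kmw (A : ℝ → ℝ) (ε : ℝ) (hε : 0 < ε) (d h : ℕ) : ∃ A' : ℝ → ℝ,
    ∀ (n : ℕ) (w : E n → ℝ), MC A ε d h n w → ∀ δ : ℝ, 0 < δ → KMW (A' δ) δ w := by
  have h1 := mc_ccR A ε hε d h
  choose! κ hκ H using h1
  obtain ⟨A', HA⟩ := wkmR κ hκ
  refine ⟨A', fun n w hw δ hδ => ?_⟩
  intro k P s hs hvar v C hv hv1 hvl
  by_cases hd : ∃ δ : ℝ, 0 < δ
  · exact HA n w (H 1 one_pos n w hw).1 (fun δ hδ => (H δ hδ n w hw).2) δ hδ k P s hs hvar v C hv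
      hv1 hvl
  · exact absurd ⟨δ, hδ⟩ hd

end Pool.Agent.N483.KM
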