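import Pool.Agent.N483.KM.ClsM2

/-!
# From the Gibbs densities to the level sets: final form
-/

set_option autoImplicit false

namespace Pool.Agent.N483.KM

open MeasureTheory Set Filter Topology
open scoped ENNReal InnerProductSpace
open Pool.Agent.R754.KG (E un)
open Pool.Agent.R755.KF
open Pool.Agent.R755.KS
open Pool.Agent.Y506.PV (CcW ind LCn)
open Pool.Agent.Y506.RG (EW VW Adm Star pm)

/-- level sets whose Gibbs densities satisfy weak Poincaré inequalities -/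
def Micro (A : ℝ → ℝ) (r q n : ℕ) (K : Set (E n)) : Prop :=
  1 ≤ n ∧ ∃ (N : ℕ) (ψ : (E n × E q) ≃ₗ[ℝ] E N) (S : Fin r → E N → ℝ) (e : Fin r → ℝ),
    (∀ j, ConvexOn ℝ univ (S j)) ∧ (∀ j z, 0 ≤ S j z) ∧
    (∀ s : Fin r → ℝ, Bornology.IsBounded {z : E N | ∀ j, S j z ≤ s j}) ∧
    (∃ x : E n, ∀ j, S j (ψ (x, 0)) < e j) ∧
    (∀ (l : Fin r → ℝ) (a : E q), (∀ j, 0 < l j) → Adm (gw ψ S l a) ∧
      ∀ δ : ℝ, 0 < δ → KMW (A δ) δ (gw ψ S l a)) ∧
    K = {x : E n | ∀ j, S j (ψ (x, 0)) ≤ e j}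

theorem micro_cc (A : ℝ → ℝ) (r q : ℕ) (δ : ℝ) (hδ : 0 < δ) : ∃ κ : ℝ, 0 < κ ∧ ∀ (n : ℕ)
    (K : Set (E n)), Micro A r q n K → IsCompact K ∧ Convex ℝ K ∧ (interior K).Nonempty ∧
    CcW κ δ (ind K) := by
  obtain ⟨δ', hδ', H⟩ := gibR r q δ hδ
  have hA : 0 < max (A (δ' / 2)) 1 := lt_max_of_lt_right one_pos
  obtain ⟨κ, hκ, H1⟩ := H (Real.sqrt (δ' / (2 * max (A (δ' / 2)) 1)))
    (Real.sqrt_pos.2 (by positivity))
  refine ⟨κ, hκ, ?_⟩
  rintro n K ⟨hn, N, ψ, S, e, h1, h2, h3, h4, h5, rfl⟩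
  have hψ : Continuous ψ := ψ.toLinearMap.continuous_of_finiteDimensional
  have hS : ∀ j, Continuous (S j) := fun j => (h1 j).locallyLipschitz.continuous
  have hφ : ∀ j, Continuous fun x : E n => S j (ψ (x, 0)) := fun j =>
    (hS j).comp (hψ.comp (by fun_prop))
  have hcl : IsClosed {x : E n | ∀ j, S j (ψ (x, 0)) ≤ e j} := by
    have e1 : {x : E n | ∀ j, S j (ψ (x, 0)) ≤ e j} = ⋂ j, {x : E n | S j (ψ (x, 0)) ≤ e j} := by
      ext x
      simp
    rw [e1]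
    exact isClosed_iInter fun j => isClosed_le (hφ j) continuous_const
  have hb : Bornology.IsBounded {x : E n | ∀ j, S j (ψ (x, 0)) ≤ e j} := by
    have hb1 := h3 e
    have hψs := ψ.symm.toContinuousLinearEquiv.toContinuousLinearMap.lipschitz.isBounded_image hb1
    have hb2 := (ContinuousLinearMap.fst ℝ (E n) (E q)).lipschitz.isBounded_image hψs
    refine hb2.subset fun x hx => ?_
    refine ⟨(x, 0), ⟨ψ (x, 0), hx, ?_⟩, rfl⟩
    exact ψ.symm_apply_apply _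
  have hconv : Convex ℝ {x : E n | ∀ j, S j (ψ (x, 0)) ≤ e j} := by
    intro x hx y hy a b ha hb' hab j
    have e1 : ψ (a • x + b • y, 0) = a • ψ (x, 0) + b • ψ (y, 0) := by
      rw [← map_smul, ← map_smul, ← map_add]
      congr 1
      simp
    change S j (ψ (a • x + b • y, 0)) ≤ e j
    rw [e1]
    have h6 := (h1 j).2 (mem_univ (ψ (x, 0))) (mem_univ (ψ (y, 0))) ha hb' hab
    have hx' : S j (ψ (x, 0)) ≤ e j := hx j
    have hy' : S j (ψ (y, 0)) ≤ e j := hy j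
    simp only [smul_eq_mul] at h6
    calc _ ≤ a * S j (ψ (x, 0)) + b * S j (ψ (y, 0)) := h6
      _ ≤ a * e j + b * e j := by gcongr
      _ = e j := by rw [← add_mul, hab, one_mul]
  have hint : (interior {x : E n | ∀ j, S j (ψ (x, 0)) ≤ e j}).Nonempty := by
    obtain ⟨x, hx⟩ := h4
    refine ⟨x, ?_⟩
    have ho : IsOpen {x : E n | ∀ j, S j (ψ (x, 0)) < e j} := by
      have e1 : {x : E n | ∀ j, S j (ψ (x, 0)) < e j} =
          ⋂ j, {x : E n | S j (ψ (x, 0)) < e j} := by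
        ext x
        simp
      rw [e1]
      exact isOpen_iInter_of_finite fun j => isOpen_lt (hφ j) continuous_const
    exact interior_maximal (fun y hy j => (hy j).le) ho hx
  refine ⟨Metric.isCompact_of_isClosed_isBounded hcl hb, hconv, hint,
    H1 n N ψ S e hn h1 h2 h3 h4 fun l a hl => ?_⟩
  obtain ⟨k1, k2⟩ := h5 l a hl
  refine ⟨k1, cc_of_kmw hA hδ' k1 ?_⟩
  intro k P s hs hvar v C hv hv1 hvl
  refine (k2 (δ' / 2) (by positivity) k P s hs hvar v C hv hv1 hvl).trans ?_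
  have h6 : 0 ≤ EW (gw ψ S l a) fun x => ‖fderiv ℝ v (P x)‖ ^ 2 :=
    div_nonneg (integral_nonneg fun x => mul_nonneg (by positivity) (k1.nonneg x)) k1.pos.le
  have h7 : A (δ' / 2) * s ≤ max (A (δ' / 2)) 1 * s :=
    mul_le_mul_of_nonneg_right (le_max_left _ _) hs.le
  have h8 := mul_le_mul_of_nonneg_right h7 h6
  linarith

theorem micro_km (A : ℝ → ℝ) (r q : ℕ) : ∃ A' : ℝ → ℝ, (∀ δ, 0 < A' δ) ∧ ∀ (n : ℕ)
    (K : Set (E n)), Micro A r q n K → IsCompact K ∧ Convex ℝ K ∧ (interior K).Nonempty ∧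
      ∀ δ : ℝ, 0 < δ → KM (A' δ) δ (un K) :=
  km_profile (P := fun n K => Micro A r q n K) (micro_cc A r q)

theorem micro_star (A : ℝ → ℝ) (r q p : ℕ) : ∃ c : ℝ, 0 < c ∧ ∀ (m n : ℕ) (K : Set (E m))
    (T : E m →ₗ[ℝ] E n) (w : E n), Micro A r q m K → m ≤ n + p → Function.Surjective T →
    IsCompact ((fun x => w + T x) '' K) ∧ Convex ℝ ((fun x => w + T x) '' K) ∧
    (interior ((fun x => w + T x) '' K)).Nonempty ∧ Star c (ind ((fun x => w + T x) '' K)) := by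
  obtain ⟨A', -, H⟩ := micro_km A r q
  obtain ⟨c, hc, Hc⟩ := cyR cclR A' 1 1 one_pos one_pos 0 p 1
  refine ⟨c, hc, fun m n K T w hK hm hT => ?_⟩
  obtain ⟨h1, h2, h3, h4⟩ := H m K hK
  exact Hc _ _ (.image _ _ _ _ T w hm hT (.base _ _ h1 h2 h3 h4))

end Pool.Agent.N483.KM
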