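import Pool.Agent.N483.KM.StmS
import Pool.Agent.N483.KM.Fin
import Pool.Agent.N933.KM.GSUP
import Pool.Agent.N456.KM.PRX

/-!
# Conic programs with few equations
-/

set_option autoImplicit false

namespace Pool.Agent.N483.KM

open MeasureTheory Set Filter Topology
open scoped ENNReal InnerProductSpace
open Pool.Agent.R754.KG (E un sl Rv cc_trans)
open Pool.Agent.R755.KF (CB)
open Pool.Agent.R755.KS
open Pool.Agent.Y506.PV (CcW ind)
open Pool.Agent.R751.MB (Eu AP)

/-- extension of an injective map to a linear equivalence -/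
theorem ext_inj {n N : ℕ} (L : E n →ₗ[ℝ] E N) (hinj : Function.Injective L) :
    n ≤ N ∧ ∃ ψ : (E n × E (N - n)) ≃ₗ[ℝ] E N, ∀ x, ψ (x, 0) = L x := by
  have hle : n ≤ N := by
    have := LinearMap.finrank_le_finrank_of_injective hinj
    simpa using this
  refine ⟨hle, ?_⟩
  obtain ⟨C, hC⟩ := Submodule.exists_isCompl (LinearMap.range L)
  have hfr : Module.finrank ℝ (LinearMap.range L) = n := by
    rw [LinearMap.finrank_range_of_inj hinj]
    simp
  have hfC : Module.finrank ℝ (E (N - n)) = Module.finrank ℝ C := by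
    have h1 := Submodule.finrank_add_eq_of_isCompl hC
    rw [hfr] at h1
    have h2 : Module.finrank ℝ (E N) = N := by simp
    rw [h2] at h1
    have h3 : Module.finrank ℝ (E (N - n)) = N - n := by simp
    rw [h3]
    omega
  let e1 : E n ≃ₗ[ℝ] LinearMap.range L := LinearEquiv.ofInjective L hinj
  let e2 : E (N - n) ≃ₗ[ℝ] C := LinearEquiv.ofFinrankEq _ _ hfC
  refine ⟨(e1.prodCongr e2).trans (Submodule.prodEquivOfIsCompl _ _ hC), fun x => ?_⟩
  rw [LinearEquiv.trans_apply, LinearEquiv.prodCongr_apply, Submodule.coe_prodEquivOfIsCompl']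
  simp only [map_zero, Submodule.coe_zero, add_zero]
  rfl

theorem con_slater (hR : S_GRAD) (hS : S_GSUP) (hE : S_SECE) (A δ : ℝ) (hA : 0 < A) (hδ : 0 < δ)
    (j : ℕ) : ∃ κ : ℝ, 0 < κ ∧ ∀ (n N : ℕ) (e : (E n × E j) ≃ₗ[ℝ] E N) (C : Set (E N)) (b0 : E j),
    1 ≤ n → GC A C → Bornology.IsBounded {x : E n | e (x, b0) ∈ C} →
    (∃ x : E n, e (x, b0) ∈ interior C) → CcW κ δ (ind {x : E n | e (x, b0) ∈ C}) := by
  obtain ⟨δ', hδ', H1⟩ := hE j (1 / 2) (by norm_num)
  obtain ⟨κ0, hκ0, H2⟩ := hR A δ' hA hδ'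
  obtain ⟨κ, hκ, H3⟩ := H1 κ0 δ hκ0 hδ
  refine ⟨κ, hκ, fun n N e C b0 hn hC hb hx => ?_⟩
  obtain ⟨f, F, hf, hF, hf1, hf2⟩ := hS n j N e C b0 hn hC.pc hb hx
  have hN : 1 ≤ N := by
    have h1 := e.finrank_eq
    simp at h1
    omega
  obtain ⟨l1, l2, l3, l4⟩ := H2 N C f F hN hC hf hF
  have hF' := cb_pre e l1 l2 l3
  have e1 : sl (e ⁻¹' {z | z ∈ C ∧ f z ≤ F}) b0 = {x | e (x, b0) ∈ C} := by
    ext x
    exact ⟨fun h => h.1, fun h => ⟨h, hf1 x h⟩⟩
  have h3 := H3 n N e (e ⁻¹' {z | z ∈ C ∧ f z ≤ F}) b0 hF' (fun t => ?_)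
    (by rwa [image_preimage_eq _ e.surjective])
  · rwa [e1] at h3
  · refine (large_iff hF' (by norm_num) b0 t).1 ?_
    rw [e1]
    have h4 : volume (sl (e ⁻¹' {z | z ∈ C ∧ f z ≤ F}) t) ≤ 2 * volume {x | e (x, b0) ∈ C} := hf2 t
    calc ENNReal.ofReal (1 / 2) * volume (sl (e ⁻¹' {z | z ∈ C ∧ f z ≤ F}) t)
        ≤ ENNReal.ofReal (1 / 2) * (2 * volume {x | e (x, b0) ∈ C}) := by gcongr
      _ = volume {x | e (x, b0) ∈ C} := by
          have h5 : ENNReal.ofReal (1 / 2) * 2 = 1 := by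
            rw [← ENNReal.ofReal_ofNat 2, ← ENNReal.ofReal_mul (by norm_num)]
            norm_num
          rw [← mul_assoc, h5, one_mul]

section

variable {n N : ℕ} {C : Set (E N)} {L : E n →ₗ[ℝ] E N} {w : E N}

theorem cadd (hC : PC C) {z y : E N} (hz : z ∈ C) (hy : y ∈ C) : z + y ∈ C := by
  have h := hC.cone 2 (by norm_num) _ (hC.conv hz hy (by norm_num : (0 : ℝ) ≤ 1 / 2)
    (by norm_num : (0 : ℝ) ≤ 1 / 2) (by norm_num))
  rw [smul_add, smul_smul, smul_smul] at h
  norm_num at h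
  exact h

/-- the recession cone is trivial -/
theorem rec_triv (hC : PC C) (hb : Bornology.IsBounded {x : E n | w + L x ∈ C}) {x0 : E n}
    (hx0 : w + L x0 ∈ C) {v : E n} (hv : L v ∈ C) : v = 0 := by
  by_contra hne
  obtain ⟨R, hR⟩ := hb.exists_norm_le
  have hpos : 0 < ‖v‖ := norm_pos_iff.2 hne
  obtain ⟨t, ht⟩ : ∃ t : ℝ, t = (R + ‖x0‖ + 1) / ‖v‖ := ⟨_, rfl⟩
  have hR0 : 0 ≤ R := (norm_nonneg _).trans (hR x0 hx0)
  have ht0 : 0 ≤ t := by rw [ht]; positivity
  have h1 : w + L (x0 + t • v) ∈ C := by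
    rw [map_add, map_smul, ← add_assoc]
    exact cadd hC hx0 (hC.cone t ht0 _ hv)
  have h2 := hR _ h1
  have h3 : ‖t • v‖ ≤ ‖x0 + t • v‖ + ‖x0‖ := by
    have := norm_sub_le (x0 + t • v) x0
    simpa using this
  have h4 : ‖t • v‖ = R + ‖x0‖ + 1 := by
    rw [norm_smul, Real.norm_of_nonneg ht0, ht, div_mul_cancel₀ _ hpos.ne']
  rw [h4] at h3
  linarith

/-- all parallel sections are bounded -/
theorem bdd_all (hC : PC C) (hrec : ∀ v : E n, L v ∈ C → v = 0) (w' : E N) :
    Bornology.IsBounded {x : E n | w' + L x ∈ C} := by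
  have hLc : Continuous L := L.continuous_of_finiteDimensional
  have hC0 : (0 : E N) ∈ C := by
    obtain ⟨c, hc⟩ := hC.int
    have := hC.cone 0 le_rfl c (interior_subset hc)
    rwa [zero_smul] at this
  rcases subsingleton_or_nontrivial (E n) with hs | hs
  · exact (Set.toFinite _).isBounded
  have hcomp : IsCompact (Metric.sphere (0 : E n) 1) := isCompact_sphere 0 1
  have hne : (Metric.sphere (0 : E n) 1).Nonempty := NormedSpace.sphere_nonempty.2 zero_le_one
  obtain ⟨u, hu, hmin⟩ := hcomp.exists_isMinOn hne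
    ((Metric.continuous_infDist_pt C).comp hLc).continuousOn
  have hu1 : ‖u‖ = 1 := by simpa using hu
  have hpos : 0 < Metric.infDist (L u) C := by
    rw [← hC.closed.notMem_iff_infDist_pos ⟨0, hC0⟩]
    intro h
    have := hrec u h
    rw [this, norm_zero] at hu1
    norm_num at hu1
  rw [Metric.isBounded_iff_subset_closedBall 0]
  refine ⟨‖w'‖ / Metric.infDist (L u) C, fun x hx => ?_⟩
  rw [mem_closedBall_zero_iff, le_div_iff₀ hpos]
  rcases eq_or_ne x 0 with rfl | hx0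
  · simp
  have hxn : 0 < ‖x‖ := norm_pos_iff.2 hx0
  have h1 : Metric.infDist (L u) C ≤ Metric.infDist (L (‖x‖⁻¹ • x)) C := by
    refine hmin ?_
    rw [mem_sphere_zero_iff_norm, norm_smul, norm_inv, norm_norm, inv_mul_cancel₀ hxn.ne']
  have h2 : Metric.infDist (L (‖x‖⁻¹ • x)) C ≤ ‖x‖⁻¹ * ‖w'‖ := by
    have h3 : ‖x‖⁻¹ • (w' + L x) ∈ C := hC.cone _ (by positivity) _ hx
    refine (Metric.infDist_le_dist_of_mem h3).trans (le_of_eq ?_)
    rw [dist_eq_norm, map_smul, smul_add, sub_add_cancel_right, norm_neg, norm_smul, norm_inv,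
      norm_norm]
  calc ‖x‖ * Metric.infDist (L u) C ≤ ‖x‖ * (‖x‖⁻¹ * ‖w'‖) :=
        mul_le_mul_of_nonneg_left (h1.trans h2) hxn.le
    _ = ‖w'‖ := by
        rw [← mul_assoc, mul_inv_cancel₀ hxn.ne', one_mul]

end

/-- concentration for conic programs -/
theorem gcon (hR : S_GRAD) (hS : S_GSUP) (hE : S_SECE) : S_GCON := by
  intro A δ q hA hδ
  obtain ⟨κ, hκ, H⟩ := Pool.Agent.R754.KG.min_const (P := fun j κ => ∀ (n N : ℕ)
      (e : (E n × E j) ≃ₗ[ℝ] E N) (C : Set (E N)) (b0 : E j),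
      1 ≤ n → GC A C → Bornology.IsBounded {x : E n | e (x, b0) ∈ C} →
      (∃ x : E n, e (x, b0) ∈ interior C) → CcW κ δ (ind {x : E n | e (x, b0) ∈ C}))
    (fun j => con_slater hR hS hE A δ hA hδ j)
    (fun j κ κ' hκ' hP n N e C b0 a1 a2 a3 a4 => (hP n N e C b0 a1 a2 a3 a4).mono hκ') q
  refine ⟨κ / 2, by linarith, fun n N C L w hn hN hC hb hi => ?_⟩
  obtain ⟨x0, hx0i⟩ := hi
  have hx0 : w + L x0 ∈ C := by
    have := interior_subset hx0i
    exact this
  have hLc : Continuous L := L.continuous_of_finiteDimensional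
  have hrec : ∀ v : E n, L v ∈ C → v = 0 := fun v hv => rec_triv hC.pc hb hx0 hv
  have hC0 : (0 : E N) ∈ C := by
    obtain ⟨c, hc⟩ := hC.pc.int
    have := hC.pc.cone 0 le_rfl c (interior_subset hc)
    rwa [zero_smul] at this
  have hinj : Function.Injective L := by
    rw [← LinearMap.ker_eq_bot, LinearMap.ker_eq_bot']
    intro v hv
    exact hrec v (by rw [hv]; exact hC0)
  obtain ⟨hle, e, he⟩ := ext_inj L hinj
  obtain ⟨c0, hc0⟩ := hC.pc.int
  -- the bodies are closed and convex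
  have hcl : ∀ w' : E N, IsClosed {x : E n | w' + L x ∈ C} := fun w' =>
    hC.pc.closed.preimage (continuous_const.add hLc)
  have hcv : ∀ w' : E N, Convex ℝ {x : E n | w' + L x ∈ C} := by
    intro w' x hx y hy a b ha hb' hab
    have h1 := hC.pc.conv hx hy ha hb' hab
    have h2 : a • (w' + L x) + b • (w' + L y) = w' + L (a • x + b • y) := by
      rw [map_add, map_smul, map_smul, smul_add, smul_add]
      have h3 : w' = a • w' + b • w' := by rw [← add_smul, hab, one_smul]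
      nth_rewrite 3 [h3]
      abel
    rw [h2] at h1
    exact h1
  refine ⟨Metric.isCompact_of_isClosed_isBounded (hcl w) hb, hcv w, ?_⟩
  -- approximation
  obtain ⟨Km, hKm⟩ : ∃ Km : ℕ → Set (E n), Km = fun m : ℕ =>
    {x : E n | (w + (1 / ((m : ℝ) + 1)) • c0) + L x ∈ C} := ⟨_, rfl⟩
  have hc0C : c0 ∈ C := interior_subset hc0
  have hanti : Antitone Km := by
    intro m m' hm x hx
    rw [hKm] at hx ⊢
    simp only [mem_ofPred_eq] at hx ⊢
    have h1 : (w + (1 / ((m : ℝ) + 1)) • c0) + L x = ((w + (1 / ((m' : ℝ) + 1)) • c0) + L x) +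
        (1 / ((m : ℝ) + 1) - 1 / ((m' : ℝ) + 1)) • c0 := by
      rw [sub_smul]
      abel
    rw [h1]
    refine cadd hC.pc hx (hC.pc.cone _ ?_ _ hc0C)
    have h2 : (m : ℝ) ≤ m' := by exact_mod_cast hm
    rw [sub_nonneg]
    exact one_div_le_one_div_of_le (by positivity) (by linarith)
  have hcap : {x : E n | w + L x ∈ C} = ⋂ m, Km m := by
    ext x
    rw [mem_iInter]
    constructor
    · intro hx m
      rw [hKm]
      have h1 : (w + (1 / ((m : ℝ) + 1)) • c0) + L x = (w + L x) + (1 / ((m : ℝ) + 1)) • c0 := by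
        abel
      show (w + (1 / ((m : ℝ) + 1)) • c0) + L x ∈ C
      rw [h1]
      exact cadd hC.pc hx (hC.pc.cone _ (by positivity) _ hc0C)
    · intro hx
      have h1 : Tendsto (fun m : ℕ => (w + (1 / ((m : ℝ) + 1)) • c0) + L x) atTop
          (𝓝 ((w + (0 : ℝ) • c0) + L x)) :=
        (tendsto_const_nhds.add (tendsto_one_div_add_atTop_nhds_zero_nat.smul_const c0)).add_const _
      rw [zero_smul, add_zero] at h1
      refine hC.pc.closed.mem_of_tendsto h1 (Eventually.of_forall fun m => ?_)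
      have := hx m
      rw [hKm] at this
      exact this
  refine Pool.Agent.N456.KM.PRXx.lim_cc hκ hcap (fun m => by rw [hKm]; exact hcl _)
    (fun m => by rw [hKm]; exact bdd_all hC.pc hrec _) hanti hx0i (fun m => ?_)
  -- the approximating bodies
  obtain ⟨⟨x1, b0⟩, hx1⟩ := e.surjective (w + (1 / ((m : ℝ) + 1)) • c0)
  have e1 : ∀ x, (w + (1 / ((m : ℝ) + 1)) • c0) + L x = e (x1 + x, b0) := by
    intro x
    rw [← hx1, ← he x, ← map_add]
    simp
  have hset : {x : E n | e (x, b0) ∈ C} = (fun x => x1 + x) '' Km m := by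
    ext x
    constructor
    · intro hx
      refine ⟨x - x1, ?_, by simp⟩
      rw [hKm]
      show (w + (1 / ((m : ℝ) + 1)) • c0) + L (x - x1) ∈ C
      rw [e1, add_sub_cancel]
      exact hx
    · rintro ⟨y, hy, rfl⟩
      rw [hKm] at hy
      show e (x1 + y, b0) ∈ C
      rw [← e1]
      exact hy
  have hKmc : IsCompact (Km m) := by
    rw [hKm]
    exact Metric.isCompact_of_isClosed_isBounded (hcl _) (bdd_all hC.pc hrec _)
  have hx0m : x0 ∈ interior (Km m) := by
    have : {x : E n | w + L x ∈ C} ⊆ Km m := by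
      rw [hcap]
      exact iInter_subset _ m
    exact interior_mono this hx0i
  have hsl : ∃ x : E n, e (x, b0) ∈ interior C := by
    refine ⟨x1 + x0, ?_⟩
    rw [← e1]
    have h1 : (w + (1 / ((m : ℝ) + 1)) • c0) + L x0 = (w + L x0) + (1 / ((m : ℝ) + 1)) • c0 := by
      abel
    rw [h1]
    have hm : (0 : ℝ) < 1 / ((m : ℝ) + 1) := by positivity
    have hop : IsOpen ((fun z : E N => (w + L x0) + (1 / ((m : ℝ) + 1)) • z) '' interior C) := by
      have h2 : IsOpenMap fun z : E N => (w + L x0) + (1 / ((m : ℝ) + 1)) • z :=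
        (Homeomorph.addLeft (w + L x0)).isOpenMap.comp (isOpenMap_smul₀ hm.ne')
      exact h2 _ isOpen_interior
    refine interior_maximal ?_ hop ⟨c0, hc0, rfl⟩
    rintro _ ⟨z, hz, rfl⟩
    exact cadd hC.pc hx0 (hC.pc.cone _ hm.le _ (interior_subset hz))
  have h1 := H (N - n) (by omega) n N e C b0 hn hC
    (by rw [hset]; exact (hKmc.image (by fun_prop)).isBounded) hsl
  rw [hset] at h1
  have h2 := cc_trans ((fun x => x1 + x) '' Km m) (hKmc.image (by fun_prop))
    (Pool.Agent.R754.KG.int_trans ⟨x0, hx0m⟩ x1) (-x1) h1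
  rw [image_image] at h2
  simpa using h2

end Pool.Agent.N483.KM
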