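import Pool.Agent.N483.KM.FinY

/-!
# Log-concave densities given by few sums of functions of blocks and parameters
-/

set_option autoImplicit false

namespace Pool.Agent.N483.KM

open MeasureTheory Set Filter Topology
open scoped ENNReal InnerProductSpace
open Pool.Agent.R754.KG (E un sl Rv)
open Pool.Agent.R755.KF
open Pool.Agent.Y506.PV (CcW ind)
open Pool.Agent.Y506.RG (Star pm)

/-- densities given by a potential and `r` inequalities between sums of functions of blocks and at most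
`s` parameters, and their projections -/
def VMd (r s p m : ℕ) (w : E m → ℝ) : Prop :=
  ∃ (B n d : ℕ) (k : Fin B → ℕ) (G : ∀ i, Set (E (k i) ≃ₗᵢ[ℝ] E (k i)))
    (L : E n →ₗ[ℝ] (∀ i, E (k i))) (W : Fin (r + 1) → ∀ i, E (k i) → E d → EReal)
    (e : Fin (r + 1) → ℝ) (T : (E n × E d) →ₗ[ℝ] E m), d ≤ s ∧ n + d ≤ m + p ∧
    Function.Surjective T ∧ ∑ i, k i ≤ n + s ∧ (∀ i, Bk s (k i) (G i)) ∧
    (∀ j i, XP (W j i)) ∧ (∀ i, ∀ g ∈ G i, ∀ j x t, W j i (g x) t = W j i x t) ∧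
    (∀ i, ∀ g ∈ G i, ∀ y : E (k i), Pi.single i (g y - y) ∈ LinearMap.range L) ∧
    (∀ c : ℝ, Bornology.IsBounded (BP L W (Function.update e 0 c))) ∧
    (∃ c : ℝ, (interior (BP L W (Function.update e 0 c))).Nonempty) ∧ (∀ x, 0 ≤ w x) ∧
    ∀ c : ℝ, {x | Real.exp (-c) ≤ w x} = T '' BP L W (Function.update e 0 c)

theorem vmd_cc (r s p : ℕ) (δ : ℝ) (hδ : 0 < δ) : ∃ κ : ℝ, 0 < κ ∧ ∀ (m : ℕ)
    (w : E m → ℝ), VMd r s p m w → LW w ∧ CcW κ δ w := by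
  obtain ⟨A, hA, HA⟩ := bk_gd gddR s
  obtain ⟨κ, hκ, H⟩ := Pool.Agent.R754.KG.min_const (P := fun d κ => ∀ (ι : Type) [Fintype ι]
    [DecidableEq ι] (n m : ℕ) (k : ι → ℕ) (G : ∀ i, Set (E (k i) ≃ₗᵢ[ℝ] E (k i)))
    (L : E n →ₗ[ℝ] (∀ i, E (k i))) (V : Fin (r + 1) → ∀ i, E (k i) → E d → EReal)
    (e : Fin (r + 1) → ℝ) (T : (E n × E d) →ₗ[ℝ] E m) (w : E m → ℝ), n + d ≤ m + p →
    Function.Surjective T → ∑ i, k i ≤ n + s → (∀ i, Gd A (G i)) → (∀ j i, XP (V j i)) →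
    (∀ i, ∀ g ∈ G i, ∀ j x t, V j i (g x) t = V j i x t) →
    (∀ i, ∀ g ∈ G i, ∀ y : E (k i), Pi.single i (g y - y) ∈ LinearMap.range L) →
    (∀ c : ℝ, Bornology.IsBounded (BP L V (Function.update e 0 c))) →
    (∃ c : ℝ, (interior (BP L V (Function.update e 0 c))).Nonempty) → (∀ x, 0 ≤ w x) →
    (∀ c : ℝ, {x | Real.exp (-c) ≤ w x} = T '' BP L V (Function.update e 0 c)) →
    LW w ∧ CcW κ δ w)
    (fun d => vpmR r s d p A δ hA hδ)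
    (fun d κ κ' hk hP ι _ _ n m k G L V e T w a1 a2 a3 a4 a5 a6 a7 a8 a9 a10 a11 => by
      obtain ⟨b1, b2⟩ := hP ι n m k G L V e T w a1 a2 a3 a4 a5 a6 a7 a8 a9 a10 a11
      exact ⟨b1, ccw_mn hk b2⟩) s
  refine ⟨κ, hκ, ?_⟩
  rintro m w ⟨B, n, d, k, G, L, W, e, T, hd, hn, hT, hk, hG, hW, hinv, hr, hb, hi, hw0, hw⟩
  exact H d hd (Fin B) n m k G L W e T w hn hT hk (fun i => HA _ _ (hG i)) hW hinv hr hb hi hw0 hw

theorem vmd_star (r s p : ℕ) : ∃ c : ℝ, 0 < c ∧ ∀ (m : ℕ) (w : E m → ℝ), VMd r s p m w →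
    LW w ∧ Star c w := by
  obtain ⟨δ, hδ, G⟩ := wstR
  obtain ⟨κ, hκ, H⟩ := vmd_cc r s p δ hδ
  obtain ⟨c, hc, Hc⟩ := G κ hκ
  refine ⟨c, hc, fun m w hw => ?_⟩
  obtain ⟨h1, h2⟩ := H m w hw
  exact ⟨h1, Hc m w h1 h2⟩

/-! ### translations -/

open Pool.Agent.Y506.RG (EW VW Adm)

theorem vmd_shift {r s p : ℕ} {c : ℝ} (H : ∀ (m : ℕ) (w : E m → ℝ), VMd r s p m w →
    LW w ∧ Star c w) {m : ℕ} {w : E m → ℝ} (a : E m) (hw : VMd r s p m fun x => w (a + x)) :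
    Adm w ∧ Star c w := by
  obtain ⟨h1, h2⟩ := H m _ hw
  exact ⟨adm_shift h1.adm, star_shift (adm_shift h1.adm) h2⟩

/-- the isoperimetric inequality for all linear images of the measure with density `w` -/
theorem half_law {m : ℕ} {w : E m → ℝ} (hw : Adm w) {c : ℝ} (hc : 0 < c) (hs : Star c w) (n : ℕ)
    (L : E m →ₗ[ℝ] E n) (μ : Measure (E n)) (hμ : μ = Measure.map L (pm w)) :
    IsProbabilityMeasure μ ∧ ∀ s : ℝ, 0 < s →
    (∀ θ : E n, ‖θ‖ = 1 → ProbabilityTheory.variance (fun x => ⟪x, θ⟫_ℝ) μ ≤ s) →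
    ∀ S : Set (E n), μ S = 1 / 2 → ENNReal.ofReal (1 / (4 * c) / Real.sqrt s) ≤
      liminf (fun ε : ℝ => (μ (Metric.thickening ε S) - μ S) / ENNReal.ofReal ε) (𝓝[>] 0) :=
  Pool.Agent.Y506.RG.half_of_star Pool.Agent.Y429.RG.minkm hw c hc hs n L μ hμ

end Pool.Agent.N483.KM
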