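import Pool.Agent.N483.KM.Stm

/-!
# The affinity on a small scale
-/

set_option autoImplicit false

namespace Pool.Agent.N483.KM

open MeasureTheory Set Filter Topology
open scoped ENNReal InnerProductSpace
open Pool.Agent.H888R2.KT (gs gc)
open Pool.Agent.R754.KG (E un sl Rv)
open Pool.Agent.R755.KF (BL PB PW zn ey e2 om sd aff PLH PL3 CB lw)

theorem pb_mono {k : ℕ} {B B' : ℝ} {ν : Measure (E k)} (h : PB B ν) (hB : B ≤ B') : PB B' ν :=
  ⟨h.prob, h.bdd.mono fun _ hx => hx.trans hB⟩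

theorem near (h1 : S_WPM) (h2 : S_LRG) (h3 : S_DWN) (h4 : S_LCI) : S_NEAR := by
  obtain ⟨p0, C, hp0, hp1, hC, H1⟩ := h1
  obtain ⟨c, hc, H2⟩ := h2
  refine ⟨p0, hp0, hp1, fun θ ε hθ hε => ?_⟩
  -- the scale
  obtain ⟨q, hq⟩ : ∃ q : ℝ, q = 1 + ε + 3 * c * C / (ε * θ) + 3000 * c * C := ⟨_, rfl⟩
  have hq1 : 1 ≤ q := by
    rw [hq]
    have : 0 < 3 * c * C / (ε * θ) := by positivity
    have : 0 < 3000 * c * C := by positivity
    linarith
  have hq0 : 0 < q := by linarith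
  have hqε : ε ≤ q := by
    rw [hq]
    have : 0 < 3 * c * C / (ε * θ) := by positivity
    have : 0 < 3000 * c * C := by positivity
    linarith
  have hqa : 3 * c * C / (ε * θ) ≤ q := by
    rw [hq]
    have : 0 < 3000 * c * C := by positivity
    linarith
  have hqb : 3000 * c * C ≤ q := by
    rw [hq]
    have : 0 < 3 * c * C / (ε * θ) := by positivity
    linarith
  obtain ⟨M, hM⟩ : ∃ M : ℝ, M = q ^ 2 := ⟨_, rfl⟩
  have hqM : q ≤ M := by rw [hM]; nlinarith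
  have hM1 : 1 ≤ M := by linarith
  have hM0 : 0 < M := by linarith
  have hsM : Real.sqrt M = q := by rw [hM, Real.sqrt_sq hq0.le]
  obtain ⟨η, hη⟩ : ∃ η : ℝ, η = min (θ * ε / (3 * M * (1 + c))) (1 / (3000 * c)) := ⟨_, rfl⟩
  have hη0 : 0 < η := by rw [hη]; exact lt_min (by positivity) (by positivity)
  have hηa : M * (1 + c) * η / ε ≤ θ / 3 := by
    have : η ≤ θ * ε / (3 * M * (1 + c)) := by rw [hη]; exact min_le_left _ _
    rw [div_le_iff₀ hε]
    calc M * (1 + c) * η ≤ M * (1 + c) * (θ * ε / (3 * M * (1 + c))) :=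
          mul_le_mul_of_nonneg_left this (by positivity)
      _ = θ / 3 * ε := by field_simp
  have hηb : c * η ≤ 1 / 3000 := by
    have : η ≤ 1 / (3000 * c) := by rw [hη]; exact min_le_right _ _
    calc c * η ≤ c * (1 / (3000 * c)) := mul_le_mul_of_nonneg_left this hc.le
      _ = 1 / 3000 := by field_simp
  obtain ⟨ε1, hε1⟩ : ∃ ε1 : ℝ, ε1 = min (1 / 64) (min (θ * ε / (3 * c)) (1 / (3000 * c))) :=
    ⟨_, rfl⟩
  have he0 : 0 < ε1 := by
    rw [hε1]; exact lt_min (by norm_num) (lt_min (by positivity) (by positivity))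
  have he1 : ε1 ≤ 1 / 64 := by rw [hε1]; exact min_le_left _ _
  have he2 : ε1 ≤ θ * ε / (3 * c) := by
    rw [hε1]; exact (min_le_right _ _).trans (min_le_left _ _)
  have he3 : ε1 ≤ 1 / (3000 * c) := by
    rw [hε1]; exact (min_le_right _ _).trans (min_le_right _ _)
  have hsq : ε1 ^ 2 ≤ ε1 := by nlinarith
  have hea : c * ε1 ^ 2 / ε ≤ θ / 3 := by
    rw [div_le_iff₀ hε]
    calc c * ε1 ^ 2 ≤ c * (θ * ε / (3 * c)) :=
          mul_le_mul_of_nonneg_left (hsq.trans he2) hc.le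
      _ = θ / 3 * ε := by field_simp
  have heb : c * ε1 ^ 2 ≤ 1 / 3000 := by
    calc c * ε1 ^ 2 ≤ c * (1 / (3000 * c)) := mul_le_mul_of_nonneg_left (hsq.trans he3) hc.le
      _ = 1 / 3000 := by field_simp
  refine ⟨η, ε1, hη0, he0, fun k r νa νb la lb hr cra crb va vb hm hpl => ?_⟩
  obtain ⟨-, -, Ba, hBa, pba⟩ := h4 k νa la
  obtain ⟨-, -, Bb, hBb, pbb⟩ := h4 k νb lb
  obtain ⟨B, hB⟩ : ∃ B : ℝ, B = max Ba Bb := ⟨_, rfl⟩
  have hB0 : 0 ≤ B := by rw [hB]; exact hBa.trans (le_max_left _ _)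
  have pa := pb_mono pba (hB ▸ le_max_left Ba Bb)
  have pb := pb_mono pbb (hB ▸ le_max_right Ba Bb)
  have hr2 : 0 < r ^ 2 := by positivity
  obtain ⟨δ, hδ⟩ : ∃ δ : ℝ, δ = C / (M * Real.sqrt M) := ⟨_, rfl⟩
  have hδ0 : 0 ≤ δ := by rw [hδ]; positivity
  have hδa : M * c * δ / ε ≤ θ / 3 := by
    rw [hδ, hsM, div_le_iff₀ hε]
    have e1 : M * c * (C / (M * q)) = c * C / q := by field_simp
    rw [e1, div_le_iff₀ hq0]
    have e2 : 3 * c * C ≤ q * (ε * θ) := by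
      rwa [div_le_iff₀ (by positivity)] at hqa
    nlinarith
  have hδb : c * δ ≤ 1 / 3000 := by
    rw [hδ, hsM]
    have e1 : c * (C / (M * q)) = c * C / (M * q) := by ring
    rw [e1, div_le_iff₀ (by positivity)]
    have : q ≤ M * q := by nlinarith
    linarith
  have hPWa : PW (M * r ^ 2 / 64) δ (ε1 * r ^ 2) B νa := by
    refine ⟨pa, fun C0 f hf hf1 => ?_, va⟩
    rw [hδ]
    exact H1 k νa r M C0 f la hr cra hM1 hf hf1
  have hPWb : PW (M * r ^ 2 / 64) δ (ε1 * r ^ 2) B νb := by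
    refine ⟨pb, fun C0 f hf hf1 => ?_, vb⟩
    rw [hδ]
    exact H1 k νb r M C0 f lb hr crb hM1 hf hf1
  have hD : (ε1 * r) ^ 2 / (M * r ^ 2) = ε1 ^ 2 / M := by
    field_simp
  have hcD : c * (ε1 ^ 2 / M) ≤ 1 / 3000 := by
    have : ε1 ^ 2 / M ≤ ε1 ^ 2 := div_le_self (sq_nonneg _) hM1
    exact (mul_le_mul_of_nonneg_left this hc.le).trans heb
  have hsmall : c * (η + (ε1 * r) ^ 2 / (M * r ^ 2) + δ) ≤ 1 / 1000 := by
    rw [hD]
    linarith
  have key := H2 k (M * r ^ 2) (M * r ^ 2 / 64) δ (ε1 * r ^ 2) B (ε1 * r) η νa νb (by positivity)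
    hδ0 (by positivity) (by linarith) (by nlinarith) (by positivity) hB0 hη0.le hPWa hPWb hm
    (fun h hh => hpl h (lt_of_lt_of_le (by positivity) hh)) hsmall
  rw [hD] at key
  have hle : ε * r ^ 2 ≤ M * r ^ 2 := mul_le_mul_of_nonneg_right (hqε.trans hqM) hr2.le
  have k2 := h3 k B η (ε * r ^ 2) (M * r ^ 2) νa νb (by positivity) hle hB0 hη0.le pa pb
    (fun h' hh' _ => hpl h' (lt_of_lt_of_le (by positivity) hh'))
  obtain ⟨a, ha⟩ : ∃ a : ℝ, a = 1 - aff (ε * r ^ 2) νa νb := ⟨_, rfl⟩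
  obtain ⟨b, hb⟩ : ∃ b : ℝ, b = 1 - aff (M * r ^ 2) νa νb := ⟨_, rfl⟩
  rw [← ha]
  rw [← hb] at key
  rw [← ha, ← hb] at k2
  -- divide by `r²`
  have k3 : ε * (η + a) ≤ M * (η + b) := by
    have e1 : ε * r ^ 2 * (η + a) = r ^ 2 * (ε * (η + a)) := by ring
    have e2 : M * r ^ 2 * (η + b) = r ^ 2 * (M * (η + b)) := by ring
    rw [e1, e2] at k2
    exact le_of_mul_le_mul_left k2 hr2
  have k4 : M * b ≤ M * (c * (η + ε1 ^ 2 / M + δ)) := mul_le_mul_of_nonneg_left key hM0.le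
  have k5 : M * (c * (η + ε1 ^ 2 / M + δ)) = M * c * η + c * ε1 ^ 2 + M * c * δ := by
    field_simp
  have k6 : M * (1 + c) * η ≤ θ / 3 * ε := by rwa [div_le_iff₀ hε] at hηa
  have k7 : c * ε1 ^ 2 ≤ θ / 3 * ε := by rwa [div_le_iff₀ hε] at hea
  have k8 : M * c * δ ≤ θ / 3 * ε := by rwa [div_le_iff₀ hε] at hδa
  have k9 : ε * a ≤ ε * θ := by
    have e0 : 0 ≤ ε * η := by positivity
    have e1 : ε * (η + a) = ε * η + ε * a := by ring
    have e2 : M * (η + b) = M * η + M * b := by ring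
    have e3 : M * (1 + c) * η = M * η + M * c * η := by ring
    have e4 : θ / 3 * ε + θ / 3 * ε + θ / 3 * ε = ε * θ := by ring
    linarith
  exact le_of_mul_le_mul_left k9 hε

end Pool.Agent.N483.KM
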