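import Pool.Agent.N483.KM.Stm1
import Pool.Agent.Y506.PV.Stm

/-!
# Sections: the statement for the concentration property
-/

set_option autoImplicit false

namespace Pool.Agent.N483.KM

open MeasureTheory Set Filter Topology
open scoped ENNReal InnerProductSpace
open Pool.Agent.R754.KG (E un sl Rv)
open Pool.Agent.R755.KF (CB)
open Pool.Agent.Y506.PV (CcW ind)

/-- concentration for sections -/
def S_SECC : Prop := ∀ (d : ℕ) (c : ℝ), 0 ≤ c → ∃ δ' : ℝ, 0 < δ' ∧ ∀ κ' δ : ℝ, 0 < κ' → 0 < δ →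
  ∃ κ : ℝ, 0 < κ ∧ ∀ (N n : ℕ) (e : (E N × E d) ≃ₗ[ℝ] E n) (K : Set (E N × E d)) (ts : E d), CB K →
  0 < Rv K ts → Cen c K ts → CcW κ' δ' (ind (e '' K)) → CcW κ δ (ind (sl K ts))

end Pool.Agent.N483.KM
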