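import Pool.Agent.N483.KM.StmP

/-!
# Functions with values in `(-∞, ∞]`
-/

set_option autoImplicit false

namespace Pool.Agent.N483.KM

open MeasureTheory Set Filter Topology
open scoped ENNReal InnerProductSpace
open Pool.Agent.R754.KG (E un sl Rv)

/-- convex lower semicontinuous functions with values in `(-∞, ∞]` -/
structure XE (V : ℝ → EReal) : Prop where
  nbot : ∀ t, V t ≠ ⊥
  lsc : LowerSemicontinuous V
  conv : ∀ x y t : ℝ, 0 < t → t < 1 →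
    V ((1 - t) * x + t * y) ≤ ((1 - t : ℝ) : EReal) * V x + (t : EReal) * V y

/-- P6: reduction to functions with values in `[0, ∞]` -/
def S_PER : Prop := ∀ (r n N : ℕ) (v : Fin N → E n) (V : Fin r → Fin N → ℝ → EReal)
  (e : Fin r → ℝ), (∀ j i, XE (V j i)) →
  Bornology.IsBounded {x : E n | ∀ j, ∑ i, V j i ⟪v i, x⟫_ℝ ≤ (e j : EReal)} →
  {x : E n | ∀ j, ∑ i, V j i ⟪v i, x⟫_ℝ ≤ (e j : EReal)}.Nonempty →
  ∃ (W : Fin r → Fin N → ℝ → ℝ≥0∞) (f : Fin r → ℝ≥0∞), (∀ j i, XC (W j i)) ∧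
    {x : E n | ∀ j, ∑ i, V j i ⟪v i, x⟫_ℝ ≤ (e j : EReal)} = PX v W f

end Pool.Agent.N483.KM
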