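import Pool.Agent.N483.KM.Stm3

/-!
# Bodies given by few inequalities between sums of convex functions of few linear functionals
-/

set_option autoImplicit false

namespace Pool.Agent.N483.KM

open MeasureTheory Set Filter Topology
open scoped ENNReal InnerProductSpace
open Pool.Agent.R754.KG (E un sl Rv)
open Pool.Agent.R755.KF (CB)
open Pool.Agent.Y506.PV (CcW ind)

/-- sections of sublevel sets -/
def LV {r n q : ℕ} (S : Fin r → E n × E q → ℝ) (s : Fin r → ℝ) (u : E q) : Set (E n) :=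
  {x | ∀ j, S j (x, u) ≤ s j}

/-- P1: supporting functionals of the volume function -/
def S_PSUP : Prop := ∀ (r n q : ℕ) (S : Fin r → E n × E q → ℝ) (e : Fin r → ℝ), 1 ≤ n →
  (∀ j, ConvexOn ℝ univ (S j)) →
  (∀ s : Fin r → ℝ, Bornology.IsBounded {z : E n × E q | ∀ j, S j z ≤ s j}) →
  (∃ x : E n, ∀ j, S j (x, 0) < e j) →
  ∃ (l : Fin r → ℝ) (m : E q), (∀ j, 0 ≤ l j) ∧ (∃ j, l j ≠ 0) ∧
  ∀ (s : Fin r → ℝ) (u : E q), ∑ j, l j * s j + ⟪m, u⟫_ℝ ≤ ∑ j, l j * e j →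
    volume (LV S s u) ≤ volume (LV S e 0)

/-- the first coordinates -/
noncomputable def pq (q m : ℕ) (t : E (q + m)) : E q := WithLp.toLp 2 fun i => t (Fin.castAdd m i)

/-- P2: the lift -/
def S_PLF : Prop := ∀ (r n q : ℕ) (S : Fin r → E n × E q → ℝ) (e : Fin r → ℝ), 1 ≤ n → 1 ≤ r →
  (∀ j, ConvexOn ℝ univ (S j)) → (∀ j z, 0 ≤ S j z) →
  (∀ j, ∀ c : ℝ, ∃ b : ℝ, ∀ z, c * ‖z‖ ≤ S j z + b) → (∃ x : E n, ∀ j, S j (x, 0) < e j) →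
  ∃ (m : ℕ) (L : Set (E n × E (q + m))) (ts : E (q + m)) (l : Fin r → ℝ) (a : E q) (F : ℝ),
    m ≤ r ∧ CB L ∧ (∀ t, Rv L t ≤ Rv L ts) ∧ sl L ts = LV S e 0 ∧ (∀ j, 0 ≤ l j) ∧
    (fun z : E n × E (q + m) => (z.1, pq q m z.2)) '' L =
      {z : E n × E q | ∑ j, l j * S j z + ⟪a, z.2⟫_ℝ ≤ F}

/-- P3: concentration, real valued functions -/
def S_PRR : Prop := ∀ (r q : ℕ) (δ : ℝ), 0 < δ → ∃ κ : ℝ, 0 < κ ∧
  ∀ (n N : ℕ) (ψ : (E n × E q) ≃ₗ[ℝ] E N) (V : Fin r → Fin N → ℝ → ℝ) (e : Fin r → ℝ), 1 ≤ n →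
  1 ≤ r → (∀ j i, ConvexOn ℝ univ (V j i)) → (∀ j i t, 0 ≤ V j i t) →
  (∃ R : ℝ, ∀ j i t, max (|t| - R) 0 ^ 2 ≤ V j i t) →
  (∃ x : E n, ∀ j, ∑ i, V j i (ψ (x, 0) i) < e j) →
  CcW κ δ (ind {x : E n | ∀ j, ∑ i, V j i (ψ (x, 0) i) ≤ e j})

/-- the set where `∑ i, V j i ⟪v i, x⟫ ≤ s j` for all `j` -/
def PR {r n N : ℕ} (v : Fin N → E n) (V : Fin r → Fin N → ℝ → ℝ) (s : Fin r → ℝ) : Set (E n) :=
  {x | ∀ j, ∑ i, V j i ⟪v i, x⟫_ℝ ≤ s j}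

/-- the same for functions with values in `[0, ∞]` -/
def PX {r n N : ℕ} (v : Fin N → E n) (V : Fin r → Fin N → ℝ → ℝ≥0∞) (e : Fin r → ℝ≥0∞) :
    Set (E n) := {x | ∀ j, ∑ i, V j i ⟪v i, x⟫_ℝ ≤ e j}

/-- P4: approximation -/
def S_PAP : Prop := ∀ (r n N : ℕ) (v : Fin N → E n) (V : Fin r → Fin N → ℝ → ℝ≥0∞)
  (e : Fin r → ℝ≥0∞), (∀ j i, XC (V j i)) → Bornology.IsBounded (PX v V e) →
  (PX v V e).Nonempty →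
  ∃ (U : ℕ → Fin r → Fin N → ℝ → ℝ) (f : ℕ → Fin r → ℝ),
    (∀ m j i, ConvexOn ℝ univ (U m j i)) ∧ (∀ m j i t, 0 ≤ U m j i t) ∧
    (∀ m, ∃ R : ℝ, ∀ j i t, max (|t| - R) 0 ^ 2 ≤ U m j i t) ∧
    (∀ m, Bornology.IsBounded (PR v (U m) (f m))) ∧
    (∀ m, ∃ x : E n, ∀ j, ∑ i, U m j i ⟪v i, x⟫_ℝ < f m j) ∧
    (∀ m, PR v (U (m + 1)) (f (m + 1)) ⊆ PR v (U m) (f m)) ∧
    ⋂ m, PR v (U m) (f m) = PX v V e

/-- P5: concentration -/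
def S_PRX : Prop := ∀ (r q : ℕ) (δ : ℝ), 0 < δ → ∃ κ : ℝ, 0 < κ ∧
  ∀ (n N : ℕ) (v : Fin N → E n) (V : Fin r → Fin N → ℝ → ℝ≥0∞) (e : Fin r → ℝ≥0∞), N ≤ n + q →
  (∀ j i, XC (V j i)) → Bornology.IsBounded (PX v V e) → (interior (PX v V e)).Nonempty →
  IsCompact (PX v V e) ∧ Convex ℝ (PX v V e) ∧ CcW κ δ (ind (PX v V e))

end Pool.Agent.N483.KM
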