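import Pool.Agent.N483.KM.StmS

/-!
# Conic programs: matrices of small order, frames
-/

set_option autoImplicit false

namespace Pool.Agent.N483.KM

open MeasureTheory Set Filter Topology
open scoped ENNReal InnerProductSpace ComplexOrder
open Pool.Agent.R751.MB (Eu Frame)

/-- C11: the cones of positive semidefinite matrices of any order -/
def S_PSDA : Prop := ∃ A : ℝ, 0 < A ∧ ∀ (𝕜 : Type) [RCLike 𝕜] (D : ℕ), 1 ≤ D → ∀ (ι : Type)
  [Fintype ι] (Φ : Eu ι →ₗ[ℝ] Matrix (Fin D) (Fin D) 𝕜), Frame Φ →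
  GC A {x : Eu ι | (Φ x).PosSemidef}

/-- C12: frames exist -/
def S_FRM : Prop := ∀ (𝕜 : Type) [RCLike 𝕜] (D : ℕ), ∃ (N : ℕ)
  (Φ : Eu (Fin N) →ₗ[ℝ] Matrix (Fin D) (Fin D) 𝕜), Frame Φ ∧
  N = Module.finrank ℝ (selfAdjoint (Matrix (Fin D) (Fin D) 𝕜))

end Pool.Agent.N483.KM
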