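import Pool.Agent.N483.KM.StmW
import Pool.Agent.R751.MB.Stm

/-!
# Bodies given by few inequalities between sums of invariant convex functions of many blocks
-/

set_option autoImplicit false

namespace Pool.Agent.N483.KM

open MeasureTheory Set Filter Topology
open scoped ENNReal InnerProductSpace
open Pool.Agent.R754.KG (E un sl Rv)
open Pool.Agent.R755.KF (CB)
open Pool.Agent.Y506.PV (CcW ind LCn)
open Pool.Agent.Y506.RG (EW VW Adm)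
open Pool.Agent.R751.MB (AP)

/-- all positive continuous log-concave weights with the symmetries `G` satisfy, in isotropic
position, the Poincaré inequality with the constant `A` -/
def Gd (A : ℝ) {k : ℕ} (G : Set (E k ≃ₗᵢ[ℝ] E k)) : Prop :=
  ∀ w : E k → ℝ, Adm w → LCn w → Continuous w → (∀ x, 0 < w x) →
    (∀ g ∈ G, ∀ x, w (g x) = w x) → AP (κ := Fin k) A w

/-- convex lower semicontinuous functions with values in `[0, ∞]` -/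
structure XK {k : ℕ} (V : E k → ℝ≥0∞) : Prop where
  lsc : LowerSemicontinuous V
  conv : ∀ (x y : E k) (t : ℝ), 0 < t → t < 1 →
    V ((1 - t) • x + t • y) ≤ ENNReal.ofReal (1 - t) * V x + ENNReal.ofReal t * V y

/-- convex lower semicontinuous functions with values in `(-∞, ∞]` -/
structure XF {k : ℕ} (V : E k → EReal) : Prop where
  nbot : ∀ x, V x ≠ ⊥
  lsc : LowerSemicontinuous V
  conv : ∀ (x y : E k) (t : ℝ), 0 < t → t < 1 →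
    V ((1 - t) • x + t • y) ≤ ((1 - t : ℝ) : EReal) * V x + (t : EReal) * V y

/-- the set where `∑ i, V j i (L x i) ≤ e j` for all `j`, functions with values in `[0, ∞]` -/
def VX {r B n : ℕ} {k : Fin B → ℕ} (L : E n →ₗ[ℝ] (∀ i, E (k i)))
    (V : Fin r → ∀ i, E (k i) → ℝ≥0∞) (e : Fin r → ℝ≥0∞) : Set (E n) :=
  {x | ∀ j, ∑ i, V j i (L x i) ≤ e j}

/-- the same for real valued functions -/
def VR {r B n : ℕ} {k : Fin B → ℕ} (L : E n →ₗ[ℝ] (∀ i, E (k i)))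
    (V : Fin r → ∀ i, E (k i) → ℝ) (e : Fin r → ℝ) : Set (E n) :=
  {x | ∀ j, ∑ i, V j i (L x i) ≤ e j}

/-- V1: the Gibbs weights satisfy the Poincaré inequality in isotropic position -/
def S_VGW : Prop := ∀ (r q B n N : ℕ) (A : ℝ) (k : Fin B → ℕ) (G : ∀ i, Set (E (k i) ≃ₗᵢ[ℝ] E (k i)))
  (ψ : (E n × E q) ≃ₗ[ℝ] E N) (e0 : (∀ i, E (k i)) ≃ₗ[ℝ] E N) (V : Fin r → ∀ i, E (k i) → ℝ),
  0 < A → 1 ≤ r → (∀ i, Gd A (G i)) → (∀ j i, ConvexOn ℝ univ (V j i)) →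
  (∀ j i x, 0 ≤ V j i x) → (∃ R : ℝ, ∀ j i x, max (‖x‖ - R) 0 ^ 2 ≤ V j i x) →
  (∀ i, ∀ g ∈ G i, ∀ j x, V j i (g x) = V j i x) →
  (∀ i, ∀ g ∈ G i, ∀ y : E (k i), (ψ.symm (e0 (Pi.single i (g y - y)))).2 = 0) →
  ∀ (l : Fin r → ℝ) (a : E q), (∀ j, 0 < l j) →
    AP (κ := Fin N) A (gw ψ (fun j z => ∑ i, V j i (e0.symm z i)) l a)

/-- V2: concentration, real valued functions -/
def S_VRR : Prop := ∀ (r q : ℕ) (A δ : ℝ), 0 < A → 0 < δ → ∃ κ : ℝ, 0 < κ ∧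
  ∀ (B n N : ℕ) (k : Fin B → ℕ) (G : ∀ i, Set (E (k i) ≃ₗᵢ[ℝ] E (k i)))
  (ψ : (E n × E q) ≃ₗ[ℝ] E N) (e0 : (∀ i, E (k i)) ≃ₗ[ℝ] E N) (V : Fin r → ∀ i, E (k i) → ℝ)
  (e : Fin r → ℝ), 1 ≤ n → 1 ≤ r → (∀ i, Gd A (G i)) → (∀ j i, ConvexOn ℝ univ (V j i)) →
  (∀ j i x, 0 ≤ V j i x) → (∃ R : ℝ, ∀ j i x, max (‖x‖ - R) 0 ^ 2 ≤ V j i x) →
  (∀ i, ∀ g ∈ G i, ∀ j x, V j i (g x) = V j i x) →
  (∀ i, ∀ g ∈ G i, ∀ y : E (k i), (ψ.symm (e0 (Pi.single i (g y - y)))).2 = 0) →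
  (∃ x : E n, ∀ j, ∑ i, V j i (e0.symm (ψ (x, 0)) i) < e j) →
  CcW κ δ (ind {x : E n | ∀ j, ∑ i, V j i (e0.symm (ψ (x, 0)) i) ≤ e j})

/-- V3: approximation -/
def S_VAP : Prop := ∀ (r B n : ℕ) (k : Fin B → ℕ) (L : E n →ₗ[ℝ] (∀ i, E (k i)))
  (V : Fin r → ∀ i, E (k i) → ℝ≥0∞) (e : Fin r → ℝ≥0∞), (∀ j i, XK (V j i)) → (∀ j, e j ≠ ⊤) →
  Bornology.IsBounded (VX L V e) → (VX L V e).Nonempty →
  ∃ (U : ℕ → Fin r → ∀ i, E (k i) → ℝ) (f : ℕ → Fin r → ℝ),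
    (∀ m j i, ConvexOn ℝ univ (U m j i)) ∧ (∀ m j i x, 0 ≤ U m j i x) ∧
    (∀ m, ∃ R : ℝ, ∀ j i x, max (‖x‖ - R) 0 ^ 2 ≤ U m j i x) ∧
    (∀ m i (g : E (k i) ≃ₗᵢ[ℝ] E (k i)), (∀ j x, V j i (g x) = V j i x) →
      ∀ j x, U m j i (g x) = U m j i x) ∧
    (∀ m, Bornology.IsBounded (VR L (U m) (f m))) ∧
    (∀ m, ∃ x : E n, ∀ j, ∑ i, U m j i (L x i) < f m j) ∧
    (∀ m, VR L (U (m + 1)) (f (m + 1)) ⊆ VR L (U m) (f m)) ∧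
    ⋂ m, VR L (U m) (f m) = VX L V e

/-- V4: concentration, functions with values in `[0, ∞]` -/
def S_VRX : Prop := ∀ (r q : ℕ) (A δ : ℝ), 0 < A → 0 < δ → ∃ κ : ℝ, 0 < κ ∧
  ∀ (B n : ℕ) (k : Fin B → ℕ) (G : ∀ i, Set (E (k i) ≃ₗᵢ[ℝ] E (k i)))
  (L : E n →ₗ[ℝ] (∀ i, E (k i))) (V : Fin r → ∀ i, E (k i) → ℝ≥0∞) (e : Fin r → ℝ≥0∞),
  ∑ i, k i ≤ n + q → (∀ i, Gd A (G i)) → (∀ j i, XK (V j i)) → (∀ j, e j ≠ ⊤) →
  (∀ i, ∀ g ∈ G i, ∀ j x, V j i (g x) = V j i x) →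
  (∀ i, ∀ g ∈ G i, ∀ y : E (k i), Pi.single i (g y - y) ∈ LinearMap.range L) →
  Bornology.IsBounded (VX L V e) → (interior (VX L V e)).Nonempty →
  IsCompact (VX L V e) ∧ Convex ℝ (VX L V e) ∧ CcW κ δ (ind (VX L V e))

/-- V5: reduction to functions with values in `[0, ∞]` -/
def S_VER : Prop := ∀ (r B n : ℕ) (k : Fin B → ℕ) (L : E n →ₗ[ℝ] (∀ i, E (k i)))
  (V : Fin r → ∀ i, E (k i) → EReal) (e : Fin r → ℝ), (∀ j i, XF (V j i)) →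
  Bornology.IsBounded {x : E n | ∀ j, ∑ i, V j i (L x i) ≤ (e j : EReal)} →
  {x : E n | ∀ j, ∑ i, V j i (L x i) ≤ (e j : EReal)}.Nonempty →
  ∃ (W : Fin r → ∀ i, E (k i) → ℝ≥0∞) (f : Fin r → ℝ≥0∞), (∀ j i, XK (W j i)) ∧
    (∀ j, f j ≠ ⊤) ∧ (∀ i (g : E (k i) ≃ₗᵢ[ℝ] E (k i)), (∀ j x, V j i (g x) = V j i x) →
      ∀ j x, W j i (g x) = W j i x) ∧
    {x : E n | ∀ j, ∑ i, V j i (L x i) ≤ (e j : EReal)} = VX L W f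

end Pool.Agent.N483.KM
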