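import Pool.Agent.N483.KM.StmF
import Pool.Agent.N483.KM.StmP

/-!
# Log-concave weights instead of bodies: statements
-/

set_option autoImplicit false

namespace Pool.Agent.N483.KM

open MeasureTheory Set Filter Topology
open scoped ENNReal InnerProductSpace
open Pool.Agent.R754.KG (E un sl Rv)
open Pool.Agent.R755.KF (CB)
open Pool.Agent.Y506.PV (CcW ind LCn)
open Pool.Agent.Y506.RG (EW VW Adm)

/-- log-concave weights with compact superlevel sets -/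
structure LW {n : ℕ} (w : E n → ℝ) : Prop where
  adm : Adm w
  lc : LCn w
  comp : ∀ c : ℝ, 0 < c → IsCompact {x | c ≤ w x}
  bdd : ∃ B : ℝ, ∀ x, w x ≤ B

/-- W0: integrable upper semicontinuous log-concave functions -/
def S_LWC : Prop := ∀ (n : ℕ) (w : E n → ℝ), Adm w → LCn w → UpperSemicontinuous w → LW w

/-- W0b: exponential decay -/
def S_LWD : Prop := ∀ (n : ℕ) (w : E n → ℝ), LW w →
  ∃ C c : ℝ, 0 < C ∧ 0 < c ∧ ∀ x, w x ≤ C * Real.exp (-(c * ‖x‖))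

/-- W1: concentration passes from the limit to the approximations -/
def S_REV : Prop := ∀ (n : ℕ) (κ δ ε : ℝ) (w : E n → ℝ) (W : ℕ → E n → ℝ), 0 < κ → 0 < ε → Adm w →
  (∀ᶠ j in atTop, Adm (W j)) → Tendsto (fun j => ∫ x, (1 + ‖x‖ ^ 2) * |W j x - w x|) atTop (𝓝 0) →
  CcW κ δ w → ∀ᶠ j in atTop, CcW (κ / 2) (δ + ε) (W j)

/-- W2: products -/
def S_PRW : Prop := ∀ (κ δ δ' : ℝ) (a b n : ℕ) (e : (E a × E b) ≃ₗ[ℝ] E n) (w : E a → ℝ)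
  (u : E b → ℝ), 0 ≤ δ → 0 ≤ δ' → Adm w → Adm u → CcW κ δ w → CcW κ δ' u →
  CcW κ (δ + δ') fun z => w (e.symm z).1 * u (e.symm z).2

/-- the cube -/
def qb (M : ℕ) : Set (E M) := {y | ∀ i, |y i| ≤ 1 / 2}

/-- W3: cubes -/
def S_CUBE : Prop := ∀ δ : ℝ, 0 < δ → ∃ κ : ℝ, 0 < κ ∧ ∀ M : ℕ, CcW κ δ (ind (qb M))

/-- `(1 + log w / M)₊` -/
noncomputable def gM {n : ℕ} (w : E n → ℝ) (M : ℕ) (x : E n) : ℝ :=
  if 0 < w x then max (1 + Real.log (w x) / M) 0 else 0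

/-- the body over the weight `gM ^ M` -/
def BW {n : ℕ} (w : E n → ℝ) (M : ℕ) : Set (E n × E M) :=
  {z | Real.exp (-M) ≤ w z.1 ∧ ∀ i, |z.2 i| ≤ gM w M z.1 / 2}

/-- W4: the body -/
def S_BWG : Prop := ∀ (n : ℕ) (w : E n → ℝ), LW w → ∀ᶠ M : ℕ in atTop, CB (BW w M) ∧
  ∀ F : E n × E M → ℝ, Continuous F →
    ∫ z in BW w M, F z = ∫ x, (∫ u in qb M, F (x, gM w M x • u)) * gM w M x ^ M

/-- W5: convergence of the weights -/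
def S_WMC : Prop := ∀ (n : ℕ) (w : E n → ℝ), LW w →
  (∀ᶠ M : ℕ in atTop, Adm (fun x => gM w M x ^ M)) ∧
  (∀ M : ℕ, 1 ≤ M → ∀ x, gM w M x ^ M ≤ w x) ∧
  Tendsto (fun M : ℕ => ∫ x, (1 + ‖x‖ ^ 2) * |gM w M x ^ M - w x|) atTop (𝓝 0) ∧
  (∀ᶠ M : ℕ in atTop, Integrable fun x => (gM w M x - 1) ^ 2 * gM w M x ^ M) ∧
  Tendsto (fun M : ℕ => (M : ℝ) * ∫ x, (gM w M x - 1) ^ 2 * gM w M x ^ M) atTop (𝓝 0)

/-- W6: from the weight to the bodies -/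
def S_BWC : Prop := ∀ δ : ℝ, 0 < δ → ∃ δ' : ℝ, 0 < δ' ∧ ∀ κ' : ℝ, 0 < κ' → ∃ κ : ℝ, 0 < κ ∧
  ∀ (n : ℕ) (w : E n → ℝ), LW w → CcW κ' δ' w → ∀ᶠ M : ℕ in atTop, ∀ (m : ℕ)
  (e : (E n × E M) ≃ₗ[ℝ] E m), CcW κ δ (ind (e '' BW w M))

/-- W7: from the bodies to the weight -/
def S_BWI : Prop := ∀ (n : ℕ) (κ δ : ℝ) (w : E n → ℝ), 0 < κ → LW w →
  (∀ᶠ M : ℕ in atTop, ∃ (m : ℕ) (e : (E n × E M) ≃ₗ[ℝ] E m), CcW κ δ (ind (e '' BW w M))) →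
  CcW (κ / 2) δ w

/-! ### consequences -/

/-- W8: large sections of weights -/
def S_WSE : Prop := ∀ (d : ℕ) (ε : ℝ), 0 < ε → ∃ δ' : ℝ, 0 < δ' ∧ ∀ κ' δ : ℝ, 0 < κ' → 0 < δ →
  ∃ κ : ℝ, 0 < κ ∧ ∀ (N n : ℕ) (e : (E N × E d) ≃ₗ[ℝ] E n) (w : E n → ℝ) (t : E d), LW w →
  LW (fun x : E N => w (e (x, t))) →
  (∀ t', ε * ∫ x, w (e (x, t')) ≤ ∫ x, w (e (x, t))) → CcW κ' δ' w →
  CcW κ δ fun x : E N => w (e (x, t))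

/-- W9: extensions of weights -/
def S_WEX : Prop := ∀ (d : ℕ) (ε δ : ℝ), 0 < ε → 0 < δ → ∃ δ' : ℝ, 0 < δ' ∧ ∀ κ' : ℝ, 0 < κ' →
  ∃ κ : ℝ, 0 < κ ∧ ∀ (N n : ℕ) (e : (E N × E d) ≃ₗ[ℝ] E n) (w : E n → ℝ) (t : E d), LW w →
  LW (fun x : E N => w (e (x, t))) →
  (∀ t', ε * ∫ x, w (e (x, t')) ≤ ∫ x, w (e (x, t))) → CcW κ' δ' (fun x : E N => w (e (x, t))) →
  CcW κ δ w

/-- W10: bounded deficit in the Prekopa–Leindler inequality -/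
def S_WPL : Prop := ∀ s : ℝ, 0 < s → ∃ δ' : ℝ, 0 < δ' ∧ ∀ κ' δ : ℝ, 0 < κ' → 0 < δ →
  ∃ κ : ℝ, 0 < κ ∧ ∀ (n : ℕ) (f g h : E n → ℝ), LW f → LW g → (∀ x, 0 ≤ h x) → Measurable h →
  Integrable h → (∀ x y, f x * g y ≤ h ((1 / 2 : ℝ) • (x + y)) ^ 2) →
  (∫ x, h x) ^ 2 ≤ s ^ 2 * ((∫ x, f x) * ∫ x, g x) → CcW κ' δ' f → CcW κ δ g

/-! ### Gibbs measures and level sets -/

/-- W11: supporting functionals of the logarithm of the volume -/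
def S_WSP : Prop := ∀ (r n q : ℕ) (S : Fin r → E n × E q → ℝ) (e : Fin r → ℝ), 1 ≤ n →
  (∀ j, ConvexOn ℝ univ (S j)) → (∀ j z, 0 ≤ S j z) →
  (∀ s : Fin r → ℝ, Bornology.IsBounded {z : E n × E q | ∀ j, S j z ≤ s j}) →
  (∃ x : E n, ∀ j, S j (x, 0) < e j) →
  ∃ (l : Fin r → ℝ) (a : E q), (∀ j, 0 < l j) ∧ ∀ (s : Fin r → ℝ) (u : E q),
    volume (LV S s u) ≤ ENNReal.ofReal (2 * Real.exp (∑ j, l j * (s j - e j) + ⟪a, u⟫_ℝ)) *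
      volume (LV S e 0)

/-- the Gibbs weights -/
noncomputable def gw {r n q N : ℕ} (ψ : (E n × E q) ≃ₗ[ℝ] E N) (S : Fin r → E N → ℝ)
    (l : Fin r → ℝ) (a : E q) (z : E N) : ℝ :=
  Real.exp (-(∑ j, l j * S j z + ⟪a, (ψ.symm z).2⟫_ℝ))

/-- W12: from the Gibbs measures to the level sets -/
def S_GIB : Prop := ∀ (r q : ℕ) (δ : ℝ), 0 < δ → ∃ δ' : ℝ, 0 < δ' ∧ ∀ κ' : ℝ, 0 < κ' →
  ∃ κ : ℝ, 0 < κ ∧ ∀ (n N : ℕ) (ψ : (E n × E q) ≃ₗ[ℝ] E N) (S : Fin r → E N → ℝ)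
  (e : Fin r → ℝ), 1 ≤ n → (∀ j, ConvexOn ℝ univ (S j)) → (∀ j z, 0 ≤ S j z) →
  (∀ s : Fin r → ℝ, Bornology.IsBounded {z : E N | ∀ j, S j z ≤ s j}) →
  (∃ x : E n, ∀ j, S j (ψ (x, 0)) < e j) →
  (∀ (l : Fin r → ℝ) (a : E q), (∀ j, 0 < l j) → Adm (gw ψ S l a) ∧ CcW κ' δ' (gw ψ S l a)) →
  CcW κ δ (ind {x : E n | ∀ j, S j (ψ (x, 0)) ≤ e j})

end Pool.Agent.N483.KM
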